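import Pool.Agent.Lib.MP_5290c5_lc.Kleene

/-!
Normal forms, monotonicity of iterated jumps, forcing for iterated jumps, generic reals.
-/

namespace Pool.Agent.Lib.MP_5290c5_lc

open Pool.Agent.Shared.Oracle Encodable Nat.Partrec

attribute [local irreducible] Computable

variable {α β γ : Type} [Primcodable α] [Primcodable β] [Primcodable γ]

theorem exists_dec (b : β) : ∃ d : ℕ → β, Computable d ∧ Function.Surjective d :=
  ⟨fun n => (decode n).getD b, by fun_prop, fun x => ⟨encode x, by simp⟩⟩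

theorem eq_seg {A : ℕ → Bool} {σ : List Bool} {k : ℕ} :
    σ = seg A k ↔ σ.length = k ∧ ∀ j < k, A j = σ.getD j false := by
  constructor
  · rintro rfl
    exact ⟨by simp, fun j hj => by simp [seg, hj]⟩
  · rintro ⟨rfl, h⟩
    apply List.ext_getElem (by simp)
    intro i h3 h4
    simp [seg, h i h3, h3]

theorem Sig.eqseg {f : α → List Bool} {g : α → ℕ} (hf : Computable f) (hg : Computable g) :
    Sig fun a A => f a = seg A (g a) :=
  (Sig.and (Sig.dec (by fun_prop)) (Sig.ball hg (Sig.orc (f := fun x : α × ℕ => x.2)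
    (g := fun x : α × ℕ => (f x.1).getD x.2 false) (by fun_prop) (by fun_prop)))).congr
    fun _ _ => eq_seg.symm

theorem Sig.prim {q : β → γ → Prop} (hq : PrimrecRel q) {f : α → β} {g : α → γ}
    (hf : Computable f) (hg : Computable g) : Sig fun a _ => q (f a) (g a) :=
  (Sig.of_re (re_of_prim hq)).comp (f := fun a => (f a, g a)) (by fun_prop)

theorem Sig.prim_not {q : β → γ → Prop} (hq : PrimrecRel q) {f : α → β} {g : α → γ}
    (hf : Computable f) (hg : Computable g) : Sig fun a _ => ¬ q (f a) (g a) :=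
  Sig.prim hq.not hf hg

/-- Two-quantifier normal form. -/
theorem Sig.nf₂ {P : α → (ℕ → Bool) → Prop} (h : Sig P) : ∃ g : α × ℕ → ℕ, Computable g ∧
    ∀ a Z, P a (jump Z) ↔ ∃ u, jump Z (g (a, u)) = false := by
  obtain ⟨q, hq, -, e⟩ := h.nf
  obtain ⟨r, hr, mr, er⟩ := (Sig.jmp (α := ℕ) Computable.id).nf
  obtain ⟨d, hd, sd⟩ := exists_dec (([], 0) : List Bool × ℕ)
  have h1 : Sig fun (x : α × ℕ) A => ¬ q x.1 (d x.2).1 ∨ ∃ j, j < (d x.2).1.length ∧
      (((d x.2).1.getD j false = true ∧ ∃ σ, σ = seg A (d x.2).2 ∧ ¬ r j σ) ∨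
        ((d x.2).1.getD j false = false ∧ jump A j = true)) := by
    repeat' first
      | apply Sig.or | apply Sig.and | apply Sig.ex
      | (apply Sig.jmp; fun_prop) | (apply Sig.eqseg <;> fun_prop)
      | (apply Sig.prim_not hq <;> fun_prop) | (apply Sig.prim_not hr <;> fun_prop)
      | (apply Sig.dec; fun_prop)
  obtain ⟨g, hg, eg⟩ := h1.index
  refine ⟨g, hg, fun a Z => ?_⟩
  simp only [← Bool.not_eq_true, eg, e, id] at er ⊢
  constructor
  · rintro ⟨k, hk⟩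
    have h2 : ∃ s, ∀ j < k, jump Z j = true → r j (seg Z s) := by
      clear hk
      induction k with
      | zero => exact ⟨0, by simp⟩
      | succ k ih =>
        obtain ⟨s, hs⟩ := ih
        by_cases h : jump Z k = true
        · obtain ⟨s', hs'⟩ := (er _ _).1 h
          refine ⟨s + s', fun j hj h' => ?_⟩
          rcases (Nat.lt_succ_iff.1 hj).eq_or_lt with rfl | hlt
          · exact mr _ _ _ (seg_prefix Z (by omega)) hs'
          · exact mr _ _ _ (seg_prefix Z (by omega)) (hs j hlt h')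
        · refine ⟨s, fun j hj h' => ?_⟩
          rcases (Nat.lt_succ_iff.1 hj).eq_or_lt with rfl | hlt
          · exact absurd h' h
          · exact hs j hlt h'
    obtain ⟨s, hs⟩ := h2
    obtain ⟨u, hu⟩ := sd (seg (jump Z) k, s)
    refine ⟨u, ?_⟩
    rw [hu]
    rintro (h | ⟨j, hj, ⟨h3, _, rfl, h4⟩ | ⟨h3, h4⟩⟩)
    · exact h hk
    · simp only [seg_length] at hj
      exact h4 (hs j hj (by simpa [seg, hj] using h3))
    · simp only [seg_length] at hj
      exact h3 (by simpa [seg, hj] using h4)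
  · rintro ⟨u, hu⟩
    push Not at hu
    refine ⟨(d u).1.length, ?_⟩
    rw [← eq_seg.2 ⟨rfl, fun j hj => ?_⟩]
    · exact hu.1
    · obtain ⟨h2, h3⟩ := hu.2 j hj
      cases h : (d u).1.getD j false
      · simpa using h3 (by rw [h]; simp)
      · exact (er _ _).2 ⟨_, h2 h _ rfl⟩

theorem InO.pred {c : ℕ} (h : InO (2 ^ c)) (h0 : c ≠ 0) : InO c := by
  rcases h.cases with h1 | ⟨b', h1, h2⟩ | ⟨e, f, h1, -⟩
  · exact absurd (pow_inj (b := 0) h1) h0
  · exact pow_inj h1 ▸ h2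
  · exact absurd h1 (pow_ne_lim _ _)

/-- Uniform monotonicity of iterated jumps above a level. -/
theorem exists_mono {A B : ℕ → Bool} {b : ℕ} (hb : InO b) (h : Red (H A b) (H B b)) :
    ∃ P : ℕ × ℕ × Bool → (ℕ → Bool) → Prop, Sig P ∧
      ∀ c, KLe b c → ∀ n i, P (c, n, i) (H B c) ↔ H A c n = i := by
  obtain ⟨P₀, hP₀, e₀⟩ := h
  have h1 : Sig fun (x : (Code × ℕ) × ℕ × Bool) A =>
      ∃ v, v ∈ x.1.1.eval (encode (x.1.2, x.2.1, x.2.2)) ∧ jump A v = true := by
    repeat' first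
      | apply Sig.and | apply Sig.ex | (apply Sig.jmp; fun_prop) | (apply Sig.mem_eval <;> fun_prop)
  obtain ⟨R, hR, eR⟩ := (Sig.jmp (α := ℕ) Computable.id).subst h1
  obtain ⟨s, hs, es⟩ := hR.index
  have h2 : Sig fun (x : Code × ℕ × ℕ × Bool) A => (x.2.1 = b ∧ P₀ (x.2.2.1, x.2.2.2) A) ∨
      (∃ c, x.2.1 = 2 ^ c ∧ c ≠ 0 ∧ Le b c ∧ A (s (x.2.2.1, x.1, c)) = x.2.2.2) ∨
      ∃ d j b₀ b₁ m v, x.2.1 = 3 * 5 ^ d ∧ x.2.1 ≠ b ∧ b₀ ∈ phi d x.2.2.1.unpair.1 ∧
        b₁ ∈ phi d j ∧ Le b b₁ ∧ Up b₀ x.2.2.1.unpair.2 b₁ m ∧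
        v ∈ x.1.eval (encode (b₁, m, x.2.2.2)) ∧ JL v b₁ x.2.1 A := by
    repeat' first
      | apply Sig.or | apply Sig.and | (apply Sig.le <;> fun_prop) | apply Sig.ex
      | (apply hP₀.comp; fun_prop) | (apply Sig.orc <;> fun_prop) | (apply Sig.mem_phi <;> fun_prop)
      | (apply Sig.mem_eval <;> fun_prop) | (apply Sig.up <;> fun_prop)
      | (apply Sig.jl <;> fun_prop) | (apply Sig.dec; fun_prop)
  obtain ⟨t, k, ht, hk, et⟩ := h2.recursion
  simp only [hk, Prod.forall] at et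
  refine ⟨_, Sig.jmp ht, fun c hc => ?_⟩
  induction c using klt_wf.induction with
  | _ c ih =>
    intro n i
    rw [et]
    have hc' := hc.right hb
    rcases hc with rfl | hc
    · refine Iff.trans ?_ (e₀ (n, i)).symm
      refine ⟨?_, fun h => Or.inl ⟨rfl, h⟩⟩
      rintro (⟨-, h⟩ | ⟨c, rfl, h0, h, -⟩ | ⟨d, j, b₀, b₁, m, v, -, h, -⟩)
      · exact h
      · have h2 := hb.pred h0
        exact absurd (((le_iff h2).1 h).trans_lt h2.lt_succ) KLt.irrefl
      · exact absurd rfl h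
    have hne : c ≠ b := fun e => KLt.irrefl (e ▸ hc)
    rcases hc.inv with ⟨c, rfl, h1, h2⟩ | ⟨e, f, rfl, hf, j, h2⟩
    · have h3 : H B (2 ^ c) (s (n, k, c)) = H A (2 ^ c) n := by
        rw [H_succ _ h1, H_succ _ h1, Bool.eq_iff_iff, es]
        refine eR n (k, c) _ _ fun j i => ?_
        simp only [hk, exists_eq_left]
        exact ih c h1.lt_succ h2 j i
      rw [← h3]
      refine ⟨?_, fun h => Or.inr (Or.inl ⟨c, rfl, h1.pos, (le_iff h1).2 h2, h⟩)⟩
      rintro (⟨h, -⟩ | ⟨c', h, -, -, h4⟩ | ⟨d, j, b₀, b₁, m, v, h, -⟩)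
      · exact absurd h hne
      · obtain rfl := pow_inj h
        exact h4
      · exact absurd h (pow_ne_lim _ _)
    · rw [H_lim _ hf]
      constructor
      · rintro (⟨h, -⟩ | ⟨c', h, -⟩ | ⟨d, j, b₀, b₁, m, v, h, -, h3, h4, h5, h6, rfl, h7⟩)
        · exact absurd h hne
        · exact absurd h.symm (pow_ne_lim _ _)
        · obtain rfl := lim_inj h
          obtain rfl := hf.eq.1 h3
          obtain rfl := hf.eq.1 h4
          rw [jl_iff hc' (hf.lt j).le, ih _ (hf.lt j) ((le_iff (hf.inO j)).1 h5)] at h7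
          rw [(h6.spec (hf.inO j)).2 A, h7]
      · intro h
        have h3 := hf.inO (j + n.unpair.1)
        have h4 : KLe b (f (j + n.unpair.1)) := h2.trans (hf.mono (by omega))
        obtain ⟨m, hm⟩ := (hf.mono (show n.unpair.1 ≤ j + n.unpair.1 by omega)).up h3 n.unpair.2
        refine Or.inr (Or.inr ⟨e, _, _, _, m, _, rfl, hne, hf.1 _, hf.1 _, (le_iff h3).2 h4, hm,
          rfl, ?_⟩)
        rw [jl_iff hc' (hf.lt _).le, ih _ (hf.lt _) h4, ← (hm.spec h3).2 A, h]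

theorem Red.mono_H {A B : ℕ → Bool} {b c : ℕ} (hb : InO b) (h : Red (H A b) (H B b))
    (hc : KLe b c) : Red (H A c) (H B c) := by
  obtain ⟨P, hP, e⟩ := exists_mono hb h
  exact ⟨_, hP.comp (f := fun x : ℕ × Bool => (c, x.1, x.2)) (by fun_prop),
    fun x => (e c hc x.1 x.2).symm⟩

theorem Red.H {A B : ℕ → Bool} {c : ℕ} (h : Red A B) (hc : InO c) : Red (H A c) (H B c) :=
  Red.mono_H (Or.inl rfl) (by simpa using h) hc.one_le

/-- The empty set. -/
def zero : ℕ → Bool := fun _ => false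

theorem red_zero (X : ℕ → Bool) : Red zero X :=
  (SigIn.dec (p := fun x : ℕ × Bool => false = x.2) (by fun_prop))

/-- Transfer of uniformly existential predicates along a reduction, at all levels at once. -/
theorem Sig.transfer {P : α → (ℕ → Bool) → Prop} (hP : Sig P) {A B : ℕ → Bool} (h : Red A B) :
    ∃ Q : α × ℕ → (ℕ → Bool) → Prop, Sig Q ∧ ∀ a c, InO c → (Q (a, c) (H B c) ↔ P a (H A c)) := by
  obtain ⟨M, hM, e⟩ := exists_mono (A := A) (B := B) (b := 1) (Or.inl rfl) (by simpa using h)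
  obtain ⟨R, hR, eR⟩ := hP.subst hM
  exact ⟨R, hR, fun a c hc => eR a c _ _ (e c hc.one_le)⟩

/-- The forcing relation for iterated jumps. -/
theorem exists_forcing : ∃ D : ℕ × List Bool × ℕ × Bool → (ℕ → Bool) → Prop, Sig D ∧
    (∀ c, InO c → ∀ σ τ n i, σ <+: τ → D (c, σ, n, i) (H zero c) → D (c, τ, n, i) (H zero c)) ∧
    (∀ c, InO c → ∀ σ n, ∃ τ i, σ <+: τ ∧ D (c, τ, n, i) (H zero c)) ∧
    ∀ c, InO c → ∀ X, (∀ b, KLe b c → ∀ n, ∃ k i, D (b, seg X k, n, i) (H zero b)) →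
      ∀ k n i, D (c, seg X k, n, i) (H zero c) → H X c n = i := by
  have h1 : Sig fun (x : Code × ℕ × List Bool × ℕ) A => ∃ ρ : List Bool,
      (phi x.2.2.2 (encode ρ)).Dom ∧ ∀ j < ρ.length,
        ∃ v, v ∈ x.1.eval (encode (x.2.1, x.2.2.1, j, ρ.getD j false)) ∧ jump A v = true := by
    repeat' first
      | apply Sig.and | apply Sig.ex | refine Sig.ball (by fun_prop) ?_
      | (apply Sig.dom_phi <;> fun_prop)
      | (apply Sig.jmp; fun_prop) | (apply Sig.mem_eval <;> fun_prop)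
  obtain ⟨s, hs, es⟩ := h1.index
  have h1' : Sig fun (x : Code × ℕ × List Bool × ℕ) A => ∃ τ : List Bool,
      jump A (s (x.1, x.2.1, x.2.2.1 ++ τ, x.2.2.2)) = true := Sig.ex (Sig.jmp (by fun_prop))
  obtain ⟨s', hs', es'⟩ := h1'.index
  have h2 : Sig fun (x : Code × ℕ × List Bool × ℕ × Bool) A =>
      (x.2.1 = 1 ∧ x.2.2.1[x.2.2.2.1]? = some x.2.2.2.2) ∨
      (∃ c, x.2.1 = 2 ^ c ∧ c ≠ 0 ∧
        ((x.2.2.2.2 = true ∧ A (s (x.1, c, x.2.2.1, x.2.2.2.1)) = true) ∨
          (x.2.2.2.2 = false ∧ A (s' (x.1, c, x.2.2.1, x.2.2.2.1)) = false))) ∨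
      ∃ d b v, x.2.1 = 3 * 5 ^ d ∧ b ∈ phi d x.2.2.2.1.unpair.1 ∧
        v ∈ x.1.eval (encode (b, x.2.2.1, x.2.2.2.1.unpair.2, x.2.2.2.2)) ∧ JL v b x.2.1 A := by
    repeat' first
      | apply Sig.or | apply Sig.and | apply Sig.ex
      | (apply Sig.orc <;> fun_prop) | (apply Sig.mem_phi <;> fun_prop)
      | (apply Sig.mem_eval <;> fun_prop) | (apply Sig.jl <;> fun_prop) | (apply Sig.dec; fun_prop)
  obtain ⟨t, k, ht, hk, et⟩ := h2.recursion
  simp only [hk, Prod.forall] at et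
  have e1 : ∀ σ n i, jump (H zero 1) (t (1, σ, n, i)) = true ↔ σ[n]? = some i := by
    intro σ n i
    rw [et]
    refine ⟨?_, fun h => Or.inl ⟨rfl, h⟩⟩
    rintro (⟨-, h⟩ | ⟨c, h, h0, -⟩ | ⟨d, b, v, h, -⟩)
    · exact h
    · exact absurd (pow_inj (a := 0) h).symm h0
    · exact absurd h (one_ne_lim _)
  have e2 : ∀ c, InO c → ∀ σ n i, jump (H zero (2 ^ c)) (t (2 ^ c, σ, n, i)) = true ↔
      (i = true ∧ jump (H zero c) (s (k, c, σ, n)) = true) ∨
        (i = false ∧ ∀ τ, ¬ jump (H zero c) (s (k, c, σ ++ τ, n)) = true) := by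
    intro c hc σ n i
    rw [et, ← not_exists, ← es' (k, c, σ, n), Bool.not_eq_true, ← H_succ _ hc]
    refine ⟨?_, fun h => Or.inr (Or.inl ⟨c, rfl, hc.pos, h⟩)⟩
    rintro (⟨h, -⟩ | ⟨c, h, -, h1⟩ | ⟨d, b, v, h, -⟩)
    · exact absurd h.symm hc.one_ne
    · obtain rfl := pow_inj h
      exact h1
    · exact absurd h (pow_ne_lim _ _)
  have e3 : ∀ e f, Fund e f → ∀ σ n i,
      jump (H zero (3 * 5 ^ e)) (t (3 * 5 ^ e, σ, n, i)) = true ↔
      jump (H zero (f n.unpair.1)) (t (f n.unpair.1, σ, n.unpair.2, i)) = true := by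
    intro e f hf σ n i
    rw [et, ← jl_iff hf.lim (hf.lt _).le]
    refine ⟨?_, fun h => Or.inr (Or.inr ⟨e, _, _, rfl, hf.1 _, rfl, h⟩)⟩
    rintro (⟨h, -⟩ | ⟨c, h, -⟩ | ⟨d, b, v, h, h1, rfl, h2⟩)
    · exact absurd h.symm (one_ne_lim _)
    · exact absurd h.symm (pow_ne_lim _ _)
    · obtain rfl := lim_inj h
      obtain rfl := hf.eq.1 h1
      exact h2
  have es₁ : ∀ c σ n A, jump A (s (k, c, σ, n)) = true ↔ ∃ ρ : List Bool, (phi n (encode ρ)).Dom ∧
      ∀ j < ρ.length, jump A (t (c, σ, j, ρ.getD j false)) = true := by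
    intro c σ n A
    simp only [es, hk, exists_eq_left]
  have hmono : ∀ c, InO c → ∀ σ τ n i, σ <+: τ → jump (H zero c) (t (c, σ, n, i)) = true →
      jump (H zero c) (t (c, τ, n, i)) = true := by
    intro c hc
    refine hc.ind (P := fun c => ∀ σ τ n i, σ <+: τ → jump (H zero c) (t (c, σ, n, i)) = true →
      jump (H zero c) (t (c, τ, n, i)) = true) ?_ (fun c hc ih => ?_) fun e f hf ih => ?_
    · rintro σ _ n i ⟨τ, rfl⟩ h
      rw [e1] at h ⊢
      rw [List.getElem?_append_left (List.getElem?_eq_some_iff.1 h).1, h]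
    · rintro σ _ n i ⟨τ, rfl⟩
      rw [e2 c hc, e2 c hc]
      rintro (⟨h, h'⟩ | ⟨h, h'⟩)
      · obtain ⟨ρ, h3, h4⟩ := (es₁ _ _ _ _).1 h'
        exact Or.inl ⟨h, (es₁ _ _ _ _).2 ⟨ρ, h3, fun j hj =>
          ih _ _ _ _ (List.prefix_append _ _) (h4 j hj)⟩⟩
      · exact Or.inr ⟨h, fun τ' => by rw [List.append_assoc]; exact h' _⟩
    · intro σ τ n i h
      rw [e3 e f hf, e3 e f hf]
      exact ih _ _ _ _ _ h
  refine ⟨_, Sig.jmp ht, hmono, fun c hc => ?_, fun c hc X => ?_⟩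
  · refine hc.ind (P := fun c => ∀ σ n, ∃ τ i, σ <+: τ ∧ jump (H zero c) (t (c, τ, n, i)) = true)
      (fun σ n => ?_) (fun c hc _ σ n => ?_) fun e f hf ih σ n => ?_
    · have h : n < (σ ++ List.replicate (n + 1) false).length := by simp; omega
      exact ⟨_, _, List.prefix_append _ _, (e1 _ _ _).2 (List.getElem?_eq_getElem h)⟩
    · by_cases h : ∃ τ, jump (H zero c) (s (k, c, σ ++ τ, n)) = true
      · obtain ⟨τ, h⟩ := h
        exact ⟨_, true, List.prefix_append _ _, (e2 c hc _ _ _).2 (Or.inl ⟨rfl, h⟩)⟩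
      · exact ⟨σ, false, List.prefix_refl _, (e2 c hc _ _ _).2 (Or.inr ⟨rfl, not_exists.1 h⟩)⟩
    · simp only [e3 e f hf]
      exact ih _ _ _
  · refine hc.ind (P := fun c => (∀ b, KLe b c → ∀ n, ∃ k i,
      jump (H zero b) (t (b, seg X k, n, i)) = true) →
      ∀ k n i, jump (H zero c) (t (c, seg X k, n, i)) = true → H X c n = i)
      (fun _ l n i h => ?_) (fun c hc ih hg l n i h => ?_) fun e f hf ih hg l n i h => ?_
    · rw [e1, seg_getElem?] at h
      split_ifs at h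
      simpa using h
    · have ih' := ih fun b hb => hg b (hb.trans hc.lt_succ.le)
      rw [H_succ _ hc]
      replace h := (e2 c hc _ _ _).1 h
      rcases h with ⟨rfl, h⟩ | ⟨rfl, h⟩
      · obtain ⟨ρ, h3, h4⟩ := (es₁ _ _ _ _).1 h
        refine jump_iff.2 ⟨ρ.length, ?_⟩
        rwa [← eq_seg.2 ⟨rfl, fun j hj => ih' _ _ _ (h4 j hj)⟩]
      · rw [← Bool.not_eq_true, jump_iff]
        rintro ⟨r, hr⟩
        have h3 : ∃ L, ∀ j < r, jump (H zero c) (t (c, seg X L, j, H X c j)) = true := by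
          clear hr
          induction r with
          | zero => exact ⟨0, by simp⟩
          | succ r ihr =>
            obtain ⟨L, hL⟩ := ihr
            obtain ⟨L', i, hL'⟩ := hg c hc.lt_succ.le r
            obtain rfl := ih' _ _ _ hL'
            refine ⟨L + L', fun j hj => ?_⟩
            rcases (Nat.lt_succ_iff.1 hj).eq_or_lt with rfl | hlt
            · exact hmono c hc _ _ _ _ (seg_prefix X (by omega)) hL'
            · exact hmono c hc _ _ _ _ (seg_prefix X (by omega)) (hL j hlt)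
        obtain ⟨L, hL⟩ := h3
        obtain ⟨τ, hτ⟩ := seg_prefix X (Nat.le_add_right l L)
        refine h τ ((es₁ _ _ _ _).2 ⟨_, hr, fun j hj => ?_⟩)
        rw [seg_length] at hj
        rw [hτ, show (seg (H X c) r).getD j false = H X c j by simp [seg, hj]]
        exact hmono c hc _ _ _ _ (seg_prefix X (by omega)) (hL j hj)
    · rw [H_lim _ hf]
      exact ih _ (fun b hb => hg b (hb.trans (hf.lt _).le)) _ _ _ ((e3 e f hf _ _ _).1 h)

theorem exists_limit (E : ℕ → List Bool → List Bool) (hE : ∀ s σ, σ <+: E s σ) :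
    ∃ X : ℕ → Bool, (∀ s, ∃ σ k, seg X k = E s σ) ∧
      ∀ O, ComputableIn₂ O E → ComputableIn O X := by
  let c : ℕ → List Bool := fun n => Nat.rec [] (fun s σ => E s σ ++ [false]) n
  have hc : ∀ s, c (s + 1) = E s (c s) ++ [false] := fun _ => rfl
  have h1 : ∀ s, c s <+: c (s + 1) := fun s => (hE s _).trans (List.prefix_append _ _)
  have h2 : ∀ s, s ≤ (c s).length := by
    intro s
    induction s with
    | zero => exact Nat.zero_le _
    | succ s ih =>
      have := (hE s (c s)).length_le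
      rw [hc, List.length_append, List.length_singleton]
      omega
  have h3 : ∀ s t, s ≤ t → c s <+: c t := by
    intro s t h
    induction t, h using Nat.le_induction with
    | base => exact List.prefix_refl _
    | succ t _ ih => exact ih.trans (h1 t)
  have h4 : ∀ {σ τ : List Bool} {j}, σ <+: τ → j < σ.length → τ.getD j false = σ.getD j false := by
    rintro σ _ j ⟨τ, rfl⟩ hj
    simp [List.getElem?_append_left hj]
  refine ⟨fun n => (c (n + 1)).getD n false, fun s => ⟨c s, _, (eq_seg.2 ⟨rfl, fun j hj => ?_⟩).symm⟩,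
    fun O hO => ?_⟩
  · rw [← h4 (h3 (j + 1) (j + 1 + (s + 1)) (by omega)) (h2 (j + 1)),
      ← h4 ((List.prefix_append _ _).trans (hc s ▸ h3 (s + 1) (j + 1 + (s + 1)) (by omega))) hj]
  · have h5 : ComputableIn₂ O fun (_ : ℕ) (p : ℕ × List Bool) => E p.1 p.2 ++ [false] :=
      cin_comp (f := fun l : List Bool => l ++ [false]) (Computable.computableIn (by fun_prop))
        (cin_comp (f := fun p : ℕ × List Bool => E p.1 p.2) hO ComputableIn.snd)
    have h6 := cin_nat_rec (ComputableIn.succ (O := O)) (ComputableIn.const []) h5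
    exact cin_comp₂ (f := fun (l : List Bool) n => l.getD n false)
      (Primrec.list_getD false).computableIn₂ h6 ComputableIn.id

theorem exists_generic {ι : Type} [Countable ι] (D : ι → List Bool → Prop)
    (hD : ∀ s σ, ∃ τ, σ <+: τ ∧ D s τ) : ∃ X, ∀ s, ∃ k, D s (seg X k) := by
  rcases isEmpty_or_nonempty ι with h | h
  · exact ⟨zero, fun s => h.elim s⟩
  obtain ⟨f, hf⟩ := exists_surjective_nat ι
  choose E h1 h2 using hD
  obtain ⟨X, hX, -⟩ := exists_limit (fun s => E (f s)) fun s => h1 _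
  refine ⟨X, fun s => ?_⟩
  obtain ⟨s, rfl⟩ := hf s
  obtain ⟨σ, k, h⟩ := hX s
  exact ⟨k, h ▸ h2 _ _⟩

theorem exists_generic_red {Z : ℕ → Bool} (a₀ : α) (D : α → List Bool → Prop)
    (hZ : SigIn Z fun x : α × List Bool => D x.1 x.2) (hD : ∀ s σ, ∃ τ, σ <+: τ ∧ D s τ) :
    ∃ X, Red X Z ∧ ∀ s, ∃ k, D s (seg X k) := by
  obtain ⟨f, hf, sf⟩ := exists_dec a₀
  obtain ⟨d, hd, sd⟩ := exists_dec (([], 0) : List Bool × ℕ)
  obtain ⟨q, hq, e⟩ := hZ.nf
  have h1 : ComputableIn₂ {orc Z} fun (x : ℕ × List Bool) u => q (f x.1, x.2 ++ (d u).1) (d u).2 :=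
    cin_comp (g := fun y : (ℕ × List Bool) × ℕ => ((f y.1.1, y.1.2 ++ (d y.2).1), (d y.2).2)) hq
      (Computable.computableIn (by fun_prop))
  have hex : ∀ x : ℕ × List Bool, ∃ u, q (f x.1, x.2 ++ (d u).1) (d u).2 = true := by
    intro x
    obtain ⟨_, ⟨τ, rfl⟩, h⟩ := hD (f x.1) x.2
    obtain ⟨k, hk⟩ := (e (_, _)).1 h
    obtain ⟨u, hu⟩ := sd (τ, k)
    exact ⟨u, by rwa [hu]⟩
  obtain ⟨X, hX, hX'⟩ := exists_limit (fun s σ => σ ++ (d (Nat.find (hex (s, σ)))).1)
    fun s σ => List.prefix_append _ _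
  refine ⟨X, red_iff.2 (hX' _ ?_), fun s => ?_⟩
  · exact cin_comp₂ (f := fun (x : ℕ × List Bool) u => x.2 ++ (d u).1)
      (Computable.computableIn (f := fun y : (ℕ × List Bool) × ℕ => y.1.2 ++ (d y.2).1)
        (by fun_prop)) ComputableIn.id (cin_find h1 hex)
  · obtain ⟨s, rfl⟩ := sf s
    obtain ⟨σ, k, h⟩ := hX s
    exact ⟨k, h ▸ (e (_, _)).2 ⟨_, Nat.find_spec (hex (s, σ))⟩⟩

end Pool.Agent.Lib.MP_5290c5_lc
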