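import Pool.Agent.Lib.MP_5290c5_lc.Group
import Pool.Agent.Lib.MP_5290c5_lc.Hier

/-!
Presentations of enumerable subgroups.
-/

namespace Pool.Agent.Lib.MP_5290c5_lc

open Pool.Agent.Shared.Oracle Encodable Nat.Partrec

attribute [local irreducible] Computable

theorem count_eq_seg (C : ℕ → Prop) [DecidablePred C] (i : ℕ) :
    Nat.count C i = ((seg (fun j => decide (C j)) i).map Bool.toNat).sum := by
  induction i with
  | zero => rfl
  | succ i ih =>
    rw [Nat.count_succ, seg_succ, List.map_append, List.sum_append, ih]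
    by_cases h : C i <;> simp [h]

open Classical in
theorem exists_present {M W : Type} [AddCommGroup M] [Primcodable W] (G : AddSubgroup M)
    [Infinite G] (val : W → M) {valid : W → Prop} {X : ℕ → Bool} (hv : SigIn X valid)
    (hG : ∀ g, g ∈ G ↔ ∃ w, valid w ∧ val w = g)
    (hadd : Computable fun x : W × W × W => decide (val x.1 + val x.2.1 = val x.2.2))
    (heq : Computable fun x : W × W => decide (val x.1 = val x.2)) :
    ∃ ν : G ≃ ℕ, Red (diagram ν) X := by
  obtain ⟨P, hP, eP⟩ := hv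
  obtain ⟨q, hq, -, eq⟩ := hP.nf
  obtain ⟨w₀, -⟩ := (hG 0).1 G.zero_mem
  obtain ⟨d, hd, sd⟩ := exists_dec (w₀, 0)
  let vd : ℕ → Prop := fun i => q (d i).1 (seg X (d i).2)
  let C : ℕ → Prop := fun i => vd i ∧ ∀ j < i, ¬ vd j ∨ val (d j).1 ≠ val (d i).1
  have hC : ∀ i, C i → val (d i).1 ∈ G := fun i hi =>
    (hG _).2 ⟨_, (eP _).2 ((eq _ _).2 ⟨_, hi.1⟩), rfl⟩
  have h1 : ∀ g ∈ G, ∃ i, C i ∧ val (d i).1 = g := by
    intro g hg
    have h2 : ∃ i, vd i ∧ val (d i).1 = g := by
      obtain ⟨w, h3, rfl⟩ := (hG g).1 hg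
      obtain ⟨k, hk⟩ := (eq _ _).1 ((eP _).1 h3)
      obtain ⟨i, hi⟩ := sd (w, k)
      exact ⟨i, by simpa [vd, hi] using hk, by rw [hi]⟩
    refine ⟨Nat.find h2, ⟨(Nat.find_spec h2).1, fun j hj => ?_⟩, (Nat.find_spec h2).2⟩
    rw [(Nat.find_spec h2).2]
    exact not_and_or.1 (Nat.find_min h2 hj)
  have h2 : {i | C i}.Infinite := by
    intro hf
    refine Set.infinite_coe_iff.1 (show Infinite (G : Set M) from ‹_›)
      ((hf.image fun i => val (d i).1).subset fun g hg => ?_)
    exact h1 g hg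
  let f : ℕ → G := fun a => ⟨val (d (Nat.nth C a)).1, hC _ (Nat.nth_mem_of_infinite h2 a)⟩
  have hf : Function.Bijective f := by
    refine ⟨fun a b e => Nat.nth_injective h2 ?_, fun g => ?_⟩
    · have e' : val (d (Nat.nth C a)).1 = val (d (Nat.nth C b)).1 := congrArg Subtype.val e
      have ha := Nat.nth_mem_of_infinite h2 a
      have hb := Nat.nth_mem_of_infinite h2 b
      rcases lt_trichotomy (Nat.nth C a) (Nat.nth C b) with h | h | h
      · exact absurd e' ((hb.2 _ h).resolve_left (not_not.2 ha.1))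
      · exact h
      · exact absurd e'.symm ((ha.2 _ h).resolve_left (not_not.2 hb.1))
    · obtain ⟨i, h3, h4⟩ := h1 g g.2
      exact ⟨Nat.count C i, Subtype.ext (by simp only [f]; rw [Nat.nth_count h3, h4])⟩
  have h3 : SigIn X vd := (Sig.sigIn (P := fun i A => ∃ σ, σ = seg A (d i).2 ∧ q (d i).1 σ)
    (Sig.ex (Sig.and (Sig.eqseg (by fun_prop) (by fun_prop))
      (Sig.prim hq (by fun_prop) (by fun_prop)))) X).congr fun i => by simp [vd]
  have h4 : SigIn X fun i => ¬ vd i :=
    (Sig.sigIn (P := fun i A => ∃ σ, σ = seg A (d i).2 ∧ ¬ q (d i).1 σ)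
    (Sig.ex (Sig.and (Sig.eqseg (by fun_prop) (by fun_prop))
      (Sig.prim_not hq (by fun_prop) (by fun_prop)))) X).congr fun i => by simp [vd]
  have heq' : Computable fun x : ℕ × ℕ => decide (val (d x.1).1 = val (d x.2).1) :=
    heq.comp (g := fun x : ℕ × ℕ => ((d x.1).1, (d x.2).1)) (by fun_prop)
  have h5 : Red (fun j => decide (C j)) X := by
    refine SigIn.congr (p := fun x : ℕ × Bool => (x.2 = true ∧ vd x.1 ∧ ∀ j < x.1,
      ¬ vd j ∨ decide (val (d j).1 = val (d x.1).1) = false) ∨ (x.2 = false ∧ (¬ vd x.1 ∨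
        ∃ j, j < x.1 ∧ vd j ∧ decide (val (d j).1 = val (d x.1).1) = true))) ?_ ?_
    · have h6 : Computable fun x : (ℕ × Bool) × ℕ => decide (val (d x.2).1 = val (d x.1.1).1) :=
        heq'.comp (g := fun x : (ℕ × Bool) × ℕ => (x.2, x.1.1)) (by fun_prop)
      repeat' first
        | (apply h4.comp; fun_prop) | (apply h3.comp; fun_prop)
        | apply SigIn.or | apply SigIn.and | apply SigIn.ex | refine SigIn.ball (by fun_prop) ?_
        | exact SigIn.dec (FP.c_decide_eq h6 (Computable.const _)) | (apply SigIn.dec; fun_prop)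
    · rintro ⟨i, b⟩
      cases b <;> simp [C]
      tauto
  have h6 : SigIn X fun x : ℕ × ℕ => x.1 = Nat.nth C x.2 := by
    have h7 : Sig fun (x : ℕ × ℕ) A => A x.1 = true ∧ ∃ σ, σ = seg A x.1 ∧
        (σ.map Bool.toNat).sum = x.2 := by
      repeat' first
        | apply Sig.and | apply Sig.ex | (apply Sig.eqseg <;> fun_prop)
        | (apply Sig.orc <;> fun_prop) | (apply Sig.dec; fun_prop)
    refine (h7.red h5).congr fun x => ?_
    simp only [decide_eq_true_eq, exists_eq_left]
    rw [← count_eq_seg C]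
    constructor
    · rintro ⟨a1, a2⟩
      rw [← a2, Nat.nth_count a1]
    · intro a1
      rw [a1, Nat.count_nth_of_infinite h2]
      exact ⟨Nat.nth_mem_of_infinite h2 _, rfl⟩
  refine ⟨(Equiv.ofBijective f hf).symm, SigIn.congr (p := fun x : ℕ × Bool => ∃ i j k,
    i = Nat.nth C x.1.unpair.1 ∧ j = Nat.nth C x.1.unpair.2.unpair.1 ∧
      k = Nat.nth C x.1.unpair.2.unpair.2 ∧
        decide (val (d i).1 + val (d j).1 = val (d k).1) = x.2) ?_ fun x => ?_⟩
  · refine SigIn.ex (SigIn.ex (SigIn.ex (SigIn.and ?_ (SigIn.and ?_ (SigIn.and ?_ ?_)))))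
    · exact h6.comp (f := fun y : (((ℕ × Bool) × ℕ) × ℕ) × ℕ => (y.1.1.2, y.1.1.1.1.unpair.1))
        (by fun_prop)
    · exact h6.comp (f := fun y : (((ℕ × Bool) × ℕ) × ℕ) × ℕ =>
        (y.1.2, y.1.1.1.1.unpair.2.unpair.1)) (by fun_prop)
    · exact h6.comp (f := fun y : (((ℕ × Bool) × ℕ) × ℕ) × ℕ =>
        (y.2, y.1.1.1.1.unpair.2.unpair.2)) (by fun_prop)
    · exact SigIn.dec (FP.c_decide_eq (hadd.comp (g := fun y : (((ℕ × Bool) × ℕ) × ℕ) × ℕ =>
        ((d y.1.1.2).1, (d y.1.2).1, (d y.2).1)) (by fun_prop)) (by fun_prop))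
  · simp only [exists_and_left, exists_eq_left, diagram, Equiv.symm_symm, Equiv.ofBijective_apply,
      f, Subtype.ext_iff, AddSubgroup.coe_add]

variable {N : Type} [Primcodable N] {par : N → N} {col : N → ℕ}

open Classical in
theorem computable_sum_eq (hpar : Computable par) (hcol : Computable col) :
    Computable fun x : List (N × Bool × ℕ) × List (N × Bool × ℕ) =>
      decide ((x.1.map (gen par col)).sum = (x.2.map (gen par col)).sum) := by
  let cf : ℕ → N × Bool × ℕ → N → ℕ := fun D y σ => D / fp y.2.1 (col y.1) ^ y.2.2 *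
    ((if y.1 = σ then 1 else 0) + if y.2.1 = true ∧ par y.1 = σ then 1 else 0)
  let D : List (N × Bool × ℕ) → ℕ := fun l => (l.map fun y => fp y.2.1 (col y.1) ^ y.2.2).prod
  have h1 : Computable fun x : List (N × Bool × ℕ) × List (N × Bool × ℕ) =>
      (((x.1 ++ x.2).map fun y => y.1) ++ (x.1 ++ x.2).map fun y => par y.1).all fun σ =>
        decide ((x.1.map fun y => cf (D (x.1 ++ x.2)) y σ).sum =
          (x.2.map fun y => cf (D (x.1 ++ x.2)) y σ).sum) := by
    unfold cf D fp
    fun_prop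
  have h2 : ∀ L y σ, y ∈ L → (D L : ℚ) * gen par col y σ = cf (D L) y σ := by
    intro L y σ hy
    obtain ⟨c, hc⟩ : fp y.2.1 (col y.1) ^ y.2.2 ∣ D L := List.dvd_prod (List.mem_map_of_mem hy)
    have h3 := fp_ne y.2.1 (col y.1)
    have h4 := one_lt_fp y.2.1 (col y.1)
    simp only [cf, hc, Nat.mul_div_cancel_left c (show 0 < fp y.2.1 (col y.1) ^ y.2.2 by positivity),
      gen, vec, Finsupp.smul_apply, smul_eq_mul, Finsupp.add_apply]
    push_cast
    field_simp
    cases y.2.1 <;> simp [Finsupp.single_apply]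
  have h3 : ∀ (L l : List (N × Bool × ℕ)) σ, (∀ y ∈ l, y ∈ L) → (D L : ℚ) * (l.map (gen par col)).sum σ =
      ((l.map fun y => cf (D L) y σ).sum : ℕ) := by
    intro L l σ hl
    induction l with
    | nil => simp
    | cons y l ih =>
      rw [List.map_cons, List.sum_cons, List.map_cons, List.sum_cons, Finsupp.add_apply, mul_add,
        ih fun z hz => hl z (List.mem_cons_of_mem _ hz), h2 L y σ (hl y List.mem_cons_self),
        Nat.cast_add]
  have h4 : ∀ L, (D L : ℚ) ≠ 0 := fun L => Nat.cast_ne_zero.2 (List.prod_ne_zero fun h => by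
    obtain ⟨y, -, hy⟩ := List.mem_map.1 h
    have := one_lt_fp y.2.1 (col y.1)
    exact absurd hy (by positivity))
  refine h1.of_eq fun x => Bool.eq_iff_iff.2 ?_
  have h5 := fun σ => h3 (x.1 ++ x.2) x.1 σ fun y hy => List.mem_append_left _ hy
  have h6 := fun σ => h3 (x.1 ++ x.2) x.2 σ fun y hy => List.mem_append_right _ hy
  simp only [List.all_eq_true, decide_eq_true_eq]
  refine ⟨fun h => Finsupp.ext fun σ => mul_left_cancel₀ (h4 (x.1 ++ x.2)) ?_, fun h σ _ => ?_⟩
  · rw [h5, h6]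
    by_cases hσ : σ ∈ ((x.1 ++ x.2).map fun y => y.1) ++ (x.1 ++ x.2).map fun y => par y.1
    · rw [h σ hσ]
    · have h7 : ∀ y ∈ x.1 ++ x.2, cf (D (x.1 ++ x.2)) y σ = 0 := by
        intro y hy
        have a1 : y.1 ≠ σ := fun e => hσ (List.mem_append_left _ (List.mem_map.2 ⟨y, hy, e⟩))
        have a2 : par y.1 ≠ σ := fun e => hσ (List.mem_append_right _ (List.mem_map.2 ⟨y, hy, e⟩))
        simp [cf, a1, a2]
      rw [List.sum_eq_zero, List.sum_eq_zero]
      · intro z hz
        obtain ⟨y, hy, rfl⟩ := List.mem_map.1 hz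
        exact h7 y (List.mem_append_right _ hy)
      · intro z hz
        obtain ⟨y, hy, rfl⟩ := List.mem_map.1 hz
        exact h7 y (List.mem_append_left _ hy)
  · have := h5 σ
    rw [h, h6] at this
    exact_mod_cast this.symm

theorem grp_present (hpar : Computable par) (hcol : Computable col) [Infinite N]
    {ok : N × Bool × ℕ → Prop} {X : ℕ → Bool} (hok : SigIn X ok) (h0 : ∀ ν, ok (ν, false, 0)) :
    ∃ ν : Grp par col ok ≃ ℕ, Red (diagram ν) X := by
  classical
  have : Infinite (Grp par col ok) := Infinite.of_injective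
    (fun ν : N => (⟨_, gen_mem (h0 ν)⟩ : Grp par col ok)) fun ν ν' e => by
      have e' := congrArg Subtype.val e
      simp only [gen_zero] at e'
      exact Finsupp.single_left_injective one_ne_zero e'
  obtain ⟨ν₀⟩ : Nonempty N := inferInstance
  have hS := computable_sum_eq hpar hcol
  have hl : SigIn X fun l : List (N × Bool × ℕ) => ∀ y ∈ l, ok y := by
    refine (SigIn.ball (p := fun (l : List (N × Bool × ℕ)) j => ok (l.getD j (ν₀, false, 0)))
      (f := List.length) (by fun_prop) (hok.comp (by fun_prop))).congr fun l => ⟨fun h y hy => ?_,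
        fun h j hj => h _ (by simp [hj])⟩
    obtain ⟨j, hj, rfl⟩ := List.getElem_of_mem hy
    simpa [hj] using h j hj
  refine exists_present (W := List (N × Bool × ℕ) × List (N × Bool × ℕ)) _
    (fun w => (w.1.map (gen par col)).sum - (w.2.map (gen par col)).sum)
    ((hl.comp Computable.fst).and (hl.comp Computable.snd)) (fun g => ⟨fun hg => ?_, ?_⟩) ?_ ?_
  · induction hg using AddSubgroup.closure_induction with
    | mem x hx =>
      obtain ⟨y, hy, rfl⟩ := hx
      exact ⟨([y], []), ⟨by simpa using hy, by simp⟩, by simp⟩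
    | zero => exact ⟨([], []), by simp, by simp⟩
    | add x y _ _ hx hy =>
      obtain ⟨w, h1, rfl⟩ := hx
      obtain ⟨w', h2, rfl⟩ := hy
      refine ⟨(w.1 ++ w'.1, w.2 ++ w'.2), ⟨fun y hy => (List.mem_append.1 hy).elim (h1.1 y) (h2.1 y),
        fun y hy => (List.mem_append.1 hy).elim (h1.2 y) (h2.2 y)⟩, ?_⟩
      simp only [List.map_append, List.sum_append]
      abel
    | neg x _ hx =>
      obtain ⟨w, h1, rfl⟩ := hx
      exact ⟨(w.2, w.1), h1.symm, by simp⟩
  · rintro ⟨w, h1, rfl⟩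
    have h2 : ∀ l : List (N × Bool × ℕ), (∀ y ∈ l, ok y) →
        (l.map (gen par col)).sum ∈ Grp par col ok := fun l h =>
      AddSubgroup.list_sum_mem _ fun z hz => by
        obtain ⟨y, hy, rfl⟩ := List.mem_map.1 hz
        exact gen_mem (h y hy)
    exact AddSubgroup.sub_mem _ (h2 _ h1.1) (h2 _ h1.2)
  · refine (hS.comp (g := fun x : (List (N × Bool × ℕ) × List (N × Bool × ℕ)) ×
      (List (N × Bool × ℕ) × List (N × Bool × ℕ)) × List (N × Bool × ℕ) × List (N × Bool × ℕ) =>
        (x.1.1 ++ x.2.1.1 ++ x.2.2.2, x.2.2.1 ++ x.1.2 ++ x.2.1.2)) (by fun_prop)).of_eq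
      fun x => decide_eq_decide.2 ?_
    simp only [List.map_append, List.sum_append]
    rw [← sub_eq_zero, ← sub_eq_zero (b := _ - _)]
    exact Eq.congr_left (by abel)
  · refine (hS.comp (g := fun x : (List (N × Bool × ℕ) × List (N × Bool × ℕ)) ×
      List (N × Bool × ℕ) × List (N × Bool × ℕ) => (x.1.1 ++ x.2.2, x.2.1 ++ x.1.2))
      (by fun_prop)).of_eq fun x => decide_eq_decide.2 ?_
    simp only [List.map_append, List.sum_append]
    rw [← sub_eq_zero, ← sub_eq_zero (b := _ - _)]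
    exact Eq.congr_left (by abel)

end Pool.Agent.Lib.MP_5290c5_lc
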