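import Pool.Agent.Lib.MP_5290c5_lc.Tree
import Pool.Agent.Lib.MP_5290c5_lc.Present

/-!
Building a copy of the group from an enumeration of the family.
-/

namespace Pool.Agent.Lib.MP_5290c5_lc

open Pool.Agent.Shared.Oracle Encodable Nat.Partrec

attribute [local irreducible] Computable

/-- `X` computes a copy of `G`. -/
def Cop (G : Type) [AddCommGroup G] (X : ℕ → Bool) : Prop := ∃ ν : G ≃ ℕ, Red (diagram ν) X

theorem Cop.of_equiv {G G' : Type} [AddCommGroup G] [AddCommGroup G'] (e : G ≃+ G') {X : ℕ → Bool}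
    (h : Cop G' X) : Cop G X := by
  obtain ⟨ν, h⟩ := h
  refine ⟨e.toEquiv.trans ν, ?_⟩
  convert h using 1
  funext m
  refine decide_eq_decide.2 ?_
  rw [← e.injective.eq_iff]
  simp

theorem cop_of_real {real : List En → Prop} {X : ℕ → Bool} (h0 : real [])
    (ht : ∀ x s, real (x :: s) → real s) (h : SigIn (jump X) fun s => ¬ real s) :
    Cop (TG real) X := by
  classical
  obtain ⟨P, hP, eP⟩ := h
  obtain ⟨g, hg, eg⟩ := hP.nf₂
  have e : ∀ s, ¬ real s ↔ ∃ u, jump X (g (s, u)) = false := fun s => (eP s).trans (eg s X)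
  obtain ⟨φ⟩ := grp_basechange (par := List.tail) (col := col) (real := real)
    (root := fun s => s = []) (fun s => if h : real s then 0 else Nat.find ((e s).1 h)) List.length
    (fun s hs => by cases s <;> simp at hs ⊢) (fun s hs => hs ▸ h0)
    fun s hs _ => by cases s; exacts [h0, ht _ _ hs]
  refine Cop.of_equiv φ (grp_present (by fun_prop) (by unfold col; fun_prop) ?_ (by simp))
  refine SigIn.congr (p := fun x : List En × Bool × ℕ => (x.2.1 = false ∨ x.1 ≠ []) ∧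
    ∀ u < x.2.2, jump X (g (x.1, u)) = true) (Sig.sigIn (P := fun (x : List En × Bool × ℕ) A =>
      (x.2.1 = false ∨ x.1 ≠ []) ∧ ∀ u < x.2.2, jump A (g (x.1, u)) = true)
      (Sig.and (Sig.dec (by fun_prop)) (Sig.ball (by fun_prop) (Sig.jmp (by fun_prop)))) X)
    fun x => and_congr (by cases x.2.1 <;> simp) ?_
  by_cases hx : real x.1
  · simp only [hx, true_or, iff_true]
    intro u _
    by_contra hu
    exact (e _).2 ⟨u, by simpa using hu⟩ hx
  · simp [hx, Nat.le_find_iff]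

theorem exists_st {f : En → En → ℕ × ℕ} (hf : Computable fun p : En × En => f p.1 p.2) :
    ∃ st : List En → ℕ × ℕ × List ℕ, Computable st ∧
      (∀ x r, st [x, r] = ((f x r).1, (f x r).2, [])) ∧ ∀ x y z s, st (x :: y :: z :: s) =
        ((st (y :: z :: s)).1, (st (y :: z :: s)).2.1, x.2.1 :: (st (y :: z :: s)).2.2) := by
  let F : List En → (ℕ × En) × ℕ × ℕ × List ℕ := fun s => s.foldr (fun x q =>
    ((q.1.1 + 1, x), if q.1.1 = 1 then ((f x q.1.2).1, (f x q.1.2).2, [])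
      else (q.2.1, q.2.2.1, x.2.1 :: q.2.2.2))) ((0, 0, 0, (0, 0), 0), 0, 0, [])
  have h1 : ∀ s, (F s).1.1 = s.length := fun s => by
    induction s with
    | nil => rfl
    | cons x s ih => exact congrArg (· + 1) ih
  refine ⟨fun s => (F s).2, ?_, fun x r => rfl, fun x y z s => ?_⟩
  · unfold F
    fun_prop
  · have h : ¬ (F (y :: z :: s)).1.1 = 1 := by simp [h1]
    exact if_neg (t := ((f x (F (y :: z :: s)).1.2).1, (f x (F (y :: z :: s)).1.2).2, [])) h

theorem re_rw {a : ℕ} (ha : InO a) :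
    REPred fun x : (ℕ × ℕ) × ℕ × ℕ => KLe x.2.1 a ∧ IsB x.2.1 ∧ WLt x.1 x.2 := by
  have h : Sig fun (x : (ℕ × ℕ) × ℕ × ℕ) (_ : ℕ → Bool) => Le x.2.1 a ∧ IsB x.2.1 ∧
      ((IsB x.1.1 ∧ Le (2 ^ x.1.1) x.2.1) ∨ (x.1.1 = x.2.1 ∧ x.1.2 < x.2.2)) := by
    repeat' first
      | apply Sig.or | apply Sig.and | (apply Sig.le <;> fun_prop) | (apply Sig.isB; fun_prop)
      | (apply Sig.dec; fun_prop)
  refine h.to_re.of_eq fun x => ?_
  rw [le_iff ha]
  refine and_congr_right fun h1 => and_congr_right fun _ => or_congr_left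
    (and_congr_right fun h2 => ?_)
  have h3 := h1.left ha
  rw [le_iff h3]
  refine ⟨fun h4 => ?_, KLt.succ_le⟩
  have := h2.two_le
  exact ((h4.left h3).pred (by omega)).lt_succ.trans_le h4

theorem exists_max {T : List ℕ → Prop} {p : List ℕ} (hp : T p) {a : ℕ} {w : ℕ × ℕ} (h1 : KLe w.1 a)
    (h2 : IsB w.1) : ∃ v, WLe v w ∧ Ge T v p ∧ (v = w ∨ ¬ Ge T (v.1, v.2 + 1) p) := by
  induction w using wlt_wf.induction with
  | _ w ih =>
    by_cases h : Ge T w p
    · exact ⟨w, Or.inl rfl, h, Or.inl rfl⟩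
    rw [ge_iff, not_and] at h
    obtain ⟨u, h3, h4⟩ := not_forall₂.1 (h hp)
    obtain ⟨v, h5, h6, h7⟩ := ih u h3 (h3.kle.trans h1) (h3.isB h2)
    refine ⟨v, Or.inr (h5.trans_lt h3), h6, Or.inr (h7.elim ?_ id)⟩
    rintro rfl h8
    exact h4 ((ge_iff.1 h8).2 v (wlt_succ v))

theorem build {V : ℕ → Set ℕ} {β : ℕ → ℕ → ℕ} {a : ℕ} (ha : InO a)
    (hβ : ∀ n m, IsB (β n m) ∧ KLe (β n m) a) (hβ' : Computable fun p : ℕ × ℕ => β p.1 p.2)
    {X : ℕ → Bool} {F : En → Set ℕ} (hF : ∀ x, (F x).Finite ∧ ¬ F x ⊆ V x.1)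
    (hF' : ∀ n F₀, F₀.Finite → ¬ F₀ ⊆ V n → {x | x.1 = n ∧ F x = F₀}.Infinite)
    {Q : En × ℕ → (ℕ → Bool) → Prop} (hQ : Sig Q)
    (eQ : ∀ x m, Q (x, m) (H X (2 ^ β x.1 m)) ↔ m ∉ F x) :
    ∃ real ty, Hom V β real ty ∧ Cop (TG real) X := by
  classical
  obtain ⟨g, hg, eg⟩ := hQ.nf₂
  have e1 : ∀ x m, m ∉ F x ↔ ∃ u, jump (H X (β x.1 m)) (g ((x, m), u)) = false := fun x m => by
    rw [← eQ, H_succ _ ((hβ _ _).2.left ha), eg]
  obtain ⟨e₀, -, he₀⟩ := (Sig.dec (α := Unit) (p := fun _ => 0 = 1) (by fun_prop)).index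
  have e2 : ∀ A, jump A (e₀ ()) = false := fun A => by simpa using he₀ () A
  obtain ⟨t, ht, et⟩ := exists_tree
  obtain ⟨st, hst, st2, st3⟩ := exists_st (f := fun x r => (β r.1 x.1,
    if x.2.2.1 = (β r.1 x.1, 0) then g ((r, x.1), x.2.1) else e₀ ())) (by fun_prop)
  let d : En := (0, 0, (0, 0), 0)
  let pc : List En → ℕ × ℕ := fun s =>
    if s.length = 2 then (β (s.getD 1 d).1 (s.getD 0 d).1, 1) else (s.getD 1 d).2.2.1
  let good : List En → Prop := fun s => s.length ≤ 1 ∨ ((KLe (pc s).1 a ∧ IsB (pc s).1 ∧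
    WLt (s.getD 0 d).2.2.1 (pc s)) ∧ jump (jump X) (t (st s)) = false)
  let real : List En → Prop := fun s => ∀ j < s.length, good (s.drop j)
  have hr : ∀ x s, real (x :: s) ↔ good (x :: s) ∧ real s := fun x s => Nat.forall_lt_succ_left
  let T : List En → List ℕ → Prop := fun s p => jump (jump X) (t ((st s).1, (st s).2.1, p)) = false
  let sp : List En → ℕ × ℕ → Prop := fun s v => WLe v (s.getD 0 d).2.2.1 ∧ Ge (T s) v (st s).2.2 ∧
    (v = (s.getD 0 d).2.2.1 ∨ ¬ Ge (T s) (v.1, v.2 + 1) (st s).2.2)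
  let ty : List En → Ty := fun s => match s with
    | [] => .top
    | [r] => .root r.1 (F r)
    | x :: y :: s => .node x.1 (Classical.epsilon (sp (x :: y :: s)))
  have h0 : real [] := fun j hj => by simp at hj
  have h1 : ∀ x y s, real (x :: y :: s) → (KLe (pc (x :: y :: s)).1 a ∧ IsB (pc (x :: y :: s)).1 ∧
      WLt x.2.2.1 (pc (x :: y :: s))) ∧ T (x :: y :: s) (st (x :: y :: s)).2.2 := fun x y s h =>
    ((hr _ _).1 h).1.resolve_left (by simp)
  have h2 : ∀ x y s, real (x :: y :: s) → sp (x :: y :: s) (Classical.epsilon (sp (x :: y :: s))) :=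
    fun x y s h => let ⟨⟨a1, a2, a3⟩, a4⟩ := h1 x y s h
      Classical.epsilon_spec (exists_max a4 (a3.kle.trans a1) (a3.isB a2))
  have h3 : ∀ x y s, real (y :: s) → KLe (pc (x :: y :: s)).1 a → IsB (pc (x :: y :: s)).1 →
      WLt x.2.2.1 (pc (x :: y :: s)) → Ge (T (x :: y :: s)) x.2.2.1 (st (x :: y :: s)).2.2 →
      real (x :: y :: s) ∧ ty (x :: y :: s) = .node x.1 x.2.2.1 := by
    intro x y s a0 a1 a2 a3 a4
    have a5 := (hr _ _).2 ⟨Or.inr ⟨⟨a1, a2, a3⟩, (ge_iff.1 a4).1⟩, a0⟩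
    obtain ⟨b1, -, b2⟩ := h2 x y s a5
    refine ⟨a5, congrArg _ (b2.elim id fun b2 => b1.resolve_right fun b1 => ?_)⟩
    exact b2 (a4.mono b1.succ_le)
  have h4 : ∀ (f : ℕ → En) (S : Set En), (∀ μ, (f μ).2.2.2 = μ) → (∀ μ, f μ ∈ S) → S.Infinite :=
    fun f S a1 a2 => Set.infinite_of_injective_forall_mem
      (fun μ μ' e => by rw [← a1 μ, e, a1]) a2
  have h5 : ∀ x r w, jump (H X (st [x, r]).1) (st [x, r]).2.1 = false →
      Ge (T [x, r]) w (st [x, r]).2.2 := by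
    intro x r w h
    obtain ⟨S, a1, a2⟩ := (et X _ (st2 x r ▸ (hβ _ _).1) (st2 x r ▸ (hβ _ _).2.left ha) _).2.1 h
    exact ge_of_closed a2 w _ (st2 x r ▸ a1)
  refine ⟨real, ty, ⟨h0, rfl, fun h => ((hr _ _).1 h).2, ?_, ?_, ?_, ?_⟩,
    cop_of_real h0 (fun _ _ h => ((hr _ _).1 h).2) ?_⟩
  · rintro x (_ | ⟨y, _ | ⟨z, s⟩⟩) h
    · exact .root (hF x).1 (hF x).2
    · obtain ⟨a1, a2, -⟩ := h2 _ _ _ h
      have a3 : WLe x.2.2.1 (β y.1 x.1, 0) :=
        WLt.le_of_succ (w := (β y.1 x.1, 0)) (h1 _ _ _ h).1.2.2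
      rcases a1.trans a3 with a4 | a4
      · have a5 : x.2.2.1 = (β y.1 x.1, 0) :=
          a3.resolve_right fun a5 => WLt.irrefl (a4 ▸ a1.trans_lt a5)
        simp only [ty, a4]
        simp only [a4, T, st2, a5, if_true] at a2
        exact .high ((e1 _ _).2 ⟨_, (et X _ (hβ _ _).1 ((hβ _ _).2.left ha) _).2.2 a2⟩)
      · exact .low a4
    · obtain ⟨a1, a2, -⟩ := h2 _ _ _ h
      have h' := ((hr _ _).1 h).2
      obtain ⟨b1, b2, b3⟩ := h2 _ _ _ h'
      obtain ⟨c1, c2, c3⟩ := (h1 _ _ _ h).1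
      replace c3 : WLt x.2.2.1 y.2.2.1 := c3
      refine .node (b3.elim (fun b3 => b3 ▸ a1.trans_lt c3) fun b3 => ?_)
      have a3 := a1.trans_lt c3
      refine (wle_total (b1.elim (fun e => e ▸ c1) fun e => e.kle.trans c1) (a3.kle.trans c1)
        (b1.elim (fun e => e ▸ c2) fun e => e.isB c2) (a3.isB c2)).resolve_left fun a4 => b3 ?_
      simp only [T, st3] at a2
      exact ge_iff.2 ⟨(ge_iff.1 b2).1, fun u hu => ⟨_, a2.mono (hu.le_of_succ.trans a4)⟩⟩
  · rintro x (_ | ⟨y, s⟩) - <;> rfl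
  · rintro (_ | ⟨y, _ | ⟨z, s⟩⟩) τ h hτ
    · cases hτ with
      | root a1 a2 =>
        refine (hF' _ _ a1 a2).mono ?_
        rintro x ⟨rfl, rfl⟩
        exact ⟨(hr _ _).2 ⟨Or.inl le_rfl, h0⟩, rfl⟩
    · cases hτ with
      | @low _ m _ v a1 =>
        refine h4 (fun μ => (m, 0, v, μ)) _ (fun _ => rfl) fun μ => h3 _ _ _ h (hβ _ _).2 (hβ _ _).1
          (a1.trans (wlt_succ _)) (h5 _ _ _ ?_)
        have : v ≠ (β y.1 m, 0) := fun e => WLt.irrefl (e ▸ a1)
        simp only [st2, this, if_false, e2]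
      | @high _ m _ a1 =>
        obtain ⟨u, hu⟩ := (e1 _ _).1 a1
        refine h4 (fun μ => (m, u, (β y.1 m, 0), μ)) _ (fun _ => rfl) fun μ => h3 _ _ _ h (hβ _ _).2
          (hβ _ _).1 (wlt_succ (β y.1 m, 0)) (h5 _ _ _ ?_)
        simp only [st2, if_true, hu]
    · cases hτ with
      | @node _ m _ v a1 =>
        obtain ⟨b1, b2, -⟩ := h2 _ _ _ h
        obtain ⟨c1, c2, c3⟩ := (h1 _ _ _ h).1
        obtain ⟨u, hu⟩ := (ge_iff.1 b2).2 v a1
        refine h4 (fun μ => (m, u, v, μ)) _ (fun _ => rfl) fun μ => h3 _ _ _ h (c3.kle.trans c1)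
          (c3.isB c2) (a1.trans_le b1) ?_
        simpa only [T, st3] using hu
  · refine Set.infinite_of_injective_forall_mem (f := fun μ : ℕ => [(0, 0, (0, 0), μ), d])
      (fun μ μ' e => by simpa using e) fun μ h => ?_
    obtain ⟨-, a1, a2⟩ := (h1 _ _ _ h).1
    simpa using (a2.isB a1).two_le
  · refine SigIn.congr (p := fun s : List En => ∃ j, j < s.length ∧ 1 < (s.drop j).length ∧
      (¬ (KLe (pc (s.drop j)).1 a ∧ IsB (pc (s.drop j)).1 ∧ WLt ((s.drop j).getD 0 d).2.2.1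
        (pc (s.drop j))) ∨ jump (jump X) (t (st (s.drop j))) = true)) ?_ fun s => ?_
    · refine SigIn.ex (SigIn.and (SigIn.dec (by fun_prop)) (SigIn.and (SigIn.dec (by fun_prop))
        (SigIn.or ?_ ((Sig.jmp (by fun_prop)).sigIn _))))
      exact (SigIn.of_re (re_rw ha)).neg_jump.comp (f := fun x : List En × ℕ =>
        (((x.1.drop x.2).getD 0 d).2.2.1, pc (x.1.drop x.2))) (by unfold pc; fun_prop)
    · simp only [real, good, not_forall, not_or, not_le, exists_prop, not_and_or (b := _ = false),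
        Bool.not_eq_false]

end Pool.Agent.Lib.MP_5290c5_lc
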