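import Pool.Agent.Lib.MP_5290c5_lc.Process

/-!
Low generic reals, cone avoidance, and the group attached to a uniformly existential family.
-/

namespace Pool.Agent.Lib.MP_5290c5_lc

open Pool.Agent.Shared.Oracle Encodable Nat.Partrec

attribute [local irreducible] Computable

variable {α β : Type} [Primcodable α] [Primcodable β]

theorem computable_of_graph {f : α → β} (h : REPred fun x : α × β => x.2 = f x.1) (b₀ : β) :
    Computable f := by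
  classical
  obtain ⟨q, hq, e⟩ := re_normal h
  obtain ⟨d, hd, sd⟩ := exists_dec (b₀, 0)
  have h0 : Computable fun y : (α × β) × ℕ => decide (q y.1 y.2) := hq.decide.to_comp
  have h1 : Computable₂ fun (a : α) (k : ℕ) =>
      if decide (q (a, (d k).1) (d k).2) = true then some (d k).1 else none :=
    FP.c_ite (FP.c_decide_eq (h0.comp (g := fun y : α × ℕ => ((y.1, (d y.2).1), (d y.2).2))
      (by fun_prop)) (Computable.const _)) (by fun_prop) (Computable.const _)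
  refine (Partrec.rfindOpt h1).of_eq_tot fun a => ?_
  have h2 : ∃ k b, b ∈ if decide (q (a, (d k).1) (d k).2) = true then some (d k).1 else none := by
    obtain ⟨t, ht⟩ := (e (a, f a)).1 rfl
    obtain ⟨k, hk⟩ := sd (f a, t)
    exact ⟨k, f a, by simp [hk, ht]⟩
  obtain ⟨b, hb⟩ := Part.dom_iff_mem.1 (Nat.rfindOpt_dom.2 h2)
  obtain ⟨k, hk⟩ := Nat.rfindOpt_spec hb
  simp only [decide_eq_true_eq, Option.mem_def, Option.ite_none_right_eq_some,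
    Option.some.injEq] at hk
  rwa [← show b = f a from hk.2 ▸ (e (a, (d k).1)).2 ⟨_, hk.1⟩]

theorem exists_phi {p : α → Prop} (hp : REPred p) : ∃ e, ∀ y, (phi e (encode y)).Dom ↔ p y := by
  obtain ⟨c, hc⟩ := Code.exists_code.1 hp
  exact ⟨encode c, fun y => by simp [phi, hc, Part.assert]⟩

theorem exists_code {g : α → ℕ} (hg : Computable g) :
    ∃ e, ∀ y v, v ∈ phi e (encode y) ↔ v = g y := by
  obtain ⟨c, hc⟩ := Code.exists_code.1 hg.partrec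
  exact ⟨encode c, fun y v => by simp [phi, hc]⟩

theorem exists_bound {p : ℕ → ℕ → Prop} (hp : ∀ l L L', L ≤ L' → p l L → p l L')
    (h : ∀ l, ∃ L, p l L) (r : ℕ) : ∃ L, ∀ l < r, p l L := by
  choose f hf using h
  exact ⟨(Finset.range r).sup f, fun l hl =>
    hp _ _ _ (Finset.le_sup (f := f) (Finset.mem_range.2 hl)) (hf l)⟩

theorem low_of_generic {ι : Type} [Countable ι] {D : ι → List Bool → Prop}
    (hD : ∀ i σ, ∃ τ, σ <+: τ ∧ D i τ) {b : ℕ} (hb : InO b) {A : ℕ → Bool}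
    (h : ∀ X, (∀ i, ∃ k, D i (seg X k)) → Red A (H X b)) : Red A (H zero b) := by
  obtain ⟨F, hF, mF, dF, tF⟩ := exists_forcing
  let R : ℕ → ℕ × Bool → List Bool → Prop := fun e x σ => ∃ ρ : List Bool,
    (phi e (encode (x, ρ))).Dom ∧ ∀ l < ρ.length, F (b, σ, l, ρ.getD l false) (H zero b)
  obtain ⟨X, hX⟩ := exists_generic (ι := ι ⊕ (ℕ × ℕ) ⊕ ℕ) (Sum.elim D (Sum.elim
    (fun x σ => KLe x.1 b → ∃ i, F (x.1, σ, x.2, i) (H zero x.1))
    fun e σ => (∃ j, R e (j, !A j) σ) ∨ ∀ τ, σ <+: τ → ∀ j, ¬ R e (j, !A j) τ)) (by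
      rintro (i | ⟨c, n⟩ | e) σ
      · exact hD i σ
      · by_cases hc : KLe c b
        · obtain ⟨τ, i, h1, h2⟩ := dF c (hc.left hb) σ n
          exact ⟨τ, h1, fun _ => ⟨i, h2⟩⟩
        · exact ⟨σ, List.prefix_refl _, fun h => absurd h hc⟩
      · by_cases h1 : ∃ τ, σ <+: τ ∧ ∃ j, R e (j, !A j) τ
        · exact h1.imp fun τ h => ⟨h.1, Or.inl h.2⟩
        · exact ⟨σ, List.prefix_refl _, Or.inr fun τ h2 j h3 => h1 ⟨τ, h2, j, h3⟩⟩)
  obtain ⟨P, ⟨p, hp, ep⟩, eP⟩ := h X fun i => hX (.inl i)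
  obtain ⟨e, he⟩ := exists_phi hp
  have hg : ∀ c, KLe c b → ∀ n, ∃ k i, F (c, seg X k, n, i) (H zero c) := fun c hc n =>
    (hX (.inr (.inl (c, n)))).imp fun k hk => hk hc
  have h1 : ∀ x k, R e x (seg X k) → A x.1 = x.2 := by
    rintro x k ⟨ρ, h1, h2⟩
    refine (eP x).2 ((ep _ _).2 ⟨ρ.length, ?_⟩)
    rw [← eq_seg.2 ⟨rfl, fun j hj => tF b hb X hg _ _ _ (h2 j hj)⟩]
    exact (he _).1 h1
  obtain ⟨k, hk⟩ := hX (.inr (.inr e))
  replace hk := hk.resolve_left fun ⟨j, hj⟩ => by simpa using h1 _ _ hj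
  refine SigIn.congr (p := fun x => ∃ τ, R e x (seg X k ++ τ)) (Sig.sigIn (P := fun x A => ∃ τ,
    ∃ ρ : List Bool, (phi e (encode (x, ρ))).Dom ∧
      ∀ l < ρ.length, F (b, seg X k ++ τ, l, ρ.getD l false) A) ?_ _) fun x => ⟨?_, fun h2 => ?_⟩
  · repeat' first
      | apply Sig.and | apply Sig.ex | refine Sig.ball (by fun_prop) ?_
      | (apply Sig.dom_phi <;> fun_prop) | (apply hF.comp; fun_prop)
  · rintro ⟨τ, h2⟩
    by_contra h3
    refine hk _ (List.prefix_append _ τ) x.1 ?_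
    rwa [show (!A x.1) = x.2 by revert h3; cases A x.1 <;> cases x.2 <;> simp]
  · obtain ⟨r, hr⟩ := (ep _ _).1 ((eP x).1 h2)
    obtain ⟨L, hL⟩ := exists_bound (p := fun l L => F (b, seg X L, l, H X b l) (H zero b))
      (fun l L L' h => mF b hb _ _ _ _ (seg_prefix X h)) (fun l => by
        obtain ⟨L, i, h3⟩ := hg b KLe.rfl l
        exact ⟨L, tF b hb X hg _ _ _ h3 ▸ h3⟩) r
    obtain ⟨τ, hτ⟩ := seg_prefix X (Nat.le_add_right k L)
    refine ⟨τ, _, (he _).2 hr, fun j hj => ?_⟩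
    rw [seg_length] at hj
    rw [hτ, show (seg (H X b) r).getD j false = H X b j by simp [seg, hj]]
    exact mF b hb _ _ _ _ (seg_prefix X (by omega)) (hL j hj)

theorem exists_low {a : ℕ} (ha : InO a) (x₀ : α) {D : α → List Bool → Prop}
    (hZ : SigIn (H zero a) fun x : α × List Bool => D x.1 x.2)
    (hD : ∀ i σ, ∃ τ, σ <+: τ ∧ D i τ) :
    ∃ X, (∀ i, ∃ k, D i (seg X k)) ∧ Red (H X a) (H zero a) := by
  classical
  obtain ⟨F, hF, mF, dF, tF⟩ := exists_forcing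
  obtain ⟨q, hq, eq⟩ := re_normal (Sig.le (α := ℕ) Computable.id (Computable.const a)).to_re
  let f : ℕ × ℕ → ℕ := fun x => if decide (q x.1 x.2) = true then x.1 else a
  have hf : Computable f := FP.c_ite (FP.c_decide_eq hq.decide.to_comp (Computable.const _))
    Computable.fst (Computable.const _)
  have h1 : ∀ x, KLe (f x) a := fun x => by
    simp only [f]
    split_ifs with h
    · exact (le_iff ha).1 ((eq _).2 ⟨_, by simpa using h⟩)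
    · exact KLe.rfl
  obtain ⟨L, hL, eL⟩ := hF.lift
  obtain ⟨X, h2, hX⟩ := exists_generic_red (Z := H zero a) (x₀, (0, 0), 0)
    (fun (y : α × (ℕ × ℕ) × ℕ) σ => (∃ k, D y.1 (σ.take k)) ∧
      ∃ i, L ((f y.2.1, σ, y.2.2, i), f y.2.1, a) (H zero a))
    (SigIn.and (SigIn.ex (hZ.comp (f := fun z : ((α × (ℕ × ℕ) × ℕ) × List Bool) × ℕ =>
      (z.1.1.1, z.1.2.take z.2)) (by fun_prop))) (SigIn.ex ((hL.sigIn _).comp
        (f := fun z : ((α × (ℕ × ℕ) × ℕ) × List Bool) × Bool =>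
          ((f z.1.1.2.1, z.1.2, z.1.1.2.2, z.2), f z.1.1.2.1, a)) (by fun_prop)))) (by
      intro y σ
      obtain ⟨τ, h2, h3⟩ := hD y.1 σ
      obtain ⟨τ', i, h4, h5⟩ := dF _ ((h1 y.2.1).left ha) τ y.2.2
      refine ⟨τ', h2.trans h4, ⟨τ.length, ?_⟩, i, (eL _ _ _ _ ha (h1 _)).2 h5⟩
      rwa [← List.prefix_iff_eq_take.1 h4])
  have hg : ∀ c, KLe c a → ∀ n, ∃ k i, F (c, seg X k, n, i) (H zero c) := by
    intro c hc n
    obtain ⟨t, ht⟩ := (eq c).1 ((le_iff ha).2 hc)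
    obtain ⟨k, -, i, h⟩ := hX (x₀, (c, t), n)
    rw [eL _ _ _ _ ha (h1 _)] at h
    exact ⟨k, i, by simpa [f, ht] using h⟩
  refine ⟨X, fun i => ?_, SigIn.congr (p := fun x : ℕ × Bool => ∃ y : List Bool × ℕ,
    y.1 = seg X y.2 ∧ F (a, y.1, x.1, x.2) (H zero a)) (SigIn.ex (SigIn.and
      ((Sig.eqseg (by fun_prop) (by fun_prop)).red h2) ((hF.sigIn _).comp
        (f := fun z : (ℕ × Bool) × List Bool × ℕ => (a, z.2.1, z.1.1, z.1.2)) (by fun_prop))))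
    fun x => ⟨?_, fun h => ?_⟩⟩
  · obtain ⟨k, ⟨l, h⟩, -⟩ := hX (i, (0, 0), 0)
    rcases le_total l k with h3 | h3
    · exact ⟨l, seg_take X h3 ▸ h⟩
    · exact ⟨k, by rwa [List.take_of_length_le (by simpa using h3)] at h⟩
  · rintro ⟨y, h3, h⟩
    exact tF a ha X hg _ _ _ (h3 ▸ h)
  · obtain ⟨k, i, h3⟩ := hg a KLe.rfl x.1
    exact ⟨(_, k), rfl, h ▸ tF a ha X hg _ _ _ h3 ▸ h3⟩

theorem mem_jumpSp {G : Type} [AddCommGroup G] {b : ℕ} (hb : InO b) {d : TuringDegree} :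
    d ∈ JumpSp G b ↔ ∃ ν : G ≃ ℕ, d = degree (H (diagram ν) b) := by
  refine ⟨?_, fun ⟨ν, h⟩ => ⟨_, _, ⟨ν, rfl⟩, hb.isH _, h⟩⟩
  rintro ⟨X, A, ⟨ν, h1⟩, h2, rfl⟩
  exact ⟨ν, h2.eq ▸ le_antisymm (degree_le.2 ((degree_le.1 h1.le).H hb))
    (degree_le.2 ((degree_le.1 h1.ge).H hb))⟩

/-- The group has least jump at level `a`, and the family can be read off copies. -/
theorem core {a : ℕ} (ha : InO a) {γ : ℕ → ℕ} (hγ : ∀ n, IsB (γ n) ∧ γ n ≠ 2 ∧ KLe (γ n) a)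
    (hγ' : Computable γ) {W : ℕ × ℕ → (ℕ → Bool) → Prop} (hW : Sig W)
    (hV : ∀ n, {w | W (n, w) (H zero (γ n))}ᶜ.Infinite)
    (hV' : SigIn (H zero a) fun x : ℕ × ℕ => ¬ W x (H zero (γ x.1))) :
    ∃ G : AddSubgroup (List En →₀ ℚ), IsLeast (JumpSp G a) (degree (H zero a)) ∧
      ∀ b, InO b → (∃ d, IsLeast (JumpSp G b) d) → ∃ (Y : ℕ → Bool) (U : ℕ → Set ℕ) (l : ℕ × ℕ → ℕ)
        (Q : ℕ × ℕ → (ℕ → Bool) → Prop), Red (H Y b) (H zero b) ∧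
        (∀ n, (U n).Finite ∧ ¬ U n ⊆ {w | W (n, w) (H zero (γ n))}) ∧ Computable l ∧
        (∀ n m, InO (l (n, m)) ∧ KLe (2 ^ l (n, m)) (γ n)) ∧ Sig Q ∧
        ∀ n m, Q (n, m) (H Y (l (n, m))) ↔ m ∉ U n := by
  obtain ⟨S, hS, -, eS⟩ := exists_sub
  choose l ix l1 l2 l3 l4 using fun n => eS (γ n) (hγ n).1 ((hγ n).2.2.left ha) (hγ n).2.1
  obtain ⟨g, hg, eg⟩ := hW.index
  have hl : Computable fun p : ℕ × ℕ => l p.1 p.2 := by
    refine computable_of_graph ((Sig.ex (P := fun (x : (ℕ × ℕ) × ℕ) e _ =>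
      S (γ x.1.1, 0, x.1.2, 0, x.2, e)) ((Sig.of_re hS).comp (by fun_prop))).to_re.of_eq ?_) 0
    simp [l3]
  obtain ⟨L, hL, eL⟩ := (Sig.ex (P := fun (x : ℕ × ℕ × ℕ × ℕ) (y : ℕ × ℕ) A =>
    S (γ x.1, g (x.1, x.2.1), x.2.2.1, y.1, x.2.2.2, y.2) ∧ A y.2 = false)
    (Sig.and ((Sig.of_re hS).comp (by fun_prop)) (Sig.orc (by fun_prop) (by fun_prop)))).lift
  have b1 : ∀ n m, KLe (2 ^ 2 ^ l n m) (γ n) := fun n m => (l1 n m).1.ss_le (hγ n).1 (l1 n m).2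
  have b2 : ∀ n m m', m ≤ m' → KLe (2 ^ l n m) (2 ^ l n m') := fun n m m' h => by
    induction m', h using Nat.le_induction with
    | base => exact KLe.rfl
    | succ m' _ ih => exact ih.trans ((l2 n m').succ (l1 _ _).2.left)
  have e1 : ∀ n w m, (∀ i < m + 1, L ((n, w, i, l n i), 2 ^ l n i, 2 ^ l n m) (H zero (2 ^ l n m))) ↔
      ∀ i < m + 1, ∃ u, jump (H zero (l n i)) (ix n (g (n, w)) i u) = false := by
    refine fun n w m => forall₂_congr fun i hi => ?_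
    rw [eL _ _ _ _ (l1 _ _).2.left.succ (b2 _ _ _ (by omega)), H_succ _ (l1 _ _).2.left]
    simp [l3]
  have e2 : ∀ n w, ¬ W (n, w) (H zero (γ n)) ↔
      ∀ i, ∃ u, jump (H zero (l n i)) (ix n (g (n, w)) i u) = false := fun n w => by
    rw [← eg, Bool.not_eq_true, l4]
  have hβ : ∀ n m, IsB (l n m) ∧ KLe (l n m) a := fun n m =>
    ⟨(l1 n m).1, (l1 n m).2.le.trans (hγ n).2.2⟩
  obtain ⟨D, hD, dD, eD⟩ := setup (V := fun n => {w | W (n, w) (H zero (γ n))}) ha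
    (fun n m => ⟨(l1 n m).1, (b1 n m).trans (hγ n).2.2⟩) hl l2
    (K := fun x A => ∀ i < x.2.2 + 1, L ((x.1, x.2.1, i, l x.1 i), 2 ^ l x.1 i, 2 ^ l x.1 x.2.2) A)
    (Sig.ball (by fun_prop) (hL.comp (by fun_prop)))
    (fun n w hw m => (e1 n w m).2 fun i _ => (e2 n w).1 hw i)
    (fun n w hw => by
      obtain ⟨i, hi⟩ := not_forall.1 fun h => (e2 n w).2 h hw
      exact ⟨i, fun m hm h => hi ((e1 n w m).1 h i (by omega))⟩) hV hV'
  obtain ⟨X₀, h1, h2⟩ := exists_low ha (0, 0, (0, 0), 0) hD dD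
  obtain ⟨real, ty, h3, ν₀, h4⟩ := eD X₀ h1
  refine ⟨TG real, ⟨(mem_jumpSp ha).2 ⟨ν₀, le_antisymm (degree_le.2 ((red_zero _).H ha))
    (degree_le.2 ((h4.H ha).trans h2))⟩, fun d hd => ?_⟩, fun b hb ⟨d, h5, h6⟩ => ?_⟩
  · obtain ⟨ν, rfl⟩ := (mem_jumpSp ha).1 hd
    exact degree_le.2 ((red_zero _).H ha)
  obtain ⟨ν, rfl⟩ := (mem_jumpSp hb).1 h5
  obtain ⟨U, h7, Q, hQ, eQ⟩ := decode h3 ha hβ hl (fun n => (hV n).nonempty) ν
  refine ⟨diagram ν, U, fun x => 2 ^ l x.1 x.2, Q, low_of_generic dD hb fun X hX => ?_, h7,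
    by fun_prop, fun n m => ⟨(l1 _ _).2.left.succ, b1 n m⟩, hQ, eQ⟩
  obtain ⟨real', ty', h8, h9⟩ := eD X hX
  obtain ⟨φ⟩ := h3.iso h8
  obtain ⟨ν', h10⟩ := h9.of_equiv φ
  exact (degree_le.1 (h6 ((mem_jumpSp hb).2 ⟨ν', rfl⟩))).trans (h10.H hb)

end Pool.Agent.Lib.MP_5290c5_lc
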