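import Pool.Agent.Lib.MP_5290c5_lc.Tree

/-!
Reading the family off a copy of the group.
-/

namespace Pool.Agent.Lib.MP_5290c5_lc

open Pool.Agent.Shared.Oracle Encodable Nat.Partrec

attribute [local irreducible] Computable

theorem SigIn.lift {α : Type} [Primcodable α] {X : ℕ → Bool} {b : ℕ} {p : α → Prop}
    (h : SigIn (H X b) p) : ∃ Q : α × ℕ → (ℕ → Bool) → Prop, Sig Q ∧
      ∀ x c, InO c → KLe b c → (Q (x, c) (H X c) ↔ p x) := by
  obtain ⟨P, hP, e⟩ := h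
  obtain ⟨Q, hQ, eQ⟩ := hP.lift
  exact ⟨_, hQ.comp (f := fun y : α × ℕ => (y.1, b, y.2)) (by fun_prop),
    fun x c h1 h2 => (eQ x b c X h1 h2).trans (e x).symm⟩

theorem up_iff {X : ℕ → Bool} {b c v : ℕ} {i : Bool} (hb : InO b) (h : KLe c b) :
    (∃ m, Up c v b m ∧ H X b m = i) ↔ H X c v = i :=
  ⟨fun ⟨_, h1, h2⟩ => ((h1.spec hb).2 X).trans h2, fun h1 =>
    let ⟨m, hm⟩ := h.up hb v
    ⟨m, hm, ((hm.spec hb).2 X).symm.trans h1⟩⟩

theorem inO_two : InO 2 := KLt.one.right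

theorem inO_four : InO 4 := inO_two.succ

theorem H_two (X : ℕ → Bool) : H X 2 = jump X := (H_succ X (Or.inl rfl)).trans (by simp)

theorem H_four (X : ℕ → Bool) : H X 4 = jump (jump X) :=
  (H_succ X inO_two).trans (by rw [H_two])

theorem sigIn_add {G : Type} [AddCommGroup G] (ν : G ≃ ℕ) :
    SigIn (diagram ν) fun x : ℕ × ℕ × ℕ => ν.symm x.1 + ν.symm x.2.1 = ν.symm x.2.2 :=
  ((Sig.orc (f := fun x : ℕ × ℕ × ℕ => Nat.pair x.1 (Nat.pair x.2.1 x.2.2)) (by fun_prop)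
    (Computable.const true)).sigIn _).congr fun x => by simp [diagram]

theorem sigIn_mul {G : Type} [AddCommGroup G] (ν : G ≃ ℕ) :
    SigIn (diagram ν) fun x : ℕ × ℕ × ℕ => x.1 • ν.symm x.2.1 = ν.symm x.2.2 := by
  refine SigIn.congr (p := fun x : ℕ × ℕ × ℕ => ∃ l : List ℕ, l.getD 0 0 = ν 0 ∧
    l.getD x.1 0 = x.2.2 ∧ ∀ k < x.1,
      ν.symm (l.getD k 0) + ν.symm x.2.1 = ν.symm (l.getD (k + 1) 0))
    (SigIn.ex (SigIn.and (SigIn.dec (by fun_prop)) (SigIn.and (SigIn.dec (by fun_prop))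
      (SigIn.ball (by fun_prop) ((sigIn_add ν).comp (f := fun y : ((ℕ × ℕ × ℕ) × List ℕ) × ℕ =>
        (y.1.2.getD y.2 0, y.1.1.2.1, y.1.2.getD (y.2 + 1) 0)) (by fun_prop)))))) ?_
  rintro ⟨N, i, j⟩
  constructor
  · rintro ⟨l, h1, h2, h3⟩
    have h4 : ∀ k ≤ N, k • ν.symm i = ν.symm (l.getD k 0) := by
      intro k hk
      induction k with
      | zero => rw [h1]; simp
      | succ k ih => rw [succ_nsmul, ih (by omega), h3 k hk]
    exact h2 ▸ h4 N le_rfl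
  · intro h
    have h1 : ∀ k ≤ N, ((List.range (N + 1)).map fun k => ν (k • ν.symm i)).getD k 0 =
        ν (k • ν.symm i) := fun k hk => by simp [Nat.lt_succ_of_le hk]
    refine ⟨_, (h1 0 (by omega)).trans (by simp), (h1 N le_rfl).trans (by simp_all),
      fun k hk => ?_⟩
    rw [h1 k hk.le, h1 _ hk]
    simp [succ_nsmul]

theorem decode {V : ℕ → Set ℕ} {β : ℕ → ℕ → ℕ} {real : List En → Prop} {ty : List En → Ty} {a : ℕ}
    (h : Hom V β real ty) (ha : InO a) (hβ : ∀ n m, IsB (β n m) ∧ KLe (β n m) a)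
    (hβ' : Computable fun p : ℕ × ℕ => β p.1 p.2) (hV : ∀ n, ∃ w, w ∉ V n) (ν : TG real ≃ ℕ) :
    ∃ U : ℕ → Set ℕ, (∀ n, (U n).Finite ∧ ¬ U n ⊆ V n) ∧ ∃ Q : ℕ × ℕ → (ℕ → Bool) → Prop, Sig Q ∧
      ∀ n m, Q (n, m) (H (diagram ν) (2 ^ β n m)) ↔ m ∉ U n := by
  classical
  set Y := diagram ν
  let el : ℕ → List En →₀ ℚ := fun i => ν.symm i
  have hel : ∀ g ∈ TG real, ∃ i, el i = g := fun g hg => ⟨ν ⟨g, hg⟩, by simp [el]⟩
  have r2 : Red Y (H Y 2) := by simpa using red_H Y inO_two inO_two.one_le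
  have r4 : Red (H Y 2) (H Y 4) := red_H Y inO_four inO_two.lt_succ.le
  have add : SigIn Y fun x : ℕ × ℕ × ℕ => el x.1 + el x.2.1 = el x.2.2 :=
    (sigIn_add ν).congr fun x => Subtype.ext_iff
  have mul : SigIn Y fun x : ℕ × ℕ × ℕ => x.1 • el x.2.1 = el x.2.2 :=
    (sigIn_mul ν).congr fun x => Subtype.ext_iff
  have ndv : SigIn (H Y 2) fun x : ℕ × ℕ => ¬ Dv (TG real) x.1 (el x.2) := by
    rw [H_two]
    refine (SigIn.ex (p := fun (x : ℕ × ℕ) k => ¬ ∃ j, x.1 ^ k • el j = el x.2)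
      (SigIn.ex (p := fun (x : (ℕ × ℕ) × ℕ) j => x.1.1 ^ x.2 • el j = el x.1.2)
        (mul.comp (f := fun y : ((ℕ × ℕ) × ℕ) × ℕ => (y.1.1.1 ^ y.1.2, y.2, y.1.1.2))
          (by fun_prop))).neg_jump).congr fun x => ?_
    rw [Dv, not_forall]
    refine exists_congr fun k => not_congr ⟨fun ⟨j, hj⟩ => ⟨_, (ν.symm j).2, hj⟩, ?_⟩
    rintro ⟨g, h1, h2⟩
    obtain ⟨j, rfl⟩ := hel g h1
    exact ⟨j, h2⟩
  have dv : SigIn (H Y 4) fun x : ℕ × ℕ => Dv (TG real) x.1 (el x.2) := by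
    rw [H_four, ← H_two Y]
    exact ndv.neg_jump.congr fun x => not_not
  have lk : SigIn (H Y 4) fun x : ℕ × ℕ × ℕ × ℕ =>
      Dv (TG real) (fp true x.1) (x.2.1 • el x.2.2.1 + el x.2.2.2) := by
    refine (SigIn.ex (p := fun (x : ℕ × ℕ × ℕ × ℕ) (y : ℕ × ℕ) => x.2.1 • el x.2.2.1 = el y.1 ∧
      el y.1 + el x.2.2.2 = el y.2 ∧ Dv (TG real) (fp true x.1) (el y.2))
      (SigIn.and (((mul.red r2).red r4).comp (f := fun z : (ℕ × ℕ × ℕ × ℕ) × ℕ × ℕ =>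
        (z.1.2.1, z.1.2.2.1, z.2.1)) (by fun_prop)) (SigIn.and (((add.red r2).red r4).comp
        (f := fun z : (ℕ × ℕ × ℕ × ℕ) × ℕ × ℕ => (z.2.1, z.1.2.2.2, z.2.2)) (by fun_prop))
        (dv.comp (f := fun z : (ℕ × ℕ × ℕ × ℕ) × ℕ × ℕ => (fp true z.1.1, z.2.2))
          (by unfold fp; fun_prop))))).congr fun x => ⟨?_, fun h => ?_⟩
    · rintro ⟨y, h1, h2, h3⟩
      rwa [h1, h2]
    · obtain ⟨k, hk⟩ := hel _ ((TG real).nsmul_mem (ν.symm x.2.2.1).2 x.2.1)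
      obtain ⟨l, hl⟩ := hel _ h.mem
      exact ⟨(k, l), hk.symm, by rw [hk, hl], hl ▸ h⟩
  have hex : ∀ n, ∃ i, i ≠ ν 0 ∧ Dv (TG real) (fp false (Nat.pair 1 n)) (el i) := by
    intro n
    obtain ⟨w, hw⟩ := hV n
    obtain ⟨g, h1, h2⟩ := h.exists_root hw
    obtain ⟨i, rfl⟩ := hel g h2.mem
    exact ⟨i, fun e => h1 (by simp [el, e]), h2⟩
  have xn : SigIn (H Y 4) fun x : ℕ × ℕ => x.2 = Nat.find (hex x.1) := by
    refine (SigIn.and (p := fun x : ℕ × ℕ => x.2 ≠ ν 0 ∧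
      Dv (TG real) (fp false (Nat.pair 1 x.1)) (el x.2)) (q := fun x : ℕ × ℕ => ∀ j < x.2,
        j = ν 0 ∨ ¬ Dv (TG real) (fp false (Nat.pair 1 x.1)) (el j))
      (SigIn.and (SigIn.dec (by fun_prop)) (dv.comp (f := fun x : ℕ × ℕ =>
        (fp false (Nat.pair 1 x.1), x.2)) (by unfold fp; fun_prop)))
      (SigIn.ball (by fun_prop) (SigIn.or (SigIn.dec (by fun_prop)) ((ndv.red r4).comp
        (f := fun x : (ℕ × ℕ) × ℕ => (fp false (Nat.pair 1 x.1.1), x.2))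
        (by unfold fp; fun_prop))))).congr fun x => ?_
    rw [eq_comm, Nat.find_eq_iff]
    simp only [not_and_or, not_not]
  obtain ⟨ND, hND, eND⟩ := ndv.lift
  obtain ⟨DV, hDV, eDV⟩ := dv.lift
  obtain ⟨LK, hLK, eLK⟩ := lk.lift
  obtain ⟨XN, hXN, eXN⟩ := xn.lift
  have h1 : Sig fun (x : Code × ℕ × ℕ × ℕ × ℕ) A =>
      ND ((fp false (Nat.pair x.2.2.1 x.2.2.2.1), x.2.2.2.2), x.2.1) A ∨
      ∃ c j v, IsB c ∧ Le (2 ^ 2 ^ c) x.2.1 ∧
        v ∈ x.1.eval (encode (c, (j : ℕ), x.2.2.1, x.2.2.2.1, x.2.2.2.2)) ∧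
        ∃ w, Up (2 ^ 2 ^ c) v x.2.1 w ∧ A w = false := by
    unfold fp
    repeat' first
      | apply Sig.or | apply Sig.and | (apply Sig.le <;> fun_prop) | apply Sig.ex
      | (apply hND.comp; fun_prop) | (apply Sig.orc <;> fun_prop) | (apply Sig.isB; fun_prop)
      | (apply Sig.mem_eval <;> fun_prop) | (apply Sig.up <;> fun_prop)
  obtain ⟨s, hs, es⟩ := h1.index
  have h2 : Sig fun (x : Code × ℕ × ℕ × ℕ × ℕ × ℕ) A =>
      (x.2.2.1 = 0 ∧ A (s (x.1, x.2.1, x.2.2.2)) = false) ∨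
      ∃ j N i v, x.2.2.1 = j + 1 ∧
        DV ((fp false (Nat.pair x.2.2.2.1 x.2.2.2.2.1), x.2.2.2.2.2), 2 ^ x.2.1) A ∧ N ≠ 0 ∧
        v ∈ x.1.eval (encode (x.2.1, j, x.2.2.2.1 + 1, 0, i)) ∧ jump A v = true ∧
        LK ((Nat.pair (x.2.2.2.1 + 1) 0, N, x.2.2.2.2.2, i), 2 ^ x.2.1) A := by
    unfold fp
    repeat' first
      | apply Sig.or | apply Sig.and | apply Sig.ex
      | (apply hDV.comp; fun_prop) | (apply hLK.comp; fun_prop) | (apply Sig.jmp; fun_prop)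
      | (apply Sig.orc <;> fun_prop) | (apply Sig.mem_eval <;> fun_prop) | (apply Sig.dec; fun_prop)
  obtain ⟨t, k, ht, hk, et⟩ := h2.recursion
  simp only [hk, Prod.forall] at et
  have h4 : ∀ c, IsB c → InO c → KLe 4 (2 ^ c) := fun c h1 h2 => (h1.kle h2).succ h2
  have h3 : ∀ w : ℕ × ℕ, IsB w.1 → KLe w.1 a → ∀ d m i, 2 ≤ d →
      (jump (H Y (2 ^ w.1)) (t (w.1, w.2, d, m, i)) = true ↔ PR real ty w d m (el i)) := by
    intro w
    induction w using wlt_wf.induction with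
    | _ w ih =>
      obtain ⟨c, j⟩ := w
      intro hc hc' d m i hd
      have hc'' := hc'.left ha
      rw [et]
      cases j with
      | zero =>
        rw [h.pr_zero hβ hc hc' hd]
        simp only [true_and, Nat.zero_ne_add_one, false_and, exists_false, or_false]
        rw [H_succ _ hc'', ← Bool.not_eq_true, es]
        simp only [hk, exists_and_left, exists_eq_left]
        simp only [eND _ _ hc'' (hc.kle hc''), not_or, not_not, not_exists, not_and, le_iff hc'']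
        rw [show ∀ (P Q : ℕ → Prop) (R : ℕ → ℕ → Prop), (∀ c, P c → Q c → ∀ j, R c j) ↔
          ∀ c j, P c → Q c → R c j from
          fun P Q R => ⟨fun h c j a b => h c a b j, fun h c a b j => h c j a b⟩]
        refine and_congr_right fun _ => forall₂_congr fun c' j => imp_congr_right fun h5 => ?_
        have h6 : KLe (2 ^ 2 ^ c') c ↔ KLt c' c := by
          refine ⟨fun h6 => ?_, h5.ss_le hc⟩
          have := h5.two_le
          exact (((h6.left hc'').pred (by positivity)).pred (by omega)).lt_ss.trans_le h6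
        rw [h6]
        refine imp_congr_right fun h7 => ?_
        rw [← ih (c', j) (Or.inl ⟨h5, h7⟩) h5 (h7.le.trans hc') d m i hd, ← H_succ _ h7.left.succ,
          ← Bool.not_eq_false, ← up_iff hc'' (h6.2 h7)]
        simp
      | succ j =>
        rw [h.pr_succ hβ hd]
        simp only [Nat.add_one_ne_zero, false_and, false_or, Nat.add_right_cancel_iff,
          eDV _ _ hc''.succ (h4 c hc hc''), eLK _ _ hc''.succ (h4 c hc hc'')]
        constructor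
        · rintro ⟨_, N, i', _, rfl, a1, a2, rfl, a3, a4⟩
          exact ⟨a1, N, _, a2, (ih (c, j) (wlt_succ _) hc hc' _ _ _ (by omega)).1 a3, a4⟩
        · rintro ⟨a1, N, g, a2, a3, a4⟩
          obtain ⟨i', rfl⟩ := hel g a3.1.mem
          exact ⟨_, N, i', _, rfl, a1, a2, rfl,
            (ih (c, j) (wlt_succ _) hc hc' _ _ _ (by omega)).2 a3, a4⟩
  have h5 : ∀ n, el (Nat.find (hex n)) ≠ 0 := fun n e =>
    (Nat.find_spec (hex n)).1 (by simpa [el, Equiv.symm_apply_eq] using e)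
  choose U U1 U2 U3 using fun n => h.decode hβ (h5 n) (Nat.find_spec (hex n)).2
  refine ⟨U, fun n => ⟨U1 n, U2 n⟩, fun x A => ∃ i N i', XN ((x.1, i), 2 ^ β x.1 x.2) A ∧ N ≠ 0 ∧
    jump A (t (β x.1 x.2, 0, 2, x.2, i')) = true ∧
    LK ((Nat.pair 2 x.2, N, i, i'), 2 ^ β x.1 x.2) A, ?_, fun n m => ?_⟩
  · repeat' first
      | apply Sig.and | apply Sig.ex
      | (apply hXN.comp; fun_prop) | (apply hLK.comp; fun_prop) | (apply Sig.jmp; fun_prop)
      | (apply Sig.dec; fun_prop)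
  · have hc := (hβ n m).2.left ha
    simp only [U3, eXN _ _ hc.succ (h4 _ (hβ n m).1 hc), eLK _ _ hc.succ (h4 _ (hβ n m).1 hc),
      h3 (β n m, 0) (hβ n m).1 (hβ n m).2 2 m _ le_rfl]
    constructor
    · rintro ⟨_, N, i', a0, a1⟩
      exact ⟨N, _, a0 ▸ a1⟩
    · rintro ⟨N, g, a2, a3, a4⟩
      obtain ⟨i', rfl⟩ := hel g a3.1.mem
      exact ⟨_, N, i', rfl, a2, a3, a4⟩

end Pool.Agent.Lib.MP_5290c5_lc
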