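import Mathlib

namespace Pool.Agent.Lib.MP_5290c5_lc

open Nat.Partrec Encodable

/-- The `e`-th recursive function, possibly undefined at some arguments. -/
def phi (e : ℕ) : ℕ →. ℕ := Code.eval (Denumerable.ofNat Code e)

/-- A set of natural numbers as a zero-one valued function, for use as an oracle. -/
def chi (X : ℕ → Bool) : ℕ →. ℕ := fun n => Part.some (X n).toNat

/-- The Turing degree of a set of natural numbers. -/
def degree (X : ℕ → Bool) : TuringDegree := toAntisymmetrization TuringReducible (chi X)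

open Classical in
/-- The Turing jump: the `e` such that `phi e` halts on some initial segment of `X`. -/
noncomputable def jump (X : ℕ → Bool) : ℕ → Bool :=
  fun e => decide (∃ k, (phi e (encode ((List.range k).map X))).Dom)

/-- Kleene's ordering of ordinal notations. -/
inductive KLt : ℕ → ℕ → Prop
  | one : KLt 1 2
  | succ {a b : ℕ} : KLt a b → KLt b (2 ^ b)
  | lim {e : ℕ} {f : ℕ → ℕ} : (∀ n, f n ∈ phi e n) → (∀ n, KLt (f n) (f (n + 1))) →
      ∀ n, KLt (f n) (3 * 5 ^ e)
  | trans {a b c : ℕ} : KLt a b → KLt b c → KLt a c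

/-- `a` is a notation in Kleene's system for the ordinal `α`. -/
inductive Denotes : ℕ → Ordinal.{0} → Prop
  | one : Denotes 1 0
  | succ {a : ℕ} {α : Ordinal.{0}} : Denotes a α → Denotes (2 ^ a) (α + 1)
  | lim {e : ℕ} {f : ℕ → ℕ} {g : ℕ → Ordinal.{0}} : (∀ n, f n ∈ phi e n) →
      (∀ n, KLt (f n) (f (n + 1))) → (∀ n, Denotes (f n) (g n)) → Denotes (3 * 5 ^ e) (⨆ n, g n)

/-- `A` is the jump of `X` iterated along the ordinal notation `a`. -/
inductive IsH (X : ℕ → Bool) : ℕ → (ℕ → Bool) → Prop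
  | one : IsH X 1 X
  | succ {a : ℕ} {A : ℕ → Bool} : IsH X a A → IsH X (2 ^ a) (jump A)
  | lim {e : ℕ} {f : ℕ → ℕ} {A : ℕ → ℕ → Bool} : (∀ n, f n ∈ phi e n) →
      (∀ n, IsH X (f n) (A n)) → IsH X (3 * 5 ^ e) fun m => A m.unpair.1 m.unpair.2

open Classical in
/-- The graph of addition of the copy of `G` on the natural numbers given by `ν`. -/
noncomputable def diagram {G : Type} [AddCommGroup G] (ν : G ≃ ℕ) : ℕ → Bool := fun m =>
  decide (ν.symm m.unpair.1 + ν.symm m.unpair.2.unpair.1 = ν.symm m.unpair.2.unpair.2)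

/-- The degree spectrum of `G`. -/
def DgSp (G : Type) [AddCommGroup G] : Set TuringDegree := {d | ∃ ν : G ≃ ℕ, d = degree (diagram ν)}

/-- The degrees of the jumps, iterated along `a`, of the degrees in the spectrum of `G`. -/
def JumpSp (G : Type) [AddCommGroup G] (a : ℕ) : Set TuringDegree :=
  {d | ∃ X A, degree X ∈ DgSp G ∧ IsH X a A ∧ d = degree A}

end Pool.Agent.Lib.MP_5290c5_lc
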