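import Mathlib

/-!
Torsion-free abelian groups attached to coloured forests.
-/

namespace Pool.Agent.Lib.MP_5290c5_lc

open Finsupp

/-- Pairwise coprime numbers attached to vertex colours and edge colours. -/
def fp (b : Bool) (c : ℕ) : ℕ := 2 ^ 2 ^ (2 * c + b.toNat) + 1

theorem fp_coprime {b b' : Bool} {c c' : ℕ} (h : ¬ (b = b' ∧ c = c')) :
    (fp b c).Coprime (fp b' c') := by
  refine Nat.coprime_fermatNumber_fermatNumber (m := 2 * c + b.toNat) (n := 2 * c' + b'.toNat) ?_
  cases b <;> cases b' <;> simp at h ⊢ <;> omega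

theorem one_lt_fp (b : Bool) (c : ℕ) : 1 < fp b c := Nat.succ_lt_succ (by positivity)

theorem fp_ne (b : Bool) (c : ℕ) : (fp b c : ℚ) ≠ 0 := by
  have := one_lt_fp b c
  exact Nat.cast_ne_zero.2 (by omega)

variable {N N' : Type} (par : N → N) (col : N → ℕ)

/-- A vertex, or a vertex plus its parent. -/
noncomputable def vec (ν : N) (b : Bool) : N →₀ ℚ := single ν 1 + cond b (single (par ν) 1) 0

/-- The generators. -/
noncomputable def gen (x : N × Bool × ℕ) : N →₀ ℚ :=
  ((fp x.2.1 (col x.1) : ℚ) ^ x.2.2)⁻¹ • vec par x.1 x.2.1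

/-- The group generated by the admitted generators. -/
noncomputable def Grp (ok : N × Bool × ℕ → Prop) : AddSubgroup (N →₀ ℚ) :=
  AddSubgroup.closure (gen par col '' {x | ok x})

/-- The admitted generators in normal form. -/
def ok0 (real root : N → Prop) (x : N × Bool × ℕ) : Prop :=
  (real x.1 ∧ (x.2.1 = true → ¬ root x.1)) ∨ (x.2.1 = false ∧ x.2.2 = 0)

variable {par col}

theorem gen_mem {ok : N × Bool × ℕ → Prop} {x : N × Bool × ℕ} (h : ok x) :
    gen par col x ∈ Grp par col ok := AddSubgroup.subset_closure ⟨x, h, rfl⟩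

theorem gen_zero (ν : N) : gen par col (ν, false, 0) = single ν 1 := by simp [gen, vec]

theorem pow_smul_gen (ν : N) (b : Bool) (j k : ℕ) :
    (fp b (col ν) ^ j : ℕ) • gen par col (ν, b, j + k) = gen par col (ν, b, k) := by
  rw [← Nat.cast_smul_eq_nsmul ℚ, gen, gen, smul_smul]
  congr 1
  have := fp_ne b (col ν)
  push_cast
  field_simp
  ring

theorem grp_transport {par' : N' → N'} {col' : N' → ℕ} {ok : N × Bool × ℕ → Prop}
    {ok' : N' × Bool × ℕ → Prop} (e : N ≃ N') (h1 : ∀ x, ok x ↔ ok' (e x.1, x.2))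
    (h2 : ∀ x, ok x → (x.2.2 = 0 ∨ col' (e x.1) = col x.1) ∧
      (x.2.1 = true → par' (e x.1) = e (par x.1))) :
    Nonempty (Grp par col ok ≃+ Grp par' col' ok') := by
  let E : (N →₀ ℚ) ≃ₗ[ℚ] (N' →₀ ℚ) := Finsupp.domLCongr e
  have h3 : ∀ x, ok x → E (gen par col x) = gen par' col' (e x.1, x.2) := by
    rintro ⟨ν, b, k⟩ hx
    obtain ⟨h4, h5⟩ := h2 _ hx
    have h6 : E (vec par ν b) = vec par' (e ν) b := by
      cases b
      · simp [vec, E]
      · simp only [vec, cond_true, map_add, E, Finsupp.domLCongr_single, h5 rfl]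
    rcases h4 with h4 | h4
    · obtain rfl : k = 0 := h4
      simpa [gen] using h6
    · simp only [gen, map_smul, h6]
      rw [show col' (e ν) = col ν from h4]
  have h4 : (Grp par col ok).map E.toAddEquiv.toAddMonoidHom = Grp par' col' ok' := by
    rw [Grp, AddMonoidHom.map_closure, Grp]
    congr 1
    ext v
    constructor
    · rintro ⟨_, ⟨x, hx, rfl⟩, rfl⟩
      exact ⟨_, (h1 x).1 hx, (h3 x hx).symm⟩
    · rintro ⟨⟨ν, y⟩, hx, rfl⟩
      obtain ⟨ν, rfl⟩ := e.surjective ν
      have hx' := (h1 (ν, y)).2 hx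
      exact ⟨_, ⟨_, hx', rfl⟩, h3 _ hx'⟩
  exact ⟨h4 ▸ AddSubgroup.equivMapOfInjective _ _ E.injective⟩

theorem grp_basechange {real root : N → Prop} (h dep : N → ℕ)
    (hdep : ∀ ν, ¬ root ν → dep (par ν) < dep ν) (hroot : ∀ ν, root ν → real ν)
    (hpar : ∀ ν, real ν → ¬ root ν → real (par ν)) :
    Nonempty (Grp par col (ok0 real root) ≃+
      Grp par col fun x => (x.2.1 = true → ¬ root x.1) ∧ (real x.1 ∨ x.2.2 ≤ h x.1)) := by
  classical
  set G := Grp par col fun x => (x.2.1 = true → ¬ root x.1) ∧ (real x.1 ∨ x.2.2 ≤ h x.1)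
  have hab : ∀ ν, ∃ a b : ℤ, a * (fp false (col ν) ^ h ν : ℕ) + b * (fp true (col ν) ^ h ν : ℕ) = 1 :=
    fun ν => Nat.isCoprime_iff_coprime.2 (Nat.Coprime.pow _ _ (fp_coprime (by simp)))
  choose a b hab using hab
  let w : N → N →₀ ℚ := fun ν => if real ν then single ν 1 else
    a ν • gen par col (ν, true, h ν) + b ν • gen par col (ν, false, h ν)
  have hab' : ∀ ν, (a ν : ℚ) * (fp false (col ν) : ℚ) ^ h ν + b ν * (fp true (col ν) : ℚ) ^ h ν = 1 :=
    fun ν => by exact_mod_cast hab ν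
  have hw : ∀ ν, ¬ real ν → w ν =
      single ν (((fp false (col ν) : ℚ) ^ h ν * (fp true (col ν) : ℚ) ^ h ν)⁻¹) +
        single (par ν) (a ν * ((fp true (col ν) : ℚ) ^ h ν)⁻¹) := by
    intro ν hν
    have h1 := fp_ne false (col ν)
    have h2 := fp_ne true (col ν)
    simp only [w, if_neg hν, gen, vec, cond_true, cond_false, add_zero, smul_add, smul_single,
      smul_eq_mul, mul_one, zsmul_eq_mul]
    rw [add_right_comm, ← single_add]
    congr 2
    field_simp
    linear_combination hab' ν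
  let E : (N →₀ ℚ) →ₗ[ℚ] (N →₀ ℚ) := linearCombination ℚ w
  have hE : ∀ ν, E (single ν 1) = w ν := fun ν => by simp [E]
  have hE' : ∀ ν, real ν → E (single ν 1) = single ν 1 := fun ν hν => by simp [hE, w, hν]
  have hinj : Function.Injective E := by
    rw [injective_iff_map_eq_zero]
    intro f hf
    by_contra hne
    obtain ⟨ν, h1, h2⟩ := f.support.exists_max_image dep (support_nonempty_iff.2 hne)
    have h3 : E f ν = f ν * w ν ν := by
      simp only [E, linearCombination_apply, Finsupp.sum, finsetSum_apply, Finsupp.smul_apply,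
        smul_eq_mul]
      refine Finset.sum_eq_single_of_mem ν h1 fun σ h3 h4 => mul_eq_zero_of_right _ ?_
      by_cases h5 : real σ
      · simp [w, h5, h4]
      · have h6 : par σ ≠ ν := fun e => by
          have := hdep σ fun h => h5 (hroot σ h)
          have := h2 σ h3
          rw [e] at *
          omega
        simp [hw σ h5, h4, h6]
    rw [hf, Finsupp.zero_apply] at h3
    refine (mul_ne_zero (mem_support_iff.1 h1) ?_) h3.symm
    by_cases h5 : real ν
    · simp [w, h5]
    · have h6 : par ν ≠ ν := fun e => by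
        have := hdep ν fun h => h5 (hroot ν h)
        rw [e] at this
        omega
      have h1 := fp_ne false (col ν)
      have h2 := fp_ne true (col ν)
      simp [hw ν h5, h6, h1, h2]
  have hgen : ∀ x : N × Bool × ℕ, real x.1 → (x.2.1 = true → ¬ root x.1) →
      E (gen par col x) = gen par col x := by
    rintro ⟨ν, c, k⟩ h1 h2
    cases c
    · simp only [gen, vec, cond_false, add_zero, map_smul, hE' ν h1]
    · simp only [gen, vec, cond_true, map_smul, map_add, hE' ν h1, hE' _ (hpar ν h1 (h2 rfl))]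
  set G' := (Grp par col (ok0 real root)).map E.toAddMonoidHom with hG'
  have hw' : ∀ ν, w ν ∈ G' := fun ν =>
    ⟨_, gen_mem (x := (ν, false, 0)) (Or.inr ⟨rfl, rfl⟩), by rw [gen_zero]; exact hE ν⟩
  have hy : ∀ ν, ¬ real ν → gen par col (ν, false, h ν) =
      (fp true (col ν) ^ h ν : ℕ) • w ν - a ν • single (par ν) 1 := by
    intro ν hν
    have h1 := fp_ne false (col ν)
    have h2 := fp_ne true (col ν)
    simp only [hw ν hν, gen, vec, cond_false, add_zero, smul_add, smul_single, smul_eq_mul,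
      mul_one, zsmul_eq_mul, nsmul_eq_mul]
    rw [add_sub_assoc, ← single_sub]
    push_cast
    rw [show (fp true (col ν) : ℚ) ^ h ν * (a ν * ((fp true (col ν) : ℚ) ^ h ν)⁻¹) - a ν = 0 by
      field_simp; ring, single_zero, add_zero]
    congr 1
    field_simp
  have hz : ∀ ν, ¬ real ν → gen par col (ν, true, h ν) =
      (fp false (col ν) ^ h ν : ℕ) • w ν + b ν • single (par ν) 1 := by
    intro ν hν
    have h1 := fp_ne false (col ν)
    have h2 := fp_ne true (col ν)
    simp only [hw ν hν, gen, vec, cond_true, smul_add, smul_single, smul_eq_mul,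
      mul_one, zsmul_eq_mul, nsmul_eq_mul]
    rw [add_assoc, ← single_add]
    push_cast
    congr 2
    · field_simp
    · field_simp
      linear_combination -hab' ν
  have hx : ∀ ν, single ν (1 : ℚ) ∈ G' := by
    intro ν
    induction hd : dep ν using Nat.strong_induction_on generalizing ν with
    | _ d ih =>
      by_cases hν : real ν
      · simpa [w, hν] using hw' ν
      · have h1 := ih _ (hd ▸ hdep ν fun h => hν (hroot ν h)) (par ν) rfl
        rw [← gen_zero (par := par) (col := col), ← pow_smul_gen ν false (h ν) 0, add_zero, hy ν hν]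
        exact G'.nsmul_mem (G'.sub_mem (G'.nsmul_mem (hw' ν) _) (G'.zsmul_mem h1 _)) _
  have h4 : G' = G := by
    apply le_antisymm
    · rw [hG', AddSubgroup.map_le_iff_le_comap, Grp, AddSubgroup.closure_le]
      rintro _ ⟨⟨ν, c, k⟩, hx, rfl⟩
      change E _ ∈ G
      by_cases hν : real ν
      · have h1 : c = true → ¬ root ν := hx.elim (fun h => h.2) fun h h' => by simp_all
        rw [hgen _ hν h1]
        exact gen_mem ⟨h1, Or.inl hν⟩
      · obtain ⟨rfl, rfl⟩ : c = false ∧ k = 0 := hx.resolve_left fun h => hν h.1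
        rw [gen_zero, hE]
        simp only [w, if_neg hν]
        exact G.add_mem (G.zsmul_mem (gen_mem ⟨fun _ h => hν (hroot ν h), Or.inr le_rfl⟩) _)
          (G.zsmul_mem (gen_mem ⟨by simp, Or.inr le_rfl⟩) _)
    · refine (AddSubgroup.closure_le _).2 ?_
      rintro _ ⟨⟨ν, c, k⟩, ⟨h1, h2⟩, rfl⟩
      by_cases hν : real ν
      · exact ⟨_, gen_mem (Or.inl ⟨hν, h1⟩), hgen _ hν h1⟩
      · obtain ⟨j, hj⟩ := Nat.exists_eq_add_of_le' (h2.resolve_left hν)
        rw [← pow_smul_gen ν c j k, ← show h ν = j + k from hj]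
        refine G'.nsmul_mem ?_ _
        cases c
        · rw [hy ν hν]
          exact G'.sub_mem (G'.nsmul_mem (hw' ν) _) (G'.zsmul_mem (hx _) _)
        · rw [hz ν hν]
          exact G'.add_mem (G'.nsmul_mem (hw' ν) _) (G'.zsmul_mem (hx _) _)
  exact ⟨h4 ▸ AddSubgroup.equivMapOfInjective _ _ hinj⟩

/-- `g` is divisible in `G` by all powers of `P`. -/
def Dv (G : AddSubgroup (N →₀ ℚ)) (P : ℕ) (g : N →₀ ℚ) : Prop := ∀ k, ∃ g' ∈ G, P ^ k • g' = g

theorem Dv.mem {G : AddSubgroup (N →₀ ℚ)} {P : ℕ} {g : N →₀ ℚ} (h : Dv G P g) : g ∈ G := by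
  obtain ⟨g', h1, h2⟩ := h 0
  simpa [← h2] using h1

theorem dv_sum {G : AddSubgroup (N →₀ ℚ)} {P : ℕ} {ι : Type} (s : Finset ι) (z : ι → ℤ)
    (f : ι → N →₀ ℚ) (h : ∀ i ∈ s, Dv G P (f i)) : Dv G P (∑ i ∈ s, z i • f i) := by
  intro k
  choose! g h1 h2 using fun i hi => h i hi k
  refine ⟨∑ i ∈ s, z i • g i, G.sum_mem fun i hi => G.zsmul_mem (h1 i hi) _, ?_⟩
  rw [Finset.smul_sum]
  exact Finset.sum_congr rfl fun i hi => by rw [smul_comm, h2 i hi]

theorem dv_vec {ok : N × Bool × ℕ → Prop} {ν : N} {b : Bool} (h : ∀ k, ok (ν, b, k)) :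
    Dv (Grp par col ok) (fp b (col ν)) (vec par ν b) := fun k =>
  ⟨_, gen_mem (h (k + 0)), by rw [pow_smul_gen]; simp [gen]⟩

theorem Dv.vanish {ok : N × Bool × ℕ → Prop} {b : Bool} {c : ℕ} {g : N →₀ ℚ}
    (h : Dv (Grp par col ok) (fp b c) g) (u : N → N →₀ ℚ) (hu : ∀ ν σ, ∃ z : ℤ, u ν σ = z)
    (hz : ∀ x, ok x → x.2.1 = b → col x.1 = c → x.2.2 = 0 ∨
      linearCombination ℚ u (vec par x.1 b) = 0) : linearCombination ℚ u g = 0 := by
  set T := linearCombination ℚ u
  set p := (fp b c).minFac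
  have hp : Fact p.Prime := ⟨Nat.minFac_prime (one_lt_fp b c).ne'⟩
  have h1 : ∀ ν c σ, padicNorm p (T (vec par ν c) σ) ≤ 1 := by
    intro ν c σ
    obtain ⟨z, hz⟩ := hu ν σ
    obtain ⟨z', hz'⟩ := hu (par ν) σ
    cases c
    · simpa [T, vec, hz] using padicNorm.of_int z
    · simpa [T, vec, hz, hz'] using padicNorm.of_int (p := p) (z + z')
  have h2 : ∀ g ∈ Grp par col ok, ∀ σ, padicNorm p (T g σ) ≤ 1 := by
    intro g hg σ
    induction hg using AddSubgroup.closure_induction with
    | mem x hx =>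
      obtain ⟨⟨ν, c', k⟩, hx, rfl⟩ := hx
      simp only [gen, map_smul, Finsupp.smul_apply, smul_eq_mul]
      by_cases h3 : c' = b ∧ col ν = c
      · rcases hz _ hx h3.1 h3.2 with h4 | h4
        · obtain rfl : k = 0 := h4
          simpa using h1 ν c' σ
        · rw [h3.1, show T (vec par ν b) = 0 from h4]
          simp
      · have h4 : padicNorm p ((fp c' (col ν) ^ k : ℕ) : ℚ) = 1 := by
          rw [padicNorm.nat_eq_one_iff]
          intro h5
          have h6 := hp.out.dvd_of_dvd_pow h5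
          exact hp.out.one_lt.ne' (Nat.eq_one_of_dvd_coprimes (fp_coprime h3) h6 (Nat.minFac_dvd _))
        rw [← div_eq_inv_mul, padicNorm.div, ← Nat.cast_pow, h4, div_one]
        exact h1 _ _ _
    | zero => simp
    | add x y _ _ hx hy =>
      rw [map_add, Finsupp.add_apply]
      exact padicNorm.nonarchimedean.trans (max_le hx hy)
    | neg x _ hx => simpa using hx
  ext σ
  by_contra hne
  have h3 : padicNorm p (fp b c : ℕ) < 1 := (padicNorm.nat_lt_one_iff _).2 (Nat.minFac_dvd _)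
  have h4 : 0 < padicNorm p (T g σ) :=
    lt_of_le_of_ne (padicNorm.nonneg _) (padicNorm.nonzero hne).symm
  obtain ⟨k, hk⟩ := exists_pow_lt_of_lt_one h4 h3
  obtain ⟨g', h5, h6⟩ := h k
  have h7 : ∀ k, padicNorm p ((fp b c : ℚ) ^ k) = padicNorm p (fp b c : ℕ) ^ k := by
    intro k
    induction k with
    | zero => simp
    | succ k ih => rw [pow_succ, padicNorm.mul, ih, pow_succ]
  have h8 : T g σ = (fp b c : ℚ) ^ k * T g' σ := by
    rw [← h6, map_nsmul, Finsupp.smul_apply, nsmul_eq_mul, Nat.cast_pow]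
  rw [h8, padicNorm.mul, h7] at hk
  exact absurd hk (not_lt.2 (mul_le_of_le_one_right (pow_nonneg (padicNorm.nonneg _) _)
    (h2 _ h5 σ)))

end Pool.Agent.Lib.MP_5290c5_lc
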