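import Pool.Agent.Lib.MP_5290c5_lc.Sig

/-!
Kleene's notations, the iterated jumps as a function, and uniform reductions between levels.
-/

namespace Pool.Agent.Lib.MP_5290c5_lc

open Pool.Agent.Shared.Oracle Encodable Nat.Partrec

attribute [local irreducible] Computable

/-- Notations. -/
def InO (a : ℕ) : Prop := a = 1 ∨ ∃ b, KLt b a

/-- The reflexive ordering. -/
def KLe (a b : ℕ) : Prop := a = b ∨ KLt a b

/-- Fundamental sequences. -/
def Fund (e : ℕ) (f : ℕ → ℕ) : Prop := (∀ n, f n ∈ phi e n) ∧ ∀ n, KLt (f n) (f (n + 1))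

theorem pow_ne_lim (a e : ℕ) : 2 ^ a ≠ 3 * 5 ^ e := by
  intro h
  have h1 : 3 ∣ 2 ^ a := h ▸ Dvd.intro _ rfl
  have := Nat.prime_three.dvd_of_dvd_pow h1
  omega

theorem one_ne_lim (e : ℕ) : 1 ≠ 3 * 5 ^ e := pow_ne_lim 0 e

theorem pow_inj {a b : ℕ} (h : 2 ^ a = 2 ^ b) : a = b := Nat.pow_right_injective le_rfl h

theorem lim_inj {a b : ℕ} (h : 3 * 5 ^ a = 3 * 5 ^ b) : a = b :=
  Nat.pow_right_injective (a := 5) (by omega) (Nat.eq_of_mul_eq_mul_left (by omega) h)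

theorem KLt.right {a b : ℕ} (h : KLt a b) : InO b := Or.inr ⟨a, h⟩

theorem KLt.left {a b : ℕ} (h : KLt a b) : InO a := by
  induction h with
  | one => exact Or.inl rfl
  | succ h _ => exact h.right
  | lim _ _ n ih => exact ih n
  | trans _ _ ih _ => exact ih

theorem KLe.rfl {a : ℕ} : KLe a a := Or.inl (Eq.refl a)

theorem KLt.le {a b : ℕ} (h : KLt a b) : KLe a b := Or.inr h

theorem KLe.trans_lt {a b c : ℕ} (h : KLe a b) (h' : KLt b c) : KLt a c :=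
  h.elim (fun e => e ▸ h') fun h => h.trans h'

theorem KLt.trans_le {a b c : ℕ} (h : KLt a b) (h' : KLe b c) : KLt a c :=
  h'.elim (fun e => e ▸ h) fun h' => h.trans h'

theorem KLe.trans {a b c : ℕ} (h : KLe a b) (h' : KLe b c) : KLe a c :=
  h'.elim (fun e => e ▸ h) fun h' => (h.trans_lt h').le

theorem KLe.left {a b : ℕ} (h : KLe a b) (hb : InO b) : InO a := h.elim (fun e => e ▸ hb) KLt.left

theorem KLe.right {a b : ℕ} (h : KLe a b) (ha : InO a) : InO b :=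
  h.elim (fun e => e ▸ ha) KLt.right

theorem KLt.inv {x y : ℕ} (h : KLt x y) : (∃ b, y = 2 ^ b ∧ InO b ∧ KLe x b) ∨
    ∃ e f, y = 3 * 5 ^ e ∧ Fund e f ∧ ∃ n, KLe x (f n) := by
  induction h with
  | one => exact Or.inl ⟨1, rfl, Or.inl rfl, KLe.rfl⟩
  | succ h _ => exact Or.inl ⟨_, rfl, h.right, KLe.rfl⟩
  | lim h1 h2 n _ => exact Or.inr ⟨_, _, rfl, ⟨h1, h2⟩, n, KLe.rfl⟩
  | trans h _ _ ih =>
    rcases ih with ⟨b, h1, h2, h3⟩ | ⟨e, f, h1, h2, n, h3⟩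
    · exact Or.inl ⟨b, h1, h2, (h.trans_le h3).le⟩
    · exact Or.inr ⟨e, f, h1, h2, n, (h.trans_le h3).le⟩

theorem InO.pos {a : ℕ} (h : InO a) : a ≠ 0 := by
  rcases h with rfl | ⟨b, h⟩
  · omega
  · rcases h.inv with ⟨b, rfl, -⟩ | ⟨e, f, rfl, -⟩ <;> positivity

theorem InO.cases {a : ℕ} (h : InO a) :
    a = 1 ∨ (∃ b, a = 2 ^ b ∧ InO b) ∨ ∃ e f, a = 3 * 5 ^ e ∧ Fund e f := by
  rcases h with rfl | ⟨b, h⟩
  · exact Or.inl rfl
  · rcases h.inv with ⟨b, h1, h2, -⟩ | ⟨e, f, h1, h2, -⟩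
    · exact Or.inr (Or.inl ⟨b, h1, h2⟩)
    · exact Or.inr (Or.inr ⟨e, f, h1, h2⟩)

theorem InO.one_ne {b : ℕ} (h : InO b) : 1 ≠ 2 ^ b := fun e => h.pos (pow_inj (a := 0) e).symm

theorem not_lt_one {x : ℕ} : ¬ KLt x 1 := by
  intro h
  rcases h.inv with ⟨b, h1, h2, -⟩ | ⟨e, f, h1, -⟩
  · exact h2.one_ne h1
  · exact one_ne_lim _ h1

theorem KLt.of_succ {x b : ℕ} (h : KLt x (2 ^ b)) : InO b ∧ KLe x b := by
  rcases h.inv with ⟨b', h1, h2, h3⟩ | ⟨e, f, h1, -⟩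
  · obtain rfl := pow_inj h1
    exact ⟨h2, h3⟩
  · exact absurd h1 (pow_ne_lim _ _)

theorem InO.lt_succ {b : ℕ} (h : InO b) : KLt b (2 ^ b) := by
  rcases h with rfl | ⟨a, h⟩
  · exact .one
  · exact h.succ

theorem InO.succ {b : ℕ} (h : InO b) : InO (2 ^ b) := h.lt_succ.right

theorem Fund.unique {e : ℕ} {f g : ℕ → ℕ} (hf : ∀ n, f n ∈ phi e n) (hg : ∀ n, g n ∈ phi e n) :
    f = g := funext fun n => Part.mem_unique (hf n) (hg n)

theorem Fund.eq {e : ℕ} {f : ℕ → ℕ} (hf : Fund e f) {n v : ℕ} : v ∈ phi e n ↔ v = f n :=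
  ⟨fun h => Part.mem_unique h (hf.1 n), fun h => h ▸ hf.1 n⟩

theorem Fund.lt {e : ℕ} {f : ℕ → ℕ} (hf : Fund e f) (n : ℕ) : KLt (f n) (3 * 5 ^ e) :=
  .lim hf.1 hf.2 n

theorem Fund.inO {e : ℕ} {f : ℕ → ℕ} (hf : Fund e f) (n : ℕ) : InO (f n) := (hf.2 n).left

theorem Fund.lim {e : ℕ} {f : ℕ → ℕ} (hf : Fund e f) : InO (3 * 5 ^ e) := (hf.lt 0).right

theorem Fund.mono {e : ℕ} {f : ℕ → ℕ} (hf : Fund e f) {m n : ℕ} (h : m ≤ n) : KLe (f m) (f n) := by
  induction n, h using Nat.le_induction with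
  | base => exact KLe.rfl
  | succ n _ ih => exact ih.trans (hf.2 n).le

theorem Fund.of_lt {e : ℕ} {f : ℕ → ℕ} (hf : Fund e f) {x : ℕ} (h : KLt x (3 * 5 ^ e)) :
    ∃ n, KLe x (f n) := by
  rcases h.inv with ⟨b', h1, -⟩ | ⟨e', f', h1, h2, h3⟩
  · exact absurd h1.symm (pow_ne_lim _ _)
  · obtain rfl := lim_inj h1
    rwa [Fund.unique hf.1 h2.1]

theorem Fund.computable {e : ℕ} {f : ℕ → ℕ} (hf : Fund e f) : Computable f :=
  Partrec.of_eq_tot (Code.eval_part.comp (Computable.const _) Computable.id) hf.1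

theorem klt_wf : WellFounded KLt := by
  have h1 : ∀ {b}, Acc KLt b → Acc KLt (2 ^ b) := fun h =>
    ⟨_, fun x hx => hx.of_succ.2.elim (fun e => e ▸ h) h.inv⟩
  have h2 : ∀ {x y}, KLt x y → Acc KLt x ∧ Acc KLt y := by
    intro x y h
    induction h with
    | one => exact ⟨⟨_, fun x hx => absurd hx not_lt_one⟩,
        h1 (b := 1) ⟨_, fun x hx => absurd hx not_lt_one⟩⟩
    | succ _ ih => exact ⟨ih.2, h1 ih.2⟩
    | lim h3 h4 n ih =>
      refine ⟨(ih n).1, ⟨_, fun x hx => ?_⟩⟩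
      obtain ⟨m, hm⟩ := Fund.of_lt ⟨h3, h4⟩ hx
      exact hm.elim (fun e => e ▸ (ih m).1) (ih m).1.inv
    | trans _ _ ih ih' => exact ⟨ih.1, ih'.2⟩
  exact ⟨fun y => ⟨_, fun x hx => (h2 hx).1⟩⟩

theorem KLt.irrefl {a : ℕ} : ¬ KLt a a := klt_wf.irrefl.irrefl a

theorem InO.ind {P : ℕ → Prop} (h1 : P 1) (hs : ∀ b, InO b → P b → P (2 ^ b))
    (hl : ∀ e f, Fund e f → (∀ n, P (f n)) → P (3 * 5 ^ e)) {a : ℕ} (h : InO a) : P a := by
  induction a using klt_wf.induction with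
  | _ a ih =>
    rcases h.cases with rfl | ⟨b, rfl, hb⟩ | ⟨e, f, rfl, hf⟩
    · exact h1
    · exact hs b hb (ih b hb.lt_succ hb)
    · exact hl e f hf fun n => ih _ (hf.lt n) (hf.inO n)

theorem InO.one_le {a : ℕ} (h : InO a) : KLe 1 a :=
  h.ind KLe.rfl (fun _ hb ih => ih.trans hb.lt_succ.le) fun _ _ hf ih => (ih 0).trans (hf.lt 0).le

theorem KLt.succ_le {x y : ℕ} (h : KLt x y) : KLe (2 ^ x) y := by
  have hy := h.right
  revert h
  refine hy.ind (P := fun y => KLt x y → KLe (2 ^ x) y) (fun h => absurd h not_lt_one)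
    (fun b hb ih h => ?_) fun e f hf ih h => ?_
  · rcases h.of_succ.2 with rfl | h
    · exact KLe.rfl
    · exact (ih h).trans hb.lt_succ.le
  · obtain ⟨n, hn⟩ := hf.of_lt h
    exact (ih _ (hn.trans_lt (hf.2 n))).trans (hf.lt _).le

theorem KLt.succ_lt_lim {x e : ℕ} (h : KLt x (3 * 5 ^ e)) : KLt (2 ^ x) (3 * 5 ^ e) :=
  h.succ_le.resolve_left (pow_ne_lim _ _)

theorem KLe.succ {x y : ℕ} (h : KLe x y) (hy : InO y) : KLe (2 ^ x) (2 ^ y) :=
  (h.trans_lt hy.lt_succ).succ_le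

theorem KLe.total {c x y : ℕ} (hx : KLe x c) (hy : KLe y c) : KLe x y ∨ KLt y x := by
  induction c using klt_wf.induction with
  | _ c ih =>
    rcases hy with rfl | hy
    · exact Or.inl hx
    rcases hx with rfl | hx
    · exact Or.inr hy
    rcases hx.inv with ⟨b, rfl, hb, h1⟩ | ⟨e, f, rfl, hf, n, h1⟩
    · exact ih b hb.lt_succ h1 hy.of_succ.2
    · obtain ⟨m, h2⟩ := hf.of_lt hy
      exact ih _ (hf.lt (n + m)) (h1.trans (hf.mono (by omega))) (h2.trans (hf.mono (by omega)))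

theorem IsH.unique {X : ℕ → Bool} {a : ℕ} {A B : ℕ → Bool} (h : IsH X a A) (h' : IsH X a B) :
    A = B := by
  have hpos : ∀ {a A}, IsH X a A → a ≠ 0 := by
    intro a A h
    cases h <;> positivity
  induction h generalizing B with
  | one =>
    generalize hc : 1 = c at h'
    cases h' with
    | one => rfl
    | succ h => exact absurd (pow_inj (a := 0) hc).symm (hpos h)
    | lim _ _ => exact absurd hc (one_ne_lim _)
  | @succ a A h ih =>
    generalize hc : 2 ^ a = c at h'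
    cases h' with
    | one => exact absurd (pow_inj (b := 0) hc) (hpos h)
    | succ h => obtain rfl := pow_inj hc; rw [ih h]
    | lim _ _ => exact absurd hc (pow_ne_lim _ _)
  | @lim e f A h1 _ ih =>
    generalize hc : 3 * 5 ^ e = c at h'
    cases h' with
    | one => exact absurd hc.symm (one_ne_lim _)
    | succ h => exact absurd hc.symm (pow_ne_lim _ _)
    | lim h2 h3 =>
      obtain rfl := lim_inj hc
      obtain rfl := Fund.unique h1 h2
      rw [funext fun n => ih n (h3 n)]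

open Classical in
/-- The iterated jump as a function. -/
noncomputable def H (X : ℕ → Bool) (a : ℕ) : ℕ → Bool :=
  if h : ∃ A, IsH X a A then h.choose else X

theorem IsH.eq {X : ℕ → Bool} {a : ℕ} {A : ℕ → Bool} (h : IsH X a A) : H X a = A := by
  have h1 : ∃ A, IsH X a A := ⟨A, h⟩
  rw [H, dif_pos h1]
  exact h1.choose_spec.unique h

theorem InO.isH {a : ℕ} (h : InO a) (X : ℕ → Bool) : IsH X a (H X a) := by
  suffices h : ∃ A, IsH X a A by
    obtain ⟨A, h⟩ := h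
    rwa [h.eq]
  refine h.ind (P := fun a => ∃ A, IsH X a A) ⟨_, .one⟩ (fun _ _ ⟨_, h⟩ => ⟨_, h.succ⟩)
    fun e f hf ih => ?_
  choose A hA using ih
  exact ⟨_, .lim hf.1 hA⟩

@[simp] theorem H_one (X : ℕ → Bool) : H X 1 = X := IsH.one.eq

theorem H_succ (X : ℕ → Bool) {b : ℕ} (h : InO b) : H X (2 ^ b) = jump (H X b) :=
  (h.isH X).succ.eq

theorem H_lim (X : ℕ → Bool) {e : ℕ} {f : ℕ → ℕ} (h : Fund e f) (m : ℕ) :
    H X (3 * 5 ^ e) m = H X (f m.unpair.1) m.unpair.2 := by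
  rw [(IsH.lim h.1 fun n => (h.inO n).isH X).eq]

theorem exists_up : ∃ Up : ℕ × ℕ × ℕ × ℕ → Prop, REPred Up ∧ ∀ b, InO b →
    (∀ c n m, Up (c, n, b, m) → KLe c b ∧ ∀ X, H X c n = H X b m) ∧
      ∀ c n, KLe c b → ∃ m, Up (c, n, b, m) := by
  obtain ⟨l, hl, el⟩ := (Sig.orc (α := ℕ) Computable.id (Computable.const true)).index
  have hP : Sig fun (x : Code × ℕ × ℕ × ℕ × ℕ) A => (x.2.1 = x.2.2.2.1 ∧ x.2.2.1 = x.2.2.2.2) ∨
      (∃ b m v, x.2.2.2.1 = 2 ^ b ∧ b ≠ 0 ∧ x.2.2.2.2 = l m ∧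
        v ∈ x.1.eval (encode (x.2.1, x.2.2.1, b, m)) ∧ jump A v = true) ∨
      ∃ d j b m v, x.2.2.2.1 = 3 * 5 ^ d ∧ b ∈ phi d j ∧ x.2.2.2.2 = Nat.pair j m ∧
        v ∈ x.1.eval (encode (x.2.1, x.2.2.1, b, m)) ∧ jump A v = true := by
    repeat' first
      | apply Sig.or | apply Sig.and | apply Sig.ex
      | (apply Sig.jmp; fun_prop) | (apply Sig.mem_phi <;> fun_prop)
      | (apply Sig.mem_eval <;> fun_prop) | (apply Sig.dec; fun_prop)
  obtain ⟨t, c, ht, hc, et⟩ := hP.recursion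
  simp only [hc, Prod.forall] at et
  have el' : ∀ A m, jump A (l m) = A m := fun A m => Bool.eq_iff_iff.2 (el m A)
  refine ⟨fun x => jump (fun _ => false) (t x) = true, ?_, fun b hb => ?_⟩
  · obtain ⟨p, hp, h⟩ := Sig.jmp ht
    have h1 : Computable fun x : (ℕ × ℕ × ℕ × ℕ) × ℕ => (x.1, seg (fun _ => false) x.2) := by
      unfold seg; fun_prop
    exact (re_exists (R := fun a k => p (a, seg (fun _ => false) k)) (re_comp hp h1)).of_eq
      fun a => (h a _).symm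
  refine hb.ind (P := fun b => (∀ c n m, jump (fun _ => false) (t (c, n, b, m)) = true →
    KLe c b ∧ ∀ X, H X c n = H X b m) ∧
      ∀ c n, KLe c b → ∃ m, jump (fun _ => false) (t (c, n, b, m)) = true) ⟨?_, ?_⟩
      (fun b hb ih => ⟨?_, ?_⟩) fun e f hf ih => ⟨?_, ?_⟩
  · intro c n m h
    rcases (et _ _ _ _ _).1 h with ⟨rfl, rfl⟩ | ⟨b, m, v, h1, h2, -⟩ | ⟨d, j, b, m, v, h1, -⟩
    · exact ⟨KLe.rfl, fun _ => rfl⟩
    · exact absurd (pow_inj (a := 0) h1).symm h2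
    · exact absurd h1 (one_ne_lim _)
  · rintro c n (rfl | h)
    · exact ⟨n, (et _ _ _ _ _).2 (Or.inl ⟨rfl, rfl⟩)⟩
    · exact absurd h not_lt_one
  · intro c n m h
    rcases (et _ _ _ _ _).1 h with ⟨rfl, rfl⟩ | ⟨b', m', v, h1, h2, h3, rfl, h4⟩ |
      ⟨d, j, b, m, v, h1, -⟩
    · exact ⟨KLe.rfl, fun _ => rfl⟩
    · obtain rfl := pow_inj h1
      obtain ⟨h5, h6⟩ := ih.1 _ _ _ h4
      refine ⟨h5.trans hb.lt_succ.le, fun X => ?_⟩
      rw [h6, H_succ X hb, show m = l m' from h3, el']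
    · exact absurd h1 (pow_ne_lim _ _)
  · rintro c n (rfl | h)
    · exact ⟨n, (et _ _ _ _ _).2 (Or.inl ⟨rfl, rfl⟩)⟩
    · obtain ⟨m, hm⟩ := ih.2 c n h.of_succ.2
      exact ⟨l m, (et _ _ _ _ _).2 (Or.inr (Or.inl ⟨b, m, _, rfl, hb.pos, rfl, rfl, hm⟩))⟩
  · intro c n m h
    rcases (et _ _ _ _ _).1 h with ⟨rfl, rfl⟩ | ⟨b', m', v, h1, -⟩ |
      ⟨d, j, b, m', v, h1, h2, h3, rfl, h4⟩
    · exact ⟨KLe.rfl, fun _ => rfl⟩
    · exact absurd h1.symm (pow_ne_lim _ _)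
    · obtain rfl := lim_inj h1
      obtain rfl := hf.eq.1 h2
      obtain ⟨h5, h6⟩ := (ih j).1 _ _ _ h4
      refine ⟨h5.trans (hf.lt j).le, fun X => ?_⟩
      rw [h6, H_lim X hf, show m = Nat.pair j m' from h3, Nat.unpair_pair]
  · rintro c n (rfl | h)
    · exact ⟨n, (et _ _ _ _ _).2 (Or.inl ⟨rfl, rfl⟩)⟩
    · obtain ⟨j, hj⟩ := hf.of_lt h
      obtain ⟨m, hm⟩ := (ih j).2 c n hj
      exact ⟨_, (et _ _ _ _ _).2 (Or.inr (Or.inr ⟨e, j, _, m, _, rfl, hf.1 j, rfl, rfl, hm⟩))⟩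

/-- The enumerable reduction between levels. -/
def Up (c n b m : ℕ) : Prop := exists_up.choose (c, n, b, m)

theorem Up.spec {c n b m : ℕ} (h : Up c n b m) (hb : InO b) : KLe c b ∧ ∀ X, H X c n = H X b m :=
  (exists_up.choose_spec.2 b hb).1 c n m h

theorem KLe.up {c b : ℕ} (h : KLe c b) (hb : InO b) (n : ℕ) : ∃ m, Up c n b m :=
  (exists_up.choose_spec.2 b hb).2 c n h

theorem Sig.up {α : Type} [Primcodable α] {f g u v : α → ℕ} (hf : Computable f) (hg : Computable g)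
    (hu : Computable u) (hv : Computable v) : Sig fun a _ => Up (f a) (g a) (u a) (v a) :=
  (Sig.of_re exists_up.choose_spec.1).comp (f := fun a => (f a, g a, u a, v a)) (by fun_prop)

/-- The enumerable version of the ordering. -/
def Le (c b : ℕ) : Prop := ∃ m, Up c 0 b m

theorem le_iff {c b : ℕ} (h : InO b) : Le c b ↔ KLe c b :=
  ⟨fun ⟨_, h'⟩ => (h'.spec h).1, fun h' => h'.up h 0⟩

theorem Sig.le {α : Type} [Primcodable α] {f g : α → ℕ} (hf : Computable f) (hg : Computable g) :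
    Sig fun a _ => Le (f a) (g a) :=
  Sig.ex (Sig.up (by fun_prop) (by fun_prop) (by fun_prop) (by fun_prop))

/-- Moving an existential predicate from a lower level to a higher one. -/
theorem Sig.lift {α : Type} [Primcodable α] {P : α → (ℕ → Bool) → Prop} (h : Sig P) :
    ∃ Q : α × ℕ × ℕ → (ℕ → Bool) → Prop, Sig Q ∧
      ∀ a b c X, InO c → KLe b c → (Q (a, b, c) (H X c) ↔ P a (H X b)) := by
  have h3 : Sig fun (x : (ℕ × ℕ) × ℕ × Bool) A =>
      ∃ m, Up x.1.1 x.2.1 x.1.2 m ∧ A m = x.2.2 :=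
    Sig.ex (Sig.and (Sig.up (by fun_prop) (by fun_prop) (by fun_prop) (by fun_prop))
      (Sig.orc (by fun_prop) (by fun_prop)))
  obtain ⟨R, hR, e⟩ := h.subst h3
  refine ⟨R, hR, fun a b c X hc hb => e a (b, c) _ _ fun j i => ⟨?_, ?_⟩⟩
  · rintro ⟨m, h4, h5⟩
    exact ((h4.spec hc).2 X).trans h5
  · intro h4
    obtain ⟨m, hm⟩ := hb.up hc j
    exact ⟨m, hm, ((hm.spec hc).2 X).symm.trans h4⟩

theorem red_H (X : ℕ → Bool) {b c : ℕ} (hc : InO c) (h : KLe b c) : Red (H X b) (H X c) := by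
  obtain ⟨Q, hQ, e⟩ := (Sig.orc (α := ℕ × Bool) Computable.fst Computable.snd).lift
  exact ⟨_, hQ.comp (f := fun x => (x, b, c)) (by fun_prop), fun x => (e x b c X hc h).symm⟩

/-- Membership in the jump of level `b`, read off from level `c`. -/
def JL (v b c : ℕ) (A : ℕ → Bool) : Prop := (Sig.jmp (α := ℕ) Computable.id).lift.choose (v, b, c) A

theorem jl_iff {v b c : ℕ} {X : ℕ → Bool} (hc : InO c) (h : KLe b c) :
    JL v b c (H X c) ↔ jump (H X b) v = true :=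
  (Sig.jmp (α := ℕ) Computable.id).lift.choose_spec.2 v b c X hc h

theorem Sig.jl {α : Type} [Primcodable α] {f g u : α → ℕ} (hf : Computable f) (hg : Computable g)
    (hu : Computable u) : Sig fun a A => JL (f a) (g a) (u a) A :=
  (Sig.jmp (α := ℕ) Computable.id).lift.choose_spec.1.comp (f := fun a => (f a, g a, u a))
    (by fun_prop)

end Pool.Agent.Lib.MP_5290c5_lc
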