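import Pool.Agent.Lib.MP_5290c5_lc.Hier

/-!
Even levels, the rank ordering, and trees whose rank codes a fact about an iterated jump.
-/

namespace Pool.Agent.Lib.MP_5290c5_lc

open Pool.Agent.Shared.Oracle Encodable Nat.Partrec

attribute [local irreducible] Computable

/-- The levels at which rank statements are universal. -/
inductive IsB : ℕ → Prop
  | two : IsB 2
  | lim (e : ℕ) : IsB (3 * 5 ^ e)
  | ss {b : ℕ} : IsB b → IsB (2 ^ 2 ^ b)

theorem isB_iff {b : ℕ} :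
    IsB b ↔ ∃ m x, (x = 2 ∨ ∃ e, x = 3 * 5 ^ e) ∧ b = (fun y => 2 ^ 2 ^ y)^[m] x := by
  constructor
  · intro h
    induction h with
    | two => exact ⟨0, _, Or.inl rfl, rfl⟩
    | lim e => exact ⟨0, _, Or.inr ⟨e, rfl⟩, rfl⟩
    | ss _ ih =>
      obtain ⟨m, x, h, rfl⟩ := ih
      exact ⟨m + 1, x, h, by rw [Function.iterate_succ_apply']⟩
  · rintro ⟨m, x, h, rfl⟩
    induction m with
    | zero =>
      rcases h with rfl | ⟨e, rfl⟩
      · exact .two
      · exact .lim e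
    | succ m ih => rw [Function.iterate_succ_apply']; exact ih.ss

theorem Sig.isB {α : Type} [Primcodable α] {f : α → ℕ} (hf : Computable f) :
    Sig fun a _ => IsB (f a) := by
  refine Sig.congr ?_ fun _ _ => isB_iff.symm
  repeat' first
    | apply Sig.or | apply Sig.and | apply Sig.ex | (apply Sig.dec; fun_prop)

theorem IsB.two_le {b : ℕ} (h : IsB b) : 2 ≤ b := by
  cases h with
  | two => exact le_rfl
  | lim e => have := Nat.one_le_pow e 5 (by omega); omega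
  | @ss b _ => exact Nat.le_self_pow (by positivity) 2

theorem IsB.inv {b : ℕ} (h : IsB b) : b = 2 ∨ (∃ e, b = 3 * 5 ^ e) ∨ ∃ c, IsB c ∧ b = 2 ^ 2 ^ c := by
  cases h with
  | two => exact Or.inl rfl
  | lim e => exact Or.inr (Or.inl ⟨e, rfl⟩)
  | ss h => exact Or.inr (Or.inr ⟨_, h, rfl⟩)

theorem IsB.not_succ {b : ℕ} (h : IsB b) : ¬ IsB (2 ^ b) := by
  induction b using Nat.strong_induction_on with
  | _ b ih =>
    intro h'
    rcases h'.inv with h1 | ⟨e, h1⟩ | ⟨c, h1, h2⟩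
    · have := pow_inj (b := 1) h1
      have := h.two_le
      omega
    · exact pow_ne_lim _ _ h1
    · obtain rfl := pow_inj h2
      exact ih c Nat.lt_two_pow_self h1 h

theorem InO.isB {c : ℕ} (h : InO c) : IsB c ∨ IsB (2 ^ c) :=
  h.ind (P := fun c => IsB c ∨ IsB (2 ^ c)) (Or.inr .two)
    (fun _ _ ih => ih.elim (fun h => Or.inr h.ss) Or.inl) fun e _ _ _ => Or.inl (.lim e)

theorem IsB.kle {b : ℕ} (h : IsB b) (hb : InO b) : KLe 2 b :=
  (hb.one_le.resolve_left fun e => by have := h.two_le; omega).succ_le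

theorem IsB.cases {b : ℕ} (h : IsB b) (hb : InO b) : b = 2 ∨ (∃ e f, b = 3 * 5 ^ e ∧ Fund e f) ∨
    ∃ c, IsB c ∧ InO c ∧ b = 2 ^ 2 ^ c := by
  rcases h.inv with h1 | ⟨e, rfl⟩ | ⟨c, h1, rfl⟩
  · exact Or.inl h1
  · rcases hb.cases with h1 | ⟨b', h1, -⟩ | h1
    · exact absurd h1.symm (one_ne_lim _)
    · exact absurd h1.symm (pow_ne_lim _ _)
    · exact Or.inr (Or.inl h1)
  · have := h1.two_le
    exact Or.inr (Or.inr ⟨c, h1, (hb.pred (by positivity)).pred (by omega), rfl⟩)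

theorem IsB.ss_le {b c : ℕ} (hb : IsB b) (hc : IsB c) (h : KLt b c) : KLe (2 ^ 2 ^ b) c :=
  (h.succ_le.resolve_left fun e => hb.not_succ (e ▸ hc)).succ_le

theorem InO.lt_ss {b : ℕ} (h : InO b) : KLt b (2 ^ 2 ^ b) := h.lt_succ.trans h.succ.lt_succ

theorem Fund.exists_B {e : ℕ} {f : ℕ → ℕ} (hf : Fund e f) (i : ℕ) :
    ∃ b, (b = f i ∨ b = 2 ^ f i) ∧ IsB b ∧ KLe (f i) b ∧ KLt b (3 * 5 ^ e) := by
  rcases (hf.inO i).isB with h | h
  · exact ⟨_, Or.inl rfl, h, KLe.rfl, hf.lt i⟩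
  · exact ⟨_, Or.inr rfl, h, (hf.inO i).lt_succ.le, (hf.lt i).succ_lt_lim⟩

/-- The ordering of ranks. -/
def WLt (v w : ℕ × ℕ) : Prop := (IsB v.1 ∧ KLt v.1 w.1) ∨ (v.1 = w.1 ∧ v.2 < w.2)

/-- The reflexive ordering of ranks. -/
def WLe (v w : ℕ × ℕ) : Prop := v = w ∨ WLt v w

theorem wlt_wf : WellFounded WLt := by
  refine Subrelation.wf (r := Prod.Lex KLt (· < ·)) ?_ (klt_wf.prod_lex Nat.lt_wfRel.wf)
  rintro ⟨a, i⟩ ⟨b, j⟩ (⟨-, h⟩ | ⟨h1, h2⟩)
  · exact .left _ _ h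
  · obtain rfl : a = b := h1
    exact .right _ h2

theorem WLt.trans {u v w : ℕ × ℕ} (h : WLt u v) (h' : WLt v w) : WLt u w := by
  rcases h with ⟨h1, h2⟩ | ⟨h1, h2⟩ <;> rcases h' with ⟨h3, h4⟩ | ⟨h3, h4⟩
  · exact Or.inl ⟨h1, h2.trans h4⟩
  · exact Or.inl ⟨h1, h3 ▸ h2⟩
  · exact Or.inl ⟨h1 ▸ h3, h1 ▸ h4⟩
  · exact Or.inr ⟨h1.trans h3, h2.trans h4⟩

theorem WLe.trans_lt {u v w : ℕ × ℕ} (h : WLe u v) (h' : WLt v w) : WLt u w :=
  h.elim (fun e => e ▸ h') fun h => h.trans h'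

theorem WLt.trans_le {u v w : ℕ × ℕ} (h : WLt u v) (h' : WLe v w) : WLt u w :=
  h'.elim (fun e => e ▸ h) fun h' => h.trans h'

theorem WLe.trans {u v w : ℕ × ℕ} (h : WLe u v) (h' : WLe v w) : WLe u w :=
  h'.elim (fun e => e ▸ h) fun h' => Or.inr (h.trans_lt h')

theorem WLt.irrefl {v : ℕ × ℕ} : ¬ WLt v v := wlt_wf.irrefl.irrefl v

theorem wlt_succ (v : ℕ × ℕ) : WLt v (v.1, v.2 + 1) := Or.inr ⟨rfl, Nat.lt_succ_self _⟩

theorem WLt.succ_le {v w : ℕ × ℕ} (h : WLt v w) : WLe (v.1, v.2 + 1) w := by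
  rcases h with h | ⟨h1, h2⟩
  · exact Or.inr (Or.inl h)
  · rcases (Nat.succ_le_of_lt h2).eq_or_lt with h3 | h3
    · exact Or.inl (Prod.ext h1 h3)
    · exact Or.inr (Or.inr ⟨h1, h3⟩)

theorem WLt.le_of_succ {v w : ℕ × ℕ} (h : WLt v (w.1, w.2 + 1)) : WLe v w := by
  rcases h with h | ⟨h1, h2⟩
  · exact Or.inr (Or.inl h)
  · rcases (Nat.lt_succ_iff.1 h2).eq_or_lt with h3 | h3
    · exact Or.inl (Prod.ext h1 h3)
    · exact Or.inr (Or.inr ⟨h1, h3⟩)

theorem WLt.kle {v w : ℕ × ℕ} (h : WLt v w) : KLe v.1 w.1 := h.elim (fun h => h.2.le) fun h => Or.inl h.1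

theorem WLt.isB {v w : ℕ × ℕ} (h : WLt v w) (hw : IsB w.1) : IsB v.1 :=
  h.elim (fun h => h.1) fun h => h.1 ▸ hw

theorem wle_total {a : ℕ} {v w : ℕ × ℕ} (hv : KLe v.1 a) (hw : KLe w.1 a) (hv' : IsB v.1)
    (hw' : IsB w.1) : WLe v w ∨ WLt w v := by
  rcases hv.total hw with (h | h) | h
  · rcases lt_trichotomy v.2 w.2 with h' | h' | h'
    · exact Or.inl (Or.inr (Or.inr ⟨h, h'⟩))
    · exact Or.inl (Or.inl (Prod.ext h h'))
    · exact Or.inr (Or.inr ⟨h.symm, h'⟩)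
  · exact Or.inl (Or.inr (Or.inl ⟨hv', h⟩))
  · exact Or.inr (Or.inl ⟨hw', h⟩)

/-- The node `s` of the tree `T` has rank at least `w`. -/
def Ge (T : List ℕ → Prop) (w : ℕ × ℕ) : List ℕ → Prop :=
  wlt_wf.fix (C := fun _ => List ℕ → Prop)
    (fun w ih s => T s ∧ ∀ v, (h : WLt v w) → ∃ x, ih v h (x :: s)) w

theorem ge_iff {T : List ℕ → Prop} {w : ℕ × ℕ} {s : List ℕ} :
    Ge T w s ↔ T s ∧ ∀ v, WLt v w → ∃ x, Ge T v (x :: s) := by
  unfold Ge
  rw [WellFounded.fix_eq]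

theorem Ge.mono {T : List ℕ → Prop} {v w : ℕ × ℕ} {s : List ℕ} (h : Ge T w s) (hv : WLe v w) :
    Ge T v s :=
  ge_iff.2 ⟨(ge_iff.1 h).1, fun u hu => (ge_iff.1 h).2 u (hu.trans_le hv)⟩

theorem Ge.descend {T : List ℕ → Prop} {b j : ℕ} {s : List ℕ} (h : Ge T (b, j) s) :
    ∃ s', s'.length = s.length + j ∧ Ge T (b, 0) s' := by
  induction j generalizing s with
  | zero => exact ⟨s, rfl, h⟩
  | succ j ih =>
    obtain ⟨x, hx⟩ := (ge_iff.1 h).2 (b, j) (wlt_succ (b, j))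
    obtain ⟨s', h1, h2⟩ := ih hx
    exact ⟨s', by rw [h1, List.length_cons]; omega, h2⟩

theorem ge_of_closed {T S : List ℕ → Prop} (h : ∀ s, S s → T s ∧ ∃ x, S (x :: s)) (w : ℕ × ℕ) :
    ∀ s, S s → Ge T w s := by
  induction w using wlt_wf.induction with
  | _ w ih =>
    intro s hs
    obtain ⟨h1, x, h2⟩ := h s hs
    exact ge_iff.2 ⟨h1, fun v hv => ⟨x, ih v hv _ h2⟩⟩

/-- The `i`-th component of a coded list. -/
def cmp (x i : ℕ) : ℕ := (Denumerable.ofNat (List ℕ) x).getD i 0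

/-- The choice made for the `i`-th subtree. -/
def hd (s : List ℕ) (i : ℕ) : ℕ := cmp (s.getD (s.length - i - 1) 0) i

/-- The position in the `i`-th subtree. -/
def sub (s : List ℕ) (i : ℕ) : List ℕ := (s.take (s.length - i - 1)).map fun x => cmp x i

theorem hd_cons {s : List ℕ} {i : ℕ} (x : ℕ) (h : i < s.length) : hd (x :: s) i = hd s i := by
  unfold hd
  rw [List.length_cons, show s.length + 1 - i - 1 = s.length - i - 1 + 1 by omega]
  rfl

theorem sub_cons {s : List ℕ} {i : ℕ} (x : ℕ) (h : i < s.length) :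
    sub (x :: s) i = cmp x i :: sub s i := by
  unfold sub
  rw [List.length_cons, show s.length + 1 - i - 1 = s.length - i - 1 + 1 by omega]
  rfl

theorem hd_new (s : List ℕ) (x : ℕ) : hd (x :: s) s.length = cmp x s.length := by simp [hd]

theorem sub_last {s : List ℕ} {i : ℕ} (h : s.length = i + 1) : sub s i = [] := by simp [sub, h]

theorem exists_cmp (y : ℕ → ℕ) (n : ℕ) : ∃ x, ∀ i < n, cmp x i = y i :=
  ⟨encode ((List.range n).map y), fun i hi => by simp [cmp, hi]⟩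

theorem Ge.sub {T T' : List ℕ → Prop} {i u : ℕ}
    (h : ∀ s, i < s.length → hd s i = u → T s → T' (sub s i)) (w : ℕ × ℕ) :
    ∀ s, i < s.length → hd s i = u → Ge T w s → Ge T' w (sub s i) := by
  induction w using wlt_wf.induction with
  | _ w ih =>
    intro s h1 h2 h3
    refine ge_iff.2 ⟨h s h1 h2 (ge_iff.1 h3).1, fun v hv => ?_⟩
    obtain ⟨x, hx⟩ := (ge_iff.1 h3).2 v hv
    have := ih v hv _ (by simp; omega) ((hd_cons x h1).trans h2) hx
    exact ⟨_, sub_cons x h1 ▸ this⟩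

theorem exists_sub : ∃ S : ℕ × ℕ × ℕ × ℕ × ℕ × ℕ → Prop, REPred S ∧
    (∀ e i u b' e', ¬ S (2, e, i, u, b', e')) ∧ ∀ b, IsB b → InO b → b ≠ 2 →
      ∃ (l : ℕ → ℕ) (ix : ℕ → ℕ → ℕ → ℕ), (∀ i, IsB (l i) ∧ KLt (l i) b) ∧
        (∀ i, KLe (l i) (l (i + 1))) ∧
        (∀ e i u b' e', S (b, e, i, u, b', e') ↔ b' = l i ∧ e' = ix e i u) ∧
        ∀ X e, jump (H X b) e = false ↔ ∀ i, ∃ u, jump (H X (l i)) (ix e i u) = false := by
  obtain ⟨g, hg, eg⟩ := (Sig.jmp (α := ℕ) Computable.id).nf₂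
  have h1 : Sig fun (x : ℕ × ℕ × ℕ × ℕ) A => ∃ ρ : List Bool, ρ.length = x.2.2.1 ∧
      (phi x.1 (encode ρ)).Dom ∧ ∀ k < x.2.2.1, ∃ b m, b ∈ phi x.2.1 k.unpair.1 ∧
        Up b k.unpair.2 x.2.2.2 m ∧ A m = ρ.getD k false := by
    repeat' first
      | apply Sig.and | apply Sig.ex | refine Sig.ball (by fun_prop) ?_
      | (apply Sig.dom_phi <;> fun_prop) | (apply Sig.orc <;> fun_prop)
      | (apply Sig.up <;> fun_prop) | (apply Sig.mem_phi <;> fun_prop) | (apply Sig.dec; fun_prop)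
  obtain ⟨p, hp, ep⟩ := h1.index
  have h2 : Sig fun (x : ℕ × ℕ × ℕ × ℕ × ℕ × ℕ) (_ : ℕ → Bool) => IsB x.2.2.2.2.1 ∧
      ((x.1 = 2 ^ 2 ^ x.2.2.2.2.1 ∧ x.2.2.2.2.2 = g (g (x.2.1, x.2.2.1), x.2.2.2.1)) ∨
      ∃ d c, x.1 = 3 * 5 ^ d ∧ c ∈ phi d x.2.2.1 ∧ (x.2.2.2.2.1 = c ∨ x.2.2.2.2.1 = 2 ^ c) ∧
        x.2.2.2.2.2 = p (x.2.1, d, x.2.2.1, x.2.2.2.2.1)) := by
    repeat' first
      | apply Sig.or | apply Sig.and | apply Sig.ex | (apply Sig.isB; fun_prop)
      | (apply Sig.mem_phi <;> fun_prop) | (apply Sig.dec; fun_prop)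
  refine ⟨_, h2.to_re, ?_, fun b hb hb' hne => ?_⟩
  · rintro e i u b' e' ⟨h3, ⟨h4, -⟩ | ⟨d, c, h4, -⟩⟩
    · have h5 := pow_inj (a := 0) (pow_inj (a := 1) h4)
      have := h3.two_le
      simp only at h5 this
      omega
    · exact pow_ne_lim 1 _ h4
  rcases hb.cases hb' with h | ⟨d, f, rfl, hf⟩ | ⟨c, h3, h4, rfl⟩
  · exact absurd h hne
  · choose l l1 l2 l3 l4 using hf.exists_B
    refine ⟨l, fun e i _ => p (e, d, i, l i), fun i => ⟨l2 i, l4 i⟩, fun i => ?_,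
      fun e i u b' e' => ?_, fun X e => ?_⟩
    · refine KLe.trans ?_ (l3 _)
      rcases l1 i with h | h <;> rw [h]
      · exact (hf.2 i).le
      · exact (hf.2 i).succ_le
    · constructor
      · rintro ⟨h3, ⟨h4, -⟩ | ⟨d', c, h4, h5, h6, h7⟩⟩
        · exact absurd h4.symm (pow_ne_lim _ _)
        · obtain rfl := lim_inj h4
          obtain rfl := hf.eq.1 h5
          have h8 : b' = l i := by
            rcases h6 with h6 | h6 <;> rcases l1 i with h9 | h9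
            · exact h6.trans h9.symm
            · exact absurd (h9 ▸ l2 i) (IsB.not_succ (h6 ▸ h3))
            · exact absurd (h6 ▸ h3) (IsB.not_succ (h9 ▸ l2 i))
            · exact h6.trans h9.symm
          subst h8
          exact ⟨rfl, h7⟩
      · rintro ⟨rfl, rfl⟩
        exact ⟨l2 i, Or.inr ⟨d, f i, rfl, hf.1 i, l1 i, rfl⟩⟩
    · simp only [← Bool.not_eq_true, ep, exists_const]
      rw [jump_iff, not_exists]
      refine forall_congr' fun i => not_congr ⟨fun h => ⟨_, seg_length _ _, h, fun k hk => ?_⟩, ?_⟩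
      · obtain ⟨m, hm⟩ := ((hf.mono ((Nat.unpair_left_le k).trans hk.le)).trans (l3 i)).up
          (l4 i).left k.unpair.2
        refine ⟨_, m, hf.1 _, hm, ?_⟩
        rw [← (hm.spec (l4 i).left).2 X, ← H_lim X hf]
        simp [seg, hk]
      · rintro ⟨ρ, h3, h4, h5⟩
        rwa [← eq_seg.2 ⟨h3, fun k hk => ?_⟩]
        obtain ⟨b, m, h6, h7, h8⟩ := h5 k hk
        obtain rfl := hf.eq.1 h6
        rw [H_lim X hf, (h7.spec (l4 i).left).2 X, h8]
  · refine ⟨fun _ => c, fun e i u => g (g (e, i), u), fun _ => ⟨h3, h4.lt_ss⟩, fun _ => KLe.rfl,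
      fun e i u b' e' => ?_, fun X e => ?_⟩
    · constructor
      · rintro ⟨-, ⟨h5, h6⟩ | ⟨d', c, h5, -⟩⟩
        · exact ⟨(pow_inj (pow_inj h5)).symm, h6⟩
        · exact absurd h5 (pow_ne_lim _ _)
      · rintro ⟨rfl, rfl⟩
        exact ⟨h3, Or.inl ⟨rfl, rfl⟩⟩
    · rw [H_succ _ h4.succ, H_succ _ h4, ← Bool.not_eq_true]
      refine (not_congr (eg e _)).trans ?_
      rw [not_exists]
      refine forall_congr' fun i => ?_
      rw [Bool.not_eq_false]
      exact eg _ _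

/-- Trees that are ill-founded or of small rank according to a fact about an iterated jump. -/
theorem exists_tree : ∃ t : ℕ × ℕ × List ℕ → ℕ, Computable t ∧ ∀ X b, IsB b → InO b → ∀ e,
    (∀ x s, jump (jump X) (t (b, e, x :: s)) = false → jump (jump X) (t (b, e, s)) = false) ∧
    (jump (H X b) e = false → ∃ S : List ℕ → Prop, S [] ∧
      ∀ s, S s → jump (jump X) (t (b, e, s)) = false ∧ ∃ x, S (x :: s)) ∧
    (Ge (fun s => jump (jump X) (t (b, e, s)) = false) (b, 0) [] → jump (H X b) e = false) := by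
  obtain ⟨S, hS, S2, eS⟩ := exists_sub
  have h1 : Sig fun (x : Code × ℕ × ℕ × List ℕ) A => (x.2.1 = 2 ∧ jump A x.2.2.1 = true) ∨
      ∃ i b e v, i < x.2.2.2.length ∧ S (x.2.1, x.2.2.1, i, hd x.2.2.2 i, b, e) ∧
        v ∈ x.1.eval (encode (b, e, sub x.2.2.2 i)) ∧ jump A v = true := by
    unfold hd sub cmp
    repeat' first
      | apply Sig.or | apply Sig.and | apply Sig.ex | (apply Sig.jmp; fun_prop)
      | (apply (Sig.of_re hS).comp; fun_prop)
      | (apply Sig.mem_eval <;> fun_prop) | (apply Sig.dec; fun_prop)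
  obtain ⟨t, k, ht, hk, et⟩ := h1.recursion
  simp only [hk, Prod.forall] at et
  refine ⟨t, ht, fun X b => ?_⟩
  induction b using klt_wf.induction with
  | _ b ih =>
    intro hb hb' e
    by_cases h2 : b = 2
    · subst h2
      have h3 : ∀ s, jump (jump X) (t (2, e, s)) = jump (H X 2) e := by
        intro s
        rw [Bool.eq_iff_iff, et, show H X 2 = jump X from (H_succ X (Or.inl rfl)).trans (by simp)]
        exact ⟨fun h => h.elim (fun h => h.2) fun ⟨_, _, _, _, _, h, _⟩ => absurd h (S2 _ _ _ _ _),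
          fun h => Or.inl ⟨rfl, h⟩⟩
      simp only [h3]
      exact ⟨fun _ _ h => h, fun h => ⟨fun _ => True, trivial, fun _ _ => ⟨h, 0, trivial⟩⟩,
        fun h => (ge_iff.1 h).1⟩
    obtain ⟨l, ix, h3, -, h4, h5⟩ := eS b hb hb' h2
    have h6 : ∀ s, jump (jump X) (t (b, e, s)) = false ↔ ∀ i < s.length,
        jump (jump X) (t (l i, ix e i (hd s i), sub s i)) = false := by
      intro s
      simp only [← Bool.not_eq_true]
      rw [et]
      simp only [h2, false_and, false_or, h4]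
      constructor
      · intro h i hi h'
        exact h ⟨i, _, _, _, hi, ⟨rfl, rfl⟩, rfl, h'⟩
      · rintro h ⟨i, _, _, _, hi, ⟨rfl, rfl⟩, rfl, h'⟩
        exact h i hi h'
    have ih' := fun i => ih (l i) (h3 i).2 (h3 i).1 (h3 i).2.left
    refine ⟨fun x s h => (h6 s).2 fun i hi => ?_, fun h => ?_, fun h => (h5 X e).2 fun i => ?_⟩
    · have h7 := (h6 _).1 h i (by simp; omega)
      rw [hd_cons x hi, sub_cons x hi] at h7
      exact (ih' i _).1 _ _ h7
    · choose u hu using (h5 X e).1 h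
      choose R R0 R1 using fun i => (ih' i _).2.1 (hu i)
      refine ⟨fun s => ∀ i < s.length, hd s i = u i ∧ R i (sub s i), by simp, fun s hs =>
        ⟨(h6 s).2 fun i hi => (hs i hi).1 ▸ (R1 i _ (hs i hi).2).1, ?_⟩⟩
      have h7 : ∀ i, ∃ y, (i < s.length → R i (y :: sub s i)) ∧ (i = s.length → y = u i) := by
        intro i
        by_cases hi : i < s.length
        · obtain ⟨y, hy⟩ := (R1 i _ (hs i hi).2).2
          exact ⟨y, fun _ => hy, fun h => by omega⟩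
        · exact ⟨u i, fun h => absurd h hi, fun _ => rfl⟩
      choose y y1 y2 using h7
      obtain ⟨x, hx⟩ := exists_cmp y (s.length + 1)
      refine ⟨x, fun i hi => ?_⟩
      rcases (Nat.lt_succ_iff.1 hi).eq_or_lt with rfl | hlt
      · rw [hd_new, sub_last (List.length_cons), hx _ hi]
        exact ⟨y2 _ rfl, R0 _⟩
      · rw [hd_cons x hlt, sub_cons x hlt, hx _ hi]
        exact ⟨(hs i hlt).1, y1 i hlt⟩
    · obtain ⟨s, h7, h8⟩ := (h.mono (v := (l i, i + 1)) (Or.inr (Or.inl (h3 i)))).descend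
      rw [List.length_nil, Nat.zero_add] at h7
      refine ⟨hd s i, (ih' i _).2.2 ?_⟩
      have h9 := Ge.sub (T' := fun s' => jump (jump X) (t (l i, ix e i (hd s i), s')) = false)
        (fun s' a1 a2 a3 => a2 ▸ (h6 s').1 a3 i a1) _ s (by omega) rfl h8
      rwa [sub_last h7] at h9

end Pool.Agent.Lib.MP_5290c5_lc
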