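import Pool.Agent.Lib.MP_5290c5_lc.Core

/-!
The diagonal arguments.
-/

namespace Pool.Agent.Lib.MP_5290c5_lc

open Pool.Agent.Shared.Oracle Encodable Nat.Partrec

attribute [local irreducible] Computable

/-- The conclusion for the notation `a`. -/
def Good (a : ℕ) : Prop := ∃ G : AddSubgroup (List En →₀ ℚ),
  IsLeast (JumpSp G a) (degree (H zero a)) ∧ ∀ b, KLt b a → ¬ ∃ d, IsLeast (JumpSp G b) d

theorem coinfinite {Lo Hi : ℕ → Prop} (h : ∀ m, Lo m → ¬ Hi m) :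
    {w | Lo w ∧ ∃ m, w < m ∧ Hi m}ᶜ.Infinite := by
  intro hf
  obtain ⟨B, hB⟩ := hf.bddAbove
  have h1 : ∀ w, B < w → Lo w ∧ ∃ m, w < m ∧ Hi m := fun w hw =>
    not_not.1 fun h2 => hw.not_ge (hB h2)
  obtain ⟨-, m, h2, h3⟩ := h1 (B + 1) (by omega)
  exact h m (h1 m (by omega)).1 h3

theorem finite_subset {U : Set ℕ} (hU : U.Finite) {Lo Hi : ℕ → Prop} (h1 : ∀ m ∈ U, Lo m)
    (h2 : ∀ m ∉ U, Hi m) : U ⊆ {w | Lo w ∧ ∃ m, w < m ∧ Hi m} := fun w hw =>
  let ⟨m, h3, h4⟩ := hU.infinite_compl.exists_gt w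
  ⟨h1 w hw, m, h4, h2 m h3⟩

theorem good_one {c : ℕ} (hc : IsB c) (hc' : InO c) : Good (2 ^ 2 ^ c) := by
  obtain ⟨h, hh, eh⟩ := (Sig.ex (P := fun (x : ℕ × ℕ) v A => v ∈ phi x.1 (encode x) ∧
    jump A v = true) (Sig.and (Sig.mem_phi (by fun_prop) (by fun_prop) (by fun_prop))
      (Sig.jmp (by fun_prop)))).index
  have h1 : Sig fun (x : ℕ × ℕ) A => ∃ m, x.2 < m ∧ jump A (h (x.1, m)) = true :=
    Sig.ex (Sig.and (Sig.dec (by fun_prop)) (Sig.jmp (by fun_prop)))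
  obtain ⟨G, h2, h3⟩ := core hc'.succ.succ (γ := fun _ => 2 ^ 2 ^ c) (fun _ => ⟨hc.ss, fun e => by
      have := pow_inj (b := 0) (pow_inj (b := 1) e)
      have := hc.two_le
      omega, KLe.rfl⟩) (Computable.const _)
    (W := fun x A => A (h x) = false ∧ ∃ m, x.2 < m ∧ A (h (x.1, m)) = true)
    (Sig.and (Sig.orc hh (by fun_prop)) (Sig.ex (Sig.and (Sig.dec (by fun_prop))
      (Sig.orc (by fun_prop) (by fun_prop))))) (fun n => coinfinite
      (Lo := fun m => H zero (2 ^ 2 ^ c) (h (n, m)) = false)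
      (Hi := fun m => H zero (2 ^ 2 ^ c) (h (n, m)) = true) (by simp)) (by
      rw [H_succ _ hc'.succ]
      exact (((Sig.orc hh (Computable.const true)).sigIn _).or (h1.sigIn _).neg_jump).congr
        fun x => by rw [not_and_or, Bool.not_eq_false])
  refine ⟨G, h2, fun b hb hd => ?_⟩
  obtain ⟨Y, U, l, Q, a1, a2, a3, a4, a5, a6⟩ := h3 b hb.left hd
  obtain ⟨L, hL, eL⟩ := a5.lift
  have a7 : SigIn (H Y (2 ^ c)) fun x : ℕ × ℕ => x.2 ∉ U x.1 := by
    refine ((hL.comp (f := fun x : ℕ × ℕ => (x, l x, 2 ^ c)) (by fun_prop)).sigIn _).congr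
      fun x => (eL _ _ _ _ hc'.succ ?_).trans (a6 _ _)
    exact ((a4 x.1 x.2).1.lt_succ.trans_le (a4 x.1 x.2).2).of_succ.2
  obtain ⟨g, hg, eg⟩ := (a7.red (a1.mono_H hb.left hb.of_succ.2)).index
  obtain ⟨e, he⟩ := exists_code hg
  have a8 : ∀ m, H zero (2 ^ 2 ^ c) (h (e, m)) = true ↔ m ∉ U e := fun m => by
    rw [H_succ _ hc'.succ, eh]
    simp only [he, exists_eq_left, eg]
  exact (a2 e).2 (finite_subset (a2 e).1 (fun m hm => by simpa [hm] using a8 m)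
    fun m hm => (a8 m).2 hm)

theorem good_two {a : ℕ} (ha : InO a) {γ : ℕ → ℕ} (hγ : ∀ j, IsB (γ j) ∧ γ j ≠ 2 ∧ KLt (γ j) a)
    (hγ' : Computable γ) (hc : ∀ b, KLt b a → ∃ j, KLe b (γ j)) : Good a := by
  classical
  obtain ⟨q, hq, mq, eq⟩ := (Sig.ex (P := fun (x : ℕ × ℕ × Bool) v A =>
    v ∈ phi x.1.unpair.2 (encode x) ∧ jump A v = true)
    (Sig.and (Sig.mem_phi (by fun_prop) (by fun_prop) (by fun_prop)) (Sig.jmp (by fun_prop)))).nf
  let R : ℕ → ℕ → Bool → (ℕ → Bool) → Prop := fun n m i A =>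
    ∃ k σ, σ = seg A k ∧ q (n, m, i) σ ∧ ¬ q (n, m, !i) σ
  have hW : Sig fun (x : ℕ × ℕ) A => R x.1 x.2 true A ∧ ∃ m, x.2 < m ∧ R x.1 m false A := by
    unfold R
    repeat' first
      | apply Sig.and | apply Sig.ex | (apply Sig.eqseg <;> fun_prop)
      | (apply Sig.prim_not hq <;> fun_prop) | (apply Sig.prim hq <;> fun_prop)
      | (apply Sig.dec; fun_prop)
  obtain ⟨p, hp, ep⟩ := hW.index
  obtain ⟨G, h2, h3⟩ := core ha (γ := fun n => γ n.unpair.1)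
    (fun n => ⟨(hγ _).1, (hγ _).2.1, (hγ _).2.2.le⟩) (by fun_prop) hW
    (fun n => coinfinite (Lo := fun m => R n m true (H zero (γ n.unpair.1)))
      (Hi := fun m => R n m false (H zero (γ n.unpair.1))) (by
      rintro m ⟨k, _, rfl, b1, b2⟩ ⟨k', _, rfl, b3, b4⟩
      rcases le_total k k' with h | h
      · exact b4 (mq _ _ _ (seg_prefix _ h) b1)
      · exact b2 (mq _ _ _ (seg_prefix _ h) b3)))
    ((Sig.sigIn (P := fun (x : ℕ × ℕ) A => ∃ m, Up (2 ^ γ x.1.unpair.1) (p x) a m ∧ A m = false)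
      (Sig.ex (Sig.and (Sig.up (by fun_prop) (by fun_prop) (by fun_prop) (by fun_prop))
        (Sig.orc (by fun_prop) (by fun_prop)))) _).congr fun x => by
      rw [up_iff ha (hγ _).2.2.succ_le, H_succ _ (hγ _).2.2.left, ← Bool.not_eq_true, ep])
  refine ⟨G, h2, fun b hb hd => ?_⟩
  obtain ⟨Y, U, l, Q, a1, a2, a3, a4, a5, a6⟩ := h3 b hb.left hd
  obtain ⟨j, hj⟩ := hc b hb
  obtain ⟨r, hr, er⟩ := a5.index
  obtain ⟨g, hg, eg⟩ := ((Sig.ex (P := fun (x : ℕ × ℕ × Bool) m A =>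
    Up (2 ^ l (x.1, x.2.1)) (r (x.1, x.2.1)) (γ j) m ∧ A m = !x.2.2)
    (Sig.and (Sig.up (by fun_prop) (by fun_prop) (by fun_prop) (by fun_prop))
      (Sig.orc (by fun_prop) (by fun_prop)))).red (a1.mono_H hb.left hj)).index
  obtain ⟨e, he⟩ := exists_code hg
  have a7 := a4 (Nat.pair j e)
  have a8 := (a2 (Nat.pair j e)).2
  simp only [Nat.unpair_pair] at a7 a8
  have a9 : ∀ m i, (∃ k, q (Nat.pair j e, m, i) (seg (H zero (γ j)) k)) ↔
      decide (m ∈ U (Nat.pair j e)) = i := fun m i => by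
    rw [← eq]
    simp only [Nat.unpair_pair, he, exists_eq_left, eg]
    rw [up_iff (hγ j).2.2.left (a7 m).2, H_succ _ (a7 m).1]
    have := (er (Nat.pair j e, m) _).trans (a6 _ _)
    revert this
    cases i <;> cases jump (H Y (l (Nat.pair j e, m))) (r (Nat.pair j e, m)) <;> simp
  have a10 : ∀ m, R (Nat.pair j e) m (decide (m ∈ U (Nat.pair j e))) (H zero (γ j)) := fun m =>
    let ⟨k, hk⟩ := (a9 m _).2 rfl
    ⟨k, _, rfl, hk, fun h => by simpa using (a9 m _).1 ⟨k, h⟩⟩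
  exact a8 (finite_subset (a2 _).1 (fun m hm => by simpa [hm] using a10 m)
    fun m hm => by simpa [hm] using a10 m)

theorem good {a : ℕ} (h : KLt 4 a) : Good a := by
  have ha := h.right
  have h2 : ∀ c, IsB c → 2 ^ 2 ^ c ≠ 2 := fun c hc e => by
    have := pow_inj (b := 0) (pow_inj (b := 1) e)
    have := hc.two_le
    omega
  rcases ha.isB with h1 | h1
  · rcases h1.cases ha with rfl | ⟨e, f, rfl, hf⟩ | ⟨c, h3, h4, rfl⟩
    · exact absurd (h.trans inO_two.lt_succ) KLt.irrefl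
    · choose l l1 l2 l3 l4 using hf.exists_B
      have := hf.computable
      have hl : Computable l := by
        refine computable_of_graph (REPred.of_eq (p := fun x : ℕ × ℕ => IsB x.2 ∧
          (x.2 = f x.1 ∨ x.2 = 2 ^ f x.1)) (Sig.and (Sig.isB (by fun_prop))
            (Sig.dec (by fun_prop))).to_re fun x => ⟨fun ⟨h3, h6⟩ => ?_, fun h => h ▸ ⟨l2 _, l1 _⟩⟩) 0
        rcases h6 with h6 | h6 <;> rcases l1 x.1 with h9 | h9
        · exact h6.trans h9.symm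
        · exact absurd (h9 ▸ l2 _) (IsB.not_succ (h6 ▸ h3))
        · exact absurd (h6 ▸ h3) (IsB.not_succ (h9 ▸ l2 _))
        · exact h6.trans h9.symm
      exact good_two ha (γ := fun j => 2 ^ 2 ^ l j)
        (fun j => ⟨(l2 j).ss, h2 _ (l2 j), (l4 j).succ_lt_lim.succ_lt_lim⟩) (by fun_prop)
        fun b hb => (hf.of_lt hb).imp fun j hj => (hj.trans (l3 j)).trans (l4 j).left.lt_ss.le
    · exact good_one h3 h4
  · rcases h1.inv with h3 | ⟨e, h3⟩ | ⟨c, h3, h4⟩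
    · exact absurd (pow_inj (b := 1) h3 ▸ h) not_lt_one
    · exact absurd h3 (pow_ne_lim _ _)
    · obtain rfl := pow_inj h4
      exact good_two ha (γ := fun _ => c) (fun _ => ⟨h3, fun e => KLt.irrefl (e ▸ h : KLt 4 (2 ^ 2)),
        h.of_succ.1.lt_succ⟩) (Computable.const _) fun b hb => ⟨0, hb.of_succ.2⟩

end Pool.Agent.Lib.MP_5290c5_lc
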