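import Pool.Agent.Lib.MP_5290c5_lc.Build
import Pool.Agent.Lib.MP_5290c5_lc.Decode

/-!
The process by which a generic real enumerates the family.
-/

namespace Pool.Agent.Lib.MP_5290c5_lc

open Pool.Agent.Shared.Oracle Encodable Nat.Partrec

attribute [local irreducible] Computable

/-- The number `m` has been removed before stage `s`. -/
def Dead (κ : ℕ → ℕ → ℕ → Prop) (N : ℕ) (M : ℕ → Bool) (m : ℕ) : ℕ → Prop :=
  Nat.lt_wfRel.wf.fix (C := fun _ => ℕ → Prop) (fun m ih s => M m = false ∨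
    (N ≤ m ∧ ∃ s' < s, ∃ w, ∃ h : w < m, m ≤ s' ∧ ¬ ih w h s' ∧ κ w m s')) m

variable {κ : ℕ → ℕ → ℕ → Prop} {N : ℕ} {M M' : ℕ → Bool} {V : Set ℕ}

theorem dead_iff {m s : ℕ} : Dead κ N M m s ↔ M m = false ∨
    (N ≤ m ∧ ∃ s' < s, ∃ w < m, m ≤ s' ∧ ¬ Dead κ N M w s' ∧ κ w m s') := by
  unfold Dead
  rw [WellFounded.fix_eq]
  simp only [exists_prop]

theorem Dead.mono {m s s' : ℕ} (h : Dead κ N M m s) (hs : s ≤ s') : Dead κ N M m s' :=
  dead_iff.2 ((dead_iff.1 h).imp_right fun ⟨h1, t, h2, h3⟩ => ⟨h1, t, h2.trans_le hs, h3⟩)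

theorem dead_congr {m : ℕ} (h : ∀ j ≤ m, M j = M' j) (s : ℕ) :
    Dead κ N M m s ↔ Dead κ N M' m s := by
  induction m using Nat.strong_induction_on generalizing s with
  | _ m ih =>
    rw [dead_iff, dead_iff, h m le_rfl]
    refine or_congr_right (and_congr_right fun _ => exists_congr fun s' => and_congr_right fun _ =>
      exists_congr fun w => and_congr_right fun hw => ?_)
    rw [ih w hw fun j hj => h j (by omega)]

theorem dead_high (h1 : ∀ w ∉ V, ∀ m, ∃ s₀, ∀ s, s₀ ≤ s → κ w m s) {w m : ℕ}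
    (hw : ∀ s, ¬ Dead κ N M w s) (hw' : w ∉ V) (h2 : w < m) (h3 : N ≤ m) : ∃ s, Dead κ N M m s := by
  obtain ⟨s₀, h⟩ := h1 w hw' m
  exact ⟨_, dead_iff.2 (Or.inr ⟨h3, s₀ + m, Nat.lt_succ_self _, w, h2, by omega, hw _,
    h _ (by omega)⟩)⟩

theorem dead_dense (h2 : ∀ w ∈ V, ∃ m₀, ∀ m, m₀ ≤ m → ∀ s, ¬ κ w m s) (hV : Vᶜ.Infinite)
    (I : ℕ → Bool) (σ : List Bool) : ∃ τ, σ <+: τ ∧ ∃ w, w < τ.length ∧
      (∀ s, ¬ Dead κ N (fun j => if j < N then I j else τ.getD j false) w s) ∧ w ∉ V := by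
  have h0 : ∀ (Y : ℕ → Bool) k, σ.length ≤ k → (∀ j < σ.length, Y j = σ.getD j false) →
      σ <+: seg Y k := fun Y k h3 h4 => (eq_seg.2 ⟨rfl, h4⟩).symm ▸ seg_prefix Y h3
  have h1 : ∀ (Y : ℕ → Bool) k j, j < k → (seg Y k).getD j false = Y j := fun Y k j h => by
    simp [seg, h]
  by_cases h : ∃ w, (∀ s, ¬ Dead κ N (fun j => if j < N then I j else σ.getD j false) w s) ∧ w ∉ V
  · obtain ⟨w, h3, h4⟩ := h
    refine ⟨seg (fun j => σ.getD j false) (σ.length + w + 1), h0 _ _ (by omega) fun _ _ => rfl, w,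
      by simp, fun s h5 => h3 s ((dead_congr (fun j hj => ?_) s).1 h5), h4⟩
    rw [h1 _ _ _ (by omega)]
  have h3 : ∀ w, ∃ B, ∀ m s, B ≤ m → m ≤ s →
      Dead κ N (fun j => if j < N then I j else σ.getD j false) w s ∨ ¬ κ w m s := by
    intro w
    by_cases hw : w ∈ V
    · exact (h2 w hw).imp fun B hB m s a1 _ => Or.inr (hB m a1 s)
    · obtain ⟨B, hB⟩ := not_forall_not.1 fun a1 => h ⟨w, a1, hw⟩
      exact ⟨B, fun m s a1 a2 => Or.inl (hB.mono (a1.trans a2))⟩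
  choose B hB using h3
  obtain ⟨w, h4, h5⟩ := hV.exists_gt (σ.length + N + (Finset.range (σ.length + N)).sup B)
  refine ⟨seg (fun j => if j = w then true else σ.getD j false) (w + 1), h0 _ _ (by omega)
    fun j hj => if_neg (by omega), w, by simp, fun s h6 => ?_, h4⟩
  rcases dead_iff.1 h6 with h7 | ⟨-, s', -, w', h7, h8, h9, h10⟩
  · rw [if_neg (by omega), h1 _ _ _ (by omega)] at h7
    simp at h7
  · rw [dead_congr (M' := fun j => if j < N then I j else σ.getD j false) fun j hj => by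
      rw [h1 _ _ _ (by omega), if_neg (show j ≠ w by omega)]] at h9
    by_cases h11 : w' < σ.length + N
    · have := Finset.le_sup (f := B) (Finset.mem_range.2 h11)
      exact (hB w' w s' (by omega) h8).elim h9 fun h => h h10
    · refine h9 (dead_iff.2 (Or.inl ?_))
      rw [if_neg (by omega), List.getD_eq_default _ _ (by omega)]

theorem setup {V : ℕ → Set ℕ} {β : ℕ → ℕ → ℕ} {a : ℕ} (ha : InO a)
    (hβ : ∀ n m, IsB (β n m) ∧ KLe (2 ^ 2 ^ β n m) a) (hβ' : Computable fun p : ℕ × ℕ => β p.1 p.2)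
    (hm : ∀ n m, KLe (β n m) (β n (m + 1))) {K : ℕ × ℕ × ℕ → (ℕ → Bool) → Prop} (hK : Sig K)
    (hK1 : ∀ n, ∀ w ∉ V n, ∀ m, K (n, w, m) (H zero (2 ^ β n m)))
    (hK2 : ∀ n, ∀ w ∈ V n, ∃ m₀, ∀ m, m₀ ≤ m → ¬ K (n, w, m) (H zero (2 ^ β n m)))
    (hV : ∀ n, (V n)ᶜ.Infinite) (hV' : SigIn (H zero a) fun x : ℕ × ℕ => x.2 ∉ V x.1) :
    ∃ D : En → List Bool → Prop, SigIn (H zero a) (fun x : En × List Bool => D x.1 x.2) ∧
      (∀ x σ, ∃ τ, σ <+: τ ∧ D x τ) ∧ ∀ X, (∀ x, ∃ k, D x (seg X k)) →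
        ∃ real ty, Hom V β real ty ∧ Cop (TG real) X := by
  classical
  have b1 : ∀ n m, InO (2 ^ β n m) := fun n m => ((hβ n m).2.left ha).pred (by positivity)
  have b2 : ∀ n m, InO (β n m) := fun n m =>
    (b1 n m).pred (by have := (hβ n m).1.two_le; omega)
  have b3 : ∀ n m m', m ≤ m' → KLe (2 ^ β n m) (2 ^ β n m') := fun n m m' h => by
    induction m', h using Nat.le_induction with
    | base => exact KLe.rfl
    | succ m' _ ih => exact ih.trans ((hm n m').succ (b2 _ _))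
  obtain ⟨q, hq, mq, eq⟩ := hK.nf
  let κ : ℕ → ℕ → ℕ → ℕ → Prop := fun n w m s => q (n, w, m) (seg (H zero (2 ^ β n m)) s)
  have k1 : ∀ n, ∀ w ∉ V n, ∀ m, ∃ s₀, ∀ s, s₀ ≤ s → κ n w m s := fun n w hw m =>
    ((eq _ _).1 (hK1 n w hw m)).imp fun s₀ h s hs => mq _ _ _ (seg_prefix _ hs) h
  have k2 : ∀ n, ∀ w ∈ V n, ∃ m₀, ∀ m, m₀ ≤ m → ∀ s, ¬ κ n w m s := fun n w hw =>
    (hK2 n w hw).imp fun m₀ h m hm s h' => h m hm ((eq _ _).2 ⟨s, h'⟩)
  obtain ⟨P, hP, eP⟩ := (Sig.ex (P := fun (x : (ℕ × ℕ × ℕ) × ℕ) σ A => σ = seg A x.2 ∧ q x.1 σ)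
    (Sig.and (Sig.eqseg (by fun_prop) (by fun_prop)) (Sig.prim hq (by fun_prop) (by fun_prop)))).lift
  obtain ⟨P', hP', eP'⟩ := (Sig.ex (P := fun (x : (ℕ × ℕ × ℕ) × ℕ) σ A => σ = seg A x.2 ∧ ¬ q x.1 σ)
    (Sig.and (Sig.eqseg (by fun_prop) (by fun_prop))
      (Sig.prim_not hq (by fun_prop) (by fun_prop)))).lift
  simp only [exists_eq_left] at eP eP'
  let M : En → (ℕ → Bool) → ℕ → Bool := fun x Y j =>
    if j < x.2.1 then Nat.testBit x.2.2.1.1 j else Y j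
  have h1 : Sig fun (y : Code × (En × List Bool × ℕ) × ℕ × ℕ × Bool) A =>
      (y.2.2.2.2 = true ∧ (M y.2.1.1 (fun j => y.2.1.2.1.getD j false) y.2.2.1 = false ∨
        (y.2.1.1.2.1 ≤ y.2.2.1 ∧ ∃ s', s' < y.2.2.2.1 ∧ ∃ w, w < y.2.2.1 ∧ y.2.2.1 ≤ s' ∧
          (∃ v, v ∈ y.1.eval (encode (y.2.1, w, s', false)) ∧ jump A v = true) ∧
          P (((y.2.1.1.1, w, y.2.2.1), s'), 2 ^ β y.2.1.1.1 y.2.2.1, y.2.1.2.2) A))) ∨
      (y.2.2.2.2 = false ∧ M y.2.1.1 (fun j => y.2.1.2.1.getD j false) y.2.2.1 = true ∧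
        (y.2.2.1 < y.2.1.1.2.1 ∨ ∀ s' < y.2.2.2.1, ∀ w < y.2.2.1, s' < y.2.2.1 ∨
          (∃ v, v ∈ y.1.eval (encode (y.2.1, w, s', true)) ∧ jump A v = true) ∨
          P' (((y.2.1.1.1, w, y.2.2.1), s'), 2 ^ β y.2.1.1.1 y.2.2.1, y.2.1.2.2) A)) := by
    unfold M
    repeat' first
      | apply Sig.or | apply Sig.and | apply Sig.ex | refine Sig.ball (by fun_prop) ?_
      | (apply hP.comp; fun_prop) | (apply hP'.comp; fun_prop) | (apply Sig.jmp; fun_prop)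
      | (apply Sig.mem_eval <;> fun_prop) | (apply Sig.dec; fun_prop)
  obtain ⟨t, k, ht, hk, et⟩ := h1.recursion
  simp only [hk, exists_eq_left] at et
  have h2 : ∀ x σ c, InO c → ∀ m, KLe (2 ^ β x.1 m) c → ∀ s,
      (jump (H zero c) (t ((x, σ, c), m, s, true)) = true ↔
        Dead (κ x.1) x.2.1 (M x fun j => σ.getD j false) m s) ∧
      (jump (H zero c) (t ((x, σ, c), m, s, false)) = true ↔
        ¬ Dead (κ x.1) x.2.1 (M x fun j => σ.getD j false) m s) := by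
    intro x σ c hc m
    induction m using Nat.strong_induction_on with
    | _ m ih =>
      intro h s
      have ih' := fun w (hw : w < m) => ih w hw ((b3 _ _ _ hw.le).trans h)
      rw [et, et, dead_iff]
      simp only [true_and, Bool.true_eq_false, Bool.false_eq_true, false_and, or_false, false_or,
        eP _ _ _ _ hc h, eP' _ _ _ _ hc h, not_or, Bool.not_eq_false, not_and, not_exists]
      refine ⟨or_congr_right (and_congr_right fun _ => exists_congr fun s' => and_congr_right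
        fun _ => exists_congr fun w => and_congr_right fun hw => by rw [(ih' w hw s').2]),
        and_congr_right fun _ => ?_⟩
      rw [← not_le, ← imp_iff_not_or]
      refine imp_congr_right fun _ => forall₂_congr fun s' _ => forall₂_congr fun w hw => ?_
      rw [(ih' w hw s').1, ← not_le]
      tauto
  have h3 : ∀ (X : ℕ → Bool) x k m s, m < k →
      (Dead (κ x.1) x.2.1 (M x fun j => (seg X k).getD j false) m s ↔
        Dead (κ x.1) x.2.1 (M x X) m s) := fun X x k m s h =>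
    dead_congr (fun j hj => by simp [M, seg, hj.trans_lt h]) s
  refine ⟨fun x σ => ∃ w, w < σ.length ∧
    (∀ s, ¬ Dead (κ x.1) x.2.1 (M x fun j => σ.getD j false) w s) ∧ w ∉ V x.1, ?_,
    fun x σ => dead_dense (k2 x.1) (hV x.1) _ σ, fun X hX => ?_⟩
  · obtain ⟨g, hg, eg⟩ := (Sig.ex (P := fun (y : (En × List Bool) × ℕ) s A =>
      jump A (t ((y.1.1, y.1.2, 2 ^ β y.1.1.1 y.2), y.2, s, true)) = true)
      (Sig.jmp (by fun_prop))).index
    refine SigIn.ex (SigIn.and (SigIn.dec (by fun_prop)) (SigIn.and ?_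
      (hV'.comp (f := fun y : (En × List Bool) × ℕ => (y.1.1.1, y.2)) (by fun_prop))))
    refine (Sig.sigIn (P := fun (y : (En × List Bool) × ℕ) A =>
      ∃ m, Up (2 ^ 2 ^ β y.1.1.1 y.2) (g y) a m ∧ A m = false)
      (Sig.ex (Sig.and (Sig.up (by fun_prop) (by fun_prop) (by fun_prop) (by fun_prop))
        (Sig.orc (by fun_prop) (by fun_prop)))) _).congr fun y => ?_
    rw [up_iff ha (hβ _ _).2, H_succ _ (b1 _ _), ← Bool.not_eq_true, eg, not_exists]
    exact forall_congr' fun s => not_congr (h2 _ _ _ (b1 _ _) _ KLe.rfl s).1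
  obtain ⟨T, hT, eT⟩ := (Sig.jmp ht).transfer (red_zero X)
  obtain ⟨L, hL, eL⟩ := (Sig.eqseg (α := List Bool × ℕ) Computable.fst Computable.snd).lift
  have h4 : ∀ (x : En) m, m < x.2.1 →
      ((∀ s, ¬ Dead (κ x.1) x.2.1 (M x X) m s) ↔ Nat.testBit x.2.2.1.1 m = true) := by
    intro x m h
    simp [dead_iff (m := m), M, h, h.not_ge]
  refine build ha (fun n m => ⟨(hβ n m).1, (b2 n m).lt_ss.le.trans (hβ n m).2⟩) hβ'
    (F := fun x => {m | ∀ s, ¬ Dead (κ x.1) x.2.1 (M x X) m s}) (fun x => ?_)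
    (fun n F h5 h6 => ?_) (Q := fun y A => ∃ σ s, L ((σ, y.2 + 1), 1, 2 ^ β y.1.1 y.2) A ∧
      T (((y.1, σ, 2 ^ β y.1.1 y.2), y.2, s, true), 2 ^ β y.1.1 y.2) A) ?_ fun x m => ?_
  · obtain ⟨k, w, h5, h6, h7⟩ := hX x
    rw [seg_length] at h5
    simp only [h3 X x k w _ h5] at h6
    refine ⟨(Set.finite_lt_nat (w + x.2.1 + 1)).subset fun m hm => ?_, fun h => h7 (h h6)⟩
    by_contra h8
    rw [Set.mem_ofPred_eq] at h8
    obtain ⟨s, hs⟩ := dead_high (m := m) (k1 x.1) h6 h7 (by omega) (by omega)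
    exact hm s hs
  · obtain ⟨N, hN⟩ := h5.bddAbove
    obtain ⟨y, -, hy⟩ := exists_bits (fun j => decide (j ∈ F)) (N + 1)
    have h7 := seg_congr.1 (hy _ le_rfl)
    obtain ⟨w, h8, h9⟩ := Set.not_subset.1 h6
    refine Set.infinite_of_injective_forall_mem (f := fun μ : ℕ => ((n, N + 1, (y, 0), μ) : En))
      (fun μ μ' e => by simpa using e) fun μ => ⟨rfl, Set.ext fun m => ?_⟩
    have h10 : ∀ m < N + 1, (∀ s, ¬ Dead (κ n) (N + 1) (M (n, N + 1, (y, 0), μ) X) m s) ↔ m ∈ F :=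
      fun m hm => (h4 (n, N + 1, (y, 0), μ) m hm).trans (by simp [h7 m hm])
    by_cases hm : m < N + 1
    · exact h10 m hm
    · have := hN h8
      obtain ⟨s, hs⟩ := dead_high (m := m) (k1 n) ((h10 w (by omega)).2 h8) h9 (by omega) (by omega)
      exact iff_of_false (fun h => h s hs) fun h => hm (Nat.lt_succ_of_le (hN h))
  · repeat' first
      | apply Sig.and | apply Sig.ex | (apply hL.comp; fun_prop) | (apply hT.comp; fun_prop)
  · simp only [eL _ _ _ _ (b1 _ _) (b1 _ _).one_le, eT _ _ (b1 _ _), H_one, exists_and_left,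
      exists_eq_left, (h2 _ _ _ (b1 _ _) _ KLe.rfl _).1, h3 X x _ m _ m.lt_succ_self,
      Set.mem_ofPred_eq, not_forall, not_not]

end Pool.Agent.Lib.MP_5290c5_lc
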