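import Pool.Agent.Shared.Oracle.FunProp
import Pool.Agent.Lib.MP_5290c5_lc.Defs

/-!
Predicates that are existential relative to an oracle, uniformly in the oracle.
-/

namespace Pool.Agent.Lib.MP_5290c5_lc

open Pool.Agent.Shared.Oracle Encodable Nat.Partrec

attribute [local irreducible] Computable

variable {α β : Type} [Primcodable α] [Primcodable β]

/-- Uniformly existential predicates of a parameter and an oracle. -/
def Sig (P : α → (ℕ → Bool) → Prop) : Prop :=
  ∃ p : α × List Bool → Prop, REPred p ∧ ∀ a A, P a A ↔ ∃ k, p (a, seg A k)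

namespace Sig

variable {P Q : α → (ℕ → Bool) → Prop}

theorem congr (h : Sig P) (e : ∀ a A, P a A ↔ Q a A) : Sig Q :=
  let ⟨p, hp, h⟩ := h
  ⟨p, hp, fun a A => (e a A).symm.trans (h a A)⟩

theorem nf (h : Sig P) : ∃ q : α → List Bool → Prop, PrimrecRel q ∧
    (∀ a σ τ, σ <+: τ → q a σ → q a τ) ∧ ∀ a A, P a A ↔ ∃ k, q a (seg A k) := by
  obtain ⟨p, hp, h⟩ := h
  obtain ⟨q, hq, e⟩ := re_normal hp
  refine ⟨fun a σ => ∃ j < σ.length + 1, ∃ t < σ.length + 1, q (a, σ.take j) t, ?_, ?_, ?_⟩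
  · have h1 : PrimrecRel fun (t : ℕ) (y : ℕ × α × List Bool) => q (y.2.1, y.2.2.take y.1) t :=
      hq.comp ((Primrec.fst.comp (Primrec.snd.comp Primrec.snd)).pair (Primrec.list_take.comp
        (Primrec.fst.comp Primrec.snd) (Primrec.snd.comp (Primrec.snd.comp Primrec.snd))))
        Primrec.fst
    have h2 := prim_exists_lt (Primrec.succ.comp (Primrec.list_length.comp
      (Primrec.snd.comp Primrec.snd))) h1
    exact prim_exists_lt (R := fun (j : ℕ) (y : α × List Bool) =>
      ∃ t < y.2.length + 1, q (y.1, y.2.take j) t)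
      (Primrec.succ.comp (Primrec.list_length.comp Primrec.snd)) h2
  · rintro a σ _ ⟨τ, rfl⟩ ⟨j, hj, t, ht, h⟩
    refine ⟨j, by simp; omega, t, by simp; omega, ?_⟩
    rwa [List.take_append_of_le_length (by omega)]
  · intro a A
    rw [h]
    constructor
    · rintro ⟨k, hk⟩
      obtain ⟨t, ht⟩ := (e _).1 hk
      refine ⟨k + t, k, by simp, t, by simp, ?_⟩
      rwa [seg_take A (by omega)]
    · rintro ⟨k, j, hj, t, -, h⟩
      rw [seg_length] at hj
      rw [seg_take A (by omega)] at h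
      exact ⟨j, (e _).2 ⟨t, h⟩⟩

theorem of_re {p : α → Prop} (hp : REPred p) : Sig fun a _ => p a :=
  ⟨fun x => p x.1, re_comp hp Computable.fst, fun _ _ => by simp⟩

theorem to_re {p : α → Prop} (h : Sig fun a _ => p a) : REPred p := by
  obtain ⟨q, hq, h⟩ := h
  have h1 : Computable fun x : α × ℕ => (x.1, seg (fun _ => false) x.2) :=
    Computable.fst.pair ((FP.c_map (g := fun _ _ => false) (FP.c_range Computable.snd)
      (Computable.const _)))
  exact (re_exists (R := fun a k => q (a, seg (fun _ => false) k)) (re_comp hq h1)).of_eq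
    fun a => (h a _).symm

theorem comp {P : β → (ℕ → Bool) → Prop} {f : α → β} (h : Sig P) (hf : Computable f) :
    Sig fun a A => P (f a) A := by
  obtain ⟨p, hp, h⟩ := h
  exact ⟨fun x => p (f x.1, x.2), re_comp hp (by fun_prop), fun a A => h _ _⟩

theorem or (hP : Sig P) (hQ : Sig Q) : Sig fun a A => P a A ∨ Q a A := by
  obtain ⟨p, hp, h⟩ := hP
  obtain ⟨q, hq, h'⟩ := hQ
  exact ⟨_, re_or hp hq, fun a A => by beta_reduce; rw [h, h', exists_or]⟩

theorem and (hP : Sig P) (hQ : Sig Q) : Sig fun a A => P a A ∧ Q a A := by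
  obtain ⟨p, hp, mp, h⟩ := hP.nf
  obtain ⟨q, hq, mq, h'⟩ := hQ.nf
  refine ⟨fun x => p x.1 x.2 ∧ q x.1 x.2, re_of_prim (PrimrecPred.and hp hq), fun a A => ?_⟩
  beta_reduce
  rw [h, h']
  constructor
  · rintro ⟨⟨k, h1⟩, l, h2⟩
    exact ⟨k + l, mp _ _ _ (seg_prefix A (by omega)) h1, mq _ _ _ (seg_prefix A (by omega)) h2⟩
  · rintro ⟨k, h1, h2⟩
    exact ⟨⟨k, h1⟩, k, h2⟩

theorem ex {P : α → β → (ℕ → Bool) → Prop} (h : Sig fun (x : α × β) A => P x.1 x.2 A) :
    Sig fun a A => ∃ b, P a b A := by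
  obtain ⟨p, hp, h⟩ := h
  refine ⟨fun x => ∃ b, p ((x.1, b), x.2), re_exists (R := fun (x : α × List Bool) b =>
    p ((x.1, b), x.2)) (re_comp hp (by fun_prop)), fun a A => ?_⟩
  rw [exists_comm]
  exact exists_congr fun b => h (a, b) A

theorem ball {P : α → ℕ → (ℕ → Bool) → Prop} {f : α → ℕ} (hf : Computable f)
    (h : Sig fun (x : α × ℕ) A => P x.1 x.2 A) : Sig fun a A => ∀ j < f a, P a j A := by
  obtain ⟨q, hq, mq, h⟩ := h.nf
  have h1 : PrimrecRel fun (j : ℕ) (y : ℕ × α × List Bool) => q (y.2.1, j) y.2.2 :=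
    hq.comp ((Primrec.fst.comp (Primrec.snd.comp Primrec.snd)).pair Primrec.fst)
      (Primrec.snd.comp (Primrec.snd.comp Primrec.snd))
  have h2 := re_of_prim (prim_forall_lt Primrec.fst h1)
  refine ⟨fun x => ∀ j < f x.1, q (x.1, j) x.2, re_comp (f := fun x : α × List Bool =>
    (f x.1, x.1, x.2)) h2 (by fun_prop), fun a A => ⟨fun H => ?_, fun ⟨k, hk⟩ j hj =>
      (h (a, j) A).2 ⟨k, hk j hj⟩⟩⟩
  dsimp only at H ⊢
  generalize f a = n at H
  induction n with
  | zero => exact ⟨0, by simp⟩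
  | succ n ih =>
    obtain ⟨k, hk⟩ := ih fun j hj => H j (by omega)
    obtain ⟨l, hl⟩ := (h (a, n) A).1 (H n (by omega))
    refine ⟨k + l, fun j hj => ?_⟩
    rcases (Nat.lt_succ_iff.1 hj).eq_or_lt with rfl | hlt
    · exact mq _ _ _ (seg_prefix A (by omega)) hl
    · exact mq _ _ _ (seg_prefix A (by omega)) (hk j hlt)

theorem bool {f : α → Bool} (hf : Computable f) : Sig fun a _ => f a = true :=
  of_re (ComputablePred.to_re ⟨inferInstance, hf.of_eq fun a => by simp⟩)

theorem dec {p : α → Prop} (hp : Computable fun a => @decide (p a) (Classical.propDecidable _)) :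
    Sig fun a _ => p a :=
  (bool hp).congr fun _ _ => by simp

theorem orc {f : α → ℕ} {g : α → Bool} (hf : Computable f) (hg : Computable g) :
    Sig fun a A => A (f a) = g a := by
  classical
  refine ⟨fun x => x.2[f x.1]? = some (g x.1), ComputablePred.to_re ⟨inferInstance, by fun_prop⟩,
    fun a A => ⟨fun h => ⟨f a + 1, by
      dsimp only; rw [seg_getElem?, if_pos (by omega)]; exact congrArg _ h⟩, fun ⟨k, hk⟩ => ?_⟩⟩
  simp only [seg_getElem?] at hk
  split_ifs at hk
  exact Option.some.inj hk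

theorem mem_eval {c : α → Code} {n v : α → ℕ} (hc : Computable c) (hn : Computable n)
    (hv : Computable v) : Sig fun a _ => v a ∈ Code.eval (c a) (n a) :=
  of_re (re_comp (f := fun a => ((c a, n a), v a))
    (re_mem (f := fun p : Code × ℕ => Code.eval p.1 p.2) Code.eval_part) (by fun_prop))

theorem mem_phi {e n v : α → ℕ} (he : Computable e) (hn : Computable n)
    (hv : Computable v) : Sig fun a _ => v a ∈ phi (e a) (n a) :=
  mem_eval (by fun_prop) hn hv

theorem dom_phi {e n : α → ℕ} (he : Computable e) (hn : Computable n) :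
    Sig fun a _ => (phi (e a) (n a)).Dom :=
  (ex (P := fun a v _ => v ∈ phi (e a) (n a)) (mem_phi (by fun_prop) (by fun_prop)
    (by fun_prop))).congr fun _ _ => Part.dom_iff_mem.symm

end Sig

theorem jump_iff {A : ℕ → Bool} {e : ℕ} :
    jump A e = true ↔ ∃ k, (phi e (encode (seg A k))).Dom := by
  simp [jump, seg]

theorem Sig.jmp {f : α → ℕ} (hf : Computable f) : Sig fun a A => jump A (f a) = true :=
  ⟨fun x => (phi (f x.1) (encode x.2)).Dom, (Sig.dom_phi (by fun_prop) (by fun_prop)).to_re,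
    fun _ _ => jump_iff⟩

/-- Indices for existential predicates. -/
theorem Sig.index {P : α → (ℕ → Bool) → Prop} (h : Sig P) :
    ∃ g : α → ℕ, Computable g ∧ ∀ a A, jump A (g a) = true ↔ P a A := by
  obtain ⟨p, hp, h⟩ := h
  obtain ⟨c, hc⟩ := Code.exists_code.1 hp
  refine ⟨fun a => encode (c.curry (encode a)), by fun_prop, fun a A => ?_⟩
  rw [h, jump_iff]
  refine exists_congr fun k => ?_
  rw [phi, Denumerable.ofNat_encode, Code.eval_curry, hc]
  have : Nat.pair (encode a) (encode (seg A k)) = encode (a, seg A k) := rfl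
  rw [this]
  simp [-Encodable.encode_prod_val, Part.assert]

/-- The recursion theorem for existential predicates. -/
theorem Sig.recursion {P : Code × α → (ℕ → Bool) → Prop} (h : Sig P) :
    ∃ (t : α → ℕ) (c : Code), Computable t ∧ (∀ a v, v ∈ c.eval (encode a) ↔ v = t a) ∧
      ∀ a A, jump A (t a) = true ↔ P (c, a) A := by
  obtain ⟨g, hg, h⟩ := h.index
  have h1 : Partrec₂ fun (c : Code) (n : ℕ) =>
      (((decode n : Option α).map fun a => g (c, a) : Option ℕ) : Part ℕ) :=
    Computable.ofOption (Computable.option_map (f := fun x : Code × ℕ => (decode x.2 : Option α))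
      (g := fun (x : Code × ℕ) (a : α) => g (x.1, a)) (by fun_prop)
      (Computable.to₂ (f := fun y : (Code × ℕ) × α => g (y.1.1, y.2)) (by fun_prop)))
  obtain ⟨c, hc⟩ := Code.fixed_point₂ h1
  exact ⟨fun a => g (c, a), c, by fun_prop, fun a v => by simp [hc], fun a A => h _ _⟩

/-- Replacing the oracle by a set that is given by an existential predicate. -/
theorem Sig.subst {P : α → (ℕ → Bool) → Prop} {Q : β × ℕ × Bool → (ℕ → Bool) → Prop}
    (hP : Sig P) (hQ : Sig Q) : ∃ R : α × β → (ℕ → Bool) → Prop, Sig R ∧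
      ∀ a b A B, (∀ j i, Q (b, j, i) A ↔ B j = i) → (R (a, b) A ↔ P a B) := by
  obtain ⟨p, hp, h⟩ := hP
  refine ⟨fun x A => ∃ ρ : List Bool, p (x.1, ρ) ∧ ∀ j < ρ.length, Q (x.2, j, ρ.getD j false) A,
    Sig.ex (Sig.and ((Sig.of_re hp).comp (by fun_prop)) (Sig.ball (by fun_prop)
      (hQ.comp (f := fun y : ((α × β) × List Bool) × ℕ => (y.1.1.2, y.2, y.1.2.getD y.2 false))
        (by fun_prop)))), fun a b A B e => ?_⟩
  simp only [e, h]
  constructor
  · rintro ⟨ρ, h1, h2⟩
    refine ⟨ρ.length, ?_⟩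
    have : seg B ρ.length = ρ := by
      apply List.ext_getElem (by simp)
      intro i h3 h4
      simp [seg, h2 i h4, h4]
    rwa [this]
  · rintro ⟨k, hk⟩
    exact ⟨_, hk, fun j hj => by simp at hj; simp [seg, hj]⟩

/-- Existential relative to a fixed oracle. -/
def SigIn (Z : ℕ → Bool) (p : α → Prop) : Prop := ∃ P, Sig P ∧ ∀ a, p a ↔ P a Z

/-- Turing reducibility of sets. -/
def Red (A B : ℕ → Bool) : Prop := SigIn B fun x : ℕ × Bool => A x.1 = x.2

theorem Sig.sigIn {P : α → (ℕ → Bool) → Prop} (h : Sig P) (Z : ℕ → Bool) :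
    SigIn Z fun a => P a Z := ⟨P, h, fun _ => Iff.rfl⟩

namespace SigIn

variable {Z : ℕ → Bool} {p q : α → Prop}

theorem congr (h : SigIn Z p) (e : ∀ a, p a ↔ q a) : SigIn Z q :=
  let ⟨P, hP, h⟩ := h
  ⟨P, hP, fun a => (e a).symm.trans (h a)⟩

theorem comp {p : β → Prop} {f : α → β} (h : SigIn Z p) (hf : Computable f) :
    SigIn Z fun a => p (f a) :=
  let ⟨_, hP, h⟩ := h
  ⟨_, hP.comp hf, fun _ => h _⟩

theorem or (hp : SigIn Z p) (hq : SigIn Z q) : SigIn Z fun a => p a ∨ q a :=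
  let ⟨_, hP, h⟩ := hp
  let ⟨_, hQ, h'⟩ := hq
  ⟨_, hP.or hQ, fun a => or_congr (h a) (h' a)⟩

theorem and (hp : SigIn Z p) (hq : SigIn Z q) : SigIn Z fun a => p a ∧ q a :=
  let ⟨_, hP, h⟩ := hp
  let ⟨_, hQ, h'⟩ := hq
  ⟨_, hP.and hQ, fun a => and_congr (h a) (h' a)⟩

theorem ex {p : α → β → Prop} (h : SigIn Z fun x : α × β => p x.1 x.2) :
    SigIn Z fun a => ∃ b, p a b :=
  let ⟨P, hP, h⟩ := h
  ⟨_, Sig.ex (P := fun a b A => P (a, b) A) hP, fun a => exists_congr fun b => h (a, b)⟩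

theorem ball {p : α → ℕ → Prop} {f : α → ℕ} (hf : Computable f)
    (h : SigIn Z fun x : α × ℕ => p x.1 x.2) : SigIn Z fun a => ∀ j < f a, p a j :=
  let ⟨P, hP, h⟩ := h
  ⟨_, Sig.ball (P := fun a b A => P (a, b) A) hf hP,
    fun a => forall_congr' fun j => imp_congr_right fun _ => h (a, j)⟩

theorem dec (hp : Computable fun a => @decide (p a) (Classical.propDecidable _)) : SigIn Z p :=
  (Sig.dec hp).sigIn Z

theorem of_re (hp : REPred p) : SigIn Z p := (Sig.of_re hp).sigIn Z

theorem red {Y : ℕ → Bool} (h : SigIn Z p) (hZ : Red Z Y) : SigIn Y p := by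
  obtain ⟨P, hP, h⟩ := h
  obtain ⟨Q, hQ, h'⟩ := hZ
  obtain ⟨R, hR, e⟩ := Sig.subst hP (hQ.comp (f := fun x : Unit × ℕ × Bool => x.2) (by fun_prop))
  exact ⟨_, hR.comp (f := fun a => (a, ())) (by fun_prop), fun a =>
    (h a).trans (e a () Y Z fun j i => (h' (j, i)).symm).symm⟩

theorem index (h : SigIn Z p) : ∃ g : α → ℕ, Computable g ∧ ∀ a, jump Z (g a) = true ↔ p a := by
  obtain ⟨P, hP, h⟩ := h
  obtain ⟨g, hg, e⟩ := hP.index
  exact ⟨g, hg, fun a => (e a Z).trans (h a).symm⟩

theorem pos_jump (h : SigIn Z p) : SigIn (jump Z) p := by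
  obtain ⟨g, hg, e⟩ := h.index
  exact ((Sig.orc hg (Computable.const true)).sigIn _).congr e

theorem neg_jump (h : SigIn Z p) : SigIn (jump Z) fun a => ¬ p a := by
  obtain ⟨g, hg, e⟩ := h.index
  exact ((Sig.orc hg (Computable.const false)).sigIn _).congr fun a => by simp [← e]

theorem nf (h : SigIn Z p) : ∃ q : α → ℕ → Bool,
    ComputableIn {orc Z} (fun x : α × ℕ => q x.1 x.2) ∧ ∀ a, p a ↔ ∃ k, q a k = true := by
  classical
  obtain ⟨P, hP, h⟩ := h
  obtain ⟨q, hq, -, e⟩ := hP.nf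
  refine ⟨fun a k => decide (q a (seg Z k)), ?_, fun a => by simp [h, e]⟩
  exact cin_comp₂ (f := fun a σ => decide (q a σ)) hq.decide.computableIn₂ ComputableIn.fst
    (cin_comp (f := seg Z) (cin_seg (cin_orc rfl)) ComputableIn.snd)

theorem of_cin {f : α → Bool} (hf : ComputableIn {orc Z} f) : SigIn Z fun a => f a = true := by
  obtain ⟨F, hF, e⟩ := use_principle hf
  refine ⟨fun a A => ∃ k, 1 ∈ F (seg A k) (encode a), ⟨fun x => 1 ∈ F x.2 (encode x.1),
    re_comp (f := fun x : α × List Bool => ((x.2, encode x.1), 1)) (re_mem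
      (f := fun p : List Bool × ℕ => F p.1 p.2) hF.partrec) (by fun_prop), fun _ _ => Iff.rfl⟩,
    fun a => ?_⟩
  beta_reduce
  rw [← e]
  cases h : f a <;> simp [h]

end SigIn

theorem red_iff {A B : ℕ → Bool} : Red A B ↔ ComputableIn {orc B} A := by
  constructor
  · intro h
    obtain ⟨q, hq, e⟩ := h.nf
    have h1 : ComputableIn₂ {orc B} fun n k => q (n, true) k || q (n, false) k :=
      cin_comp₂ (f := or) Primrec.or.computableIn₂
        (cin_comp (g := fun x : ℕ × ℕ => ((x.1, true), x.2)) hq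
          (Computable.computableIn (by fun_prop)))
        (cin_comp (g := fun x : ℕ × ℕ => ((x.1, false), x.2)) hq
          (Computable.computableIn (by fun_prop)))
    have hex : ∀ n, ∃ k, (q (n, true) k || q (n, false) k) = true := by
      intro n
      obtain ⟨k, hk⟩ := (e (n, A n)).1 rfl
      refine ⟨k, ?_⟩
      cases h : A n <;> simp_all
    have h2 := cin_comp hq (cin_pair (Computable.computableIn
      (f := fun n : ℕ => (n, true)) (by fun_prop)) (cin_find h1 hex))
    refine cin_of_eq h2 fun n => ?_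
    have h3 := Nat.find_spec (hex n)
    cases h : q (n, true) (Nat.find (hex n))
    · rw [h, Bool.false_or] at h3
      exact ((e (n, false)).2 ⟨_, h3⟩).symm
    · exact ((e (n, true)).2 ⟨_, h⟩).symm
  · intro h
    classical
    have h1 : ComputableIn {orc B} fun x : ℕ × Bool => decide (A x.1 = x.2) :=
      cin_comp₂ (f := fun a b : Bool => decide (a = b)) Primrec.eq.decide.computableIn₂
        (cin_comp h ComputableIn.fst) ComputableIn.snd
    exact (SigIn.of_cin h1).congr fun x => by simp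

theorem degree_le {A B : ℕ → Bool} : degree A ≤ degree B ↔ Red A B :=
  (red_iff.trans orc_iff.symm).symm

theorem Red.refl (A : ℕ → Bool) : Red A A := (Sig.orc Computable.fst Computable.snd).sigIn A

theorem Red.trans {A B C : ℕ → Bool} (h : Red A B) (h' : Red B C) : Red A C := SigIn.red h h'

theorem SigIn.orc {Z A : ℕ → Bool} (h : Red A Z) {f : α → ℕ} {g : α → Bool} (hf : Computable f)
    (hg : Computable g) : SigIn Z fun a => A (f a) = g a :=
  SigIn.comp (f := fun a => (f a, g a)) h (by fun_prop)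

theorem Sig.red {P : α → (ℕ → Bool) → Prop} (h : Sig P) {A Z : ℕ → Bool} (hA : Red A Z) :
    SigIn Z fun a => P a A := (h.sigIn A).red hA

end Pool.Agent.Lib.MP_5290c5_lc
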