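import Pool.Agent.Lib.MP_5290c5_lc.Main

/-!
The degree of an iterated jump depends only on the ordinal denoted.
-/

namespace Pool.Agent.Lib.MP_5290c5_lc

open Pool.Agent.Shared.Oracle Encodable Nat.Partrec

attribute [local irreducible] Computable

theorem Denotes.inO {a : ℕ} {α : Ordinal.{0}} (h : Denotes a α) : InO a := by
  induction h with
  | one => exact Or.inl rfl
  | succ _ ih => exact ih.succ
  | lim h1 h2 _ _ => exact Fund.lim ⟨h1, h2⟩

theorem Denotes.unique {a : ℕ} {α β : Ordinal.{0}} (h : Denotes a α) (h' : Denotes a β) :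
    α = β := by
  induction h generalizing β with
  | one =>
    generalize hc : 1 = c at h'
    cases h' with
    | one => rfl
    | succ h => exact absurd hc h.inO.one_ne
    | lim _ _ _ => exact absurd hc (one_ne_lim _)
  | @succ a A h ih =>
    generalize hc : 2 ^ a = c at h'
    cases h' with
    | one => exact absurd hc.symm h.inO.one_ne
    | succ h => obtain rfl := pow_inj hc; rw [ih h]
    | lim _ _ _ => exact absurd hc (pow_ne_lim _ _)
  | @lim e f A h1 _ _ ih =>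
    generalize hc : 3 * 5 ^ e = c at h'
    cases h' with
    | one => exact absurd hc.symm (one_ne_lim _)
    | succ h => exact absurd hc.symm (pow_ne_lim _ _)
    | lim h2 _ h3 =>
      obtain rfl := lim_inj hc
      obtain rfl := Fund.unique h1 h2
      rw [funext fun n => ih n (h3 n)]

/-- The ordinal denoted by a notation. -/
noncomputable def ord (a : ℕ) : Ordinal.{0} := Classical.epsilon (Denotes a)

theorem Denotes.eq {a : ℕ} {α : Ordinal.{0}} (h : Denotes a α) : ord a = α :=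
  (Classical.epsilon_spec ⟨α, h⟩).unique h

theorem InO.denotes {a : ℕ} (h : InO a) : Denotes a (ord a) :=
  h.ind (P := fun a => Denotes a (ord a)) (Denotes.one.eq ▸ .one) (fun _ _ h => h.succ.eq ▸ h.succ)
    fun _ _ hf h => (Denotes.lim hf.1 hf.2 h).eq ▸ .lim hf.1 hf.2 h

theorem ord_one : ord 1 = 0 := Denotes.one.eq

theorem ord_succ {b : ℕ} (h : InO b) : ord (2 ^ b) = ord b + 1 := h.denotes.succ.eq

theorem ord_lim {e : ℕ} {f : ℕ → ℕ} (h : Fund e f) : ord (3 * 5 ^ e) = ⨆ n, ord (f n) :=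
  (Denotes.lim h.1 h.2 fun n => (h.inO n).denotes).eq

theorem KLt.ord_lt {x y : ℕ} (h : KLt x y) : ord x < ord y := by
  induction h with
  | one => rw [show ord 2 = ord 1 + 1 from ord_succ (Or.inl rfl)]; exact lt_add_one _
  | succ h _ => rw [ord_succ h.right]; exact lt_add_one _
  | @lim e f h1 h2 n ih =>
    rw [ord_lim ⟨h1, h2⟩]
    exact (ih n).trans_le (Ordinal.le_iSup (fun n => ord (f n)) _)
  | trans _ _ ih ih' => exact ih.trans ih'

theorem InO.exists_below {a : ℕ} (h : InO a) {β : Ordinal.{0}} :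
    β < ord a → ∃ b, KLt b a ∧ ord b = β := by
  refine h.ind (P := fun a => β < ord a → ∃ b, KLt b a ∧ ord b = β) (by simp [ord_one])
    (fun b hb ih h => ?_) fun e f hf ih h => ?_
  · rw [ord_succ hb, Order.lt_add_one_iff] at h
    rcases h.eq_or_lt with h | h
    · exact ⟨b, hb.lt_succ, h.symm⟩
    · exact (ih h).imp fun c hc => ⟨hc.1.trans hb.lt_succ, hc.2⟩
  · rw [ord_lim hf, Ordinal.lt_iSup_iff] at h
    obtain ⟨n, h⟩ := h
    exact (ih n h).imp fun c hc => ⟨hc.1.trans (hf.lt n), hc.2⟩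

theorem le_succ_iff {x y : ℕ} (hy : InO y) : x ≠ 0 ∧ Le (2 ^ x) y ↔ KLt x y := by
  rw [le_iff hy]
  exact ⟨fun h => ((h.2.left hy).pred h.1).lt_succ.trans_le h.2, fun h => ⟨h.left.pos, h.succ_le⟩⟩

theorem exists_cmp_ord : ∃ C : ℕ × ℕ → (ℕ → Bool) → Prop, Sig C ∧ ∀ X y, InO y → ∀ x, InO x →
    (C (x, y) (H X (2 ^ 2 ^ y)) ↔ ord x ≤ ord y) := by
  have h1 : Sig fun (z : Code × ℕ × ℕ) A => ∃ n y v, y ∈ phi z.2.2 n ∧
      v ∈ z.1.eval (encode (z.2.1, y)) ∧ JL v (2 ^ 2 ^ y) (3 * 5 ^ z.2.2) A := by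
    repeat' first
      | apply Sig.and | apply Sig.ex | (apply Sig.mem_phi <;> fun_prop)
      | (apply Sig.mem_eval <;> fun_prop) | (apply Sig.jl <;> fun_prop)
  obtain ⟨s, hs, es⟩ := h1.index
  have h2 : Sig fun (z : Code × ℕ × ℕ) A => ∃ x, (x ≠ 0 ∧ Le (2 ^ x) z.2.1) ∧
      A (s (z.1, x, z.2.2)) = false := by
    repeat' first
      | apply Sig.and | (apply Sig.le <;> fun_prop) | apply Sig.ex
      | (apply Sig.orc <;> fun_prop) | (apply Sig.dec; fun_prop)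
  obtain ⟨s', hs', es'⟩ := h2.index
  have h3 : Sig fun (z : Code × ℕ × ℕ) A => (z.2.2 = 1 ∧ z.2.1 = 1) ∨
      (∃ y x v, z.2.2 = 2 ^ y ∧ y ≠ 0 ∧ (x = z.2.1 ∨ (z.2.1 = 2 ^ x ∧ x ≠ 0)) ∧
        v ∈ z.1.eval (encode (x, y)) ∧ JL v (2 ^ 2 ^ y) (2 ^ 2 ^ z.2.2) A) ∨
      ∃ d, z.2.2 = 3 * 5 ^ d ∧ A (s' (z.1, z.2.1, d)) = false := by
    repeat' first
      | apply Sig.or | apply Sig.and | apply Sig.ex | (apply Sig.mem_eval <;> fun_prop)
      | (apply Sig.jl <;> fun_prop) | (apply Sig.orc <;> fun_prop) | (apply Sig.dec; fun_prop)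
  obtain ⟨t, k, ht, hk, et⟩ := h3.recursion
  simp only [hk, Prod.forall] at et
  refine ⟨_, Sig.jmp ht, fun X y hy => hy.ind (P := fun y => ∀ x, InO x →
    (jump (H X (2 ^ 2 ^ y)) (t (x, y)) = true ↔ ord x ≤ ord y)) (fun x hx => ?_)
    (fun y hy ih x hx => ?_) fun e f hf ih x hx => ?_⟩
  · rw [et]
    constructor
    · rintro (⟨-, rfl⟩ | ⟨y, x, v, h, h0, -⟩ | ⟨d, h, -⟩)
      · exact le_rfl
      · exact absurd (pow_inj (a := 0) h).symm h0
      · exact absurd h (one_ne_lim _)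
    · exact fun h => Or.inl ⟨rfl, (hx.one_le.resolve_right fun h' => h'.ord_lt.not_ge h).symm⟩
  · have h4 : ∀ x, InO x → (JL (t (x, y)) (2 ^ 2 ^ y) (2 ^ 2 ^ 2 ^ y) (H X (2 ^ 2 ^ 2 ^ y)) ↔
        ord x ≤ ord y) := fun x hx => by
      rw [jl_iff hy.succ.succ.succ hy.succ.succ.lt_succ.le, ih x hx]
    rw [et, ord_succ hy]
    constructor
    · rintro (⟨h, -⟩ | ⟨y', x', v, h, -, h5, rfl, h6⟩ | ⟨d, h, -⟩)
      · exact absurd h.symm hy.one_ne
      · obtain rfl := pow_inj h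
        rcases h5 with rfl | ⟨rfl, h5⟩
        · exact ((h4 _ hx).1 h6).trans (lt_add_one _).le
        · rw [ord_succ (hx.pred h5)]
          exact add_le_add_left ((h4 _ (hx.pred h5)).1 h6) _
      · exact absurd h (pow_ne_lim _ _)
    · intro h
      refine Or.inr (Or.inl ?_)
      rcases hx.cases with rfl | ⟨x, rfl, h5⟩ | ⟨e, f, rfl, hf⟩
      · exact ⟨y, 1, _, rfl, hy.pos, Or.inl rfl, rfl, (h4 _ hx).2 (by simp [ord_one])⟩
      · rw [ord_succ h5, Order.add_one_le_iff, Order.lt_add_one_iff] at h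
        exact ⟨y, x, _, rfl, hy.pos, Or.inr ⟨rfl, h5.pos⟩, rfl, (h4 _ h5).2 h⟩
      · refine ⟨y, _, _, rfl, hy.pos, Or.inl rfl, rfl, (h4 _ hx).2 ?_⟩
        rw [ord_lim hf]
        exact Ordinal.iSup_le fun n => Order.lt_add_one_iff.1 ((hf.lt n).ord_lt.trans_le h)
  · have h4 : ∀ x, InO x → (jump (H X (3 * 5 ^ e)) (s (k, x, e)) = true ↔
        ∃ n, ord x ≤ ord (f n)) := fun x hx => by
      rw [es]
      refine exists_congr fun n => ?_
      simp only [hf.eq, hk, exists_and_left, exists_eq_left]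
      rw [jl_iff hf.lim (hf.lt n).succ_lt_lim.succ_lt_lim.le, ih n x hx]
    have h5 : H X (2 ^ 2 ^ (3 * 5 ^ e)) (s' (k, x, e)) = false ↔ ord x ≤ ord (3 * 5 ^ e) := by
      rw [H_succ _ hf.lim.succ, ← Bool.not_eq_true, es', H_succ _ hf.lim]
      simp only [le_succ_iff hx, not_exists, not_and, Bool.not_eq_false]
      refine ⟨fun h => not_lt.1 fun h' => ?_, fun h x' h' => (h4 _ h'.left).2 ?_⟩
      · obtain ⟨x', a1, a2⟩ := hx.exists_below h'
        obtain ⟨n, hn⟩ := (h4 _ a1.left).1 (h x' a1)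
        exact (hf.lt n).ord_lt.not_ge (a2 ▸ hn)
      · have := h'.ord_lt.trans_le h
        rw [ord_lim hf, Ordinal.lt_iSup_iff] at this
        exact this.imp fun _ => le_of_lt
    rw [et, ← h5]
    refine ⟨?_, fun h => Or.inr (Or.inr ⟨e, rfl, h⟩)⟩
    rintro (⟨h, -⟩ | ⟨y', x', v, h, -⟩ | ⟨d, h, h6⟩)
    · exact absurd h.symm (one_ne_lim _)
    · exact absurd h.symm (pow_ne_lim _ _)
    · obtain rfl := lim_inj h
      exact h6

theorem spector (X : ℕ → Bool) {x y : ℕ} (hx : InO x) (hy : InO y) (h : ord x ≤ ord y) :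
    Red (H X x) (H X y) := by
  obtain ⟨C, hC, eC⟩ := exists_cmp_ord
  obtain ⟨L, hL, eL⟩ := hC.lift
  have h1 : Sig fun (z : (Code × ℕ × ℕ) × ℕ × Bool) A =>
      ∃ v, v ∈ z.1.1.eval (encode (z.1.2.1, z.1.2.2, z.2.1, z.2.2)) ∧ jump A v = true := by
    repeat' first
      | apply Sig.and | apply Sig.ex | (apply Sig.jmp; fun_prop) | (apply Sig.mem_eval <;> fun_prop)
  obtain ⟨R, hR, eR⟩ := (Sig.jmp (α := ℕ) Computable.id).subst h1
  obtain ⟨s, hs, es⟩ := hR.index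
  have h2 : Sig fun (z : Code × ℕ × ℕ × ℕ × Bool) A =>
      (z.2.1 = 1 ∧ ∃ m, Up 1 z.2.2.2.1 z.2.2.1 m ∧ A m = z.2.2.2.2) ∨
      (∃ x y, z.2.1 = 2 ^ x ∧ x ≠ 0 ∧ y ≠ 0 ∧ (z.2.2.1 = 2 ^ y ∨
        (Le (2 ^ 2 ^ y) z.2.2.1 ∧ L ((x, y), 2 ^ 2 ^ y, z.2.2.1) A)) ∧
        ∃ m, Up (2 ^ y) (s (z.2.2.2.1, z.1, x, y)) z.2.2.1 m ∧ A m = z.2.2.2.2) ∨
      ∃ d x v, z.2.1 = 3 * 5 ^ d ∧ x ∈ phi d z.2.2.2.1.unpair.1 ∧
        v ∈ z.1.eval (encode (x, z.2.2.1, z.2.2.2.1.unpair.2, z.2.2.2.2)) ∧ jump A v = true := by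
    repeat' first
      | apply Sig.or | apply Sig.and | (apply Sig.le <;> fun_prop) | apply Sig.ex
      | (apply hL.comp; fun_prop) | (apply Sig.orc <;> fun_prop) | (apply Sig.mem_phi <;> fun_prop)
      | (apply Sig.mem_eval <;> fun_prop) | (apply Sig.up <;> fun_prop)
      | (apply Sig.jmp; fun_prop) | (apply Sig.dec; fun_prop)
  obtain ⟨t, k, ht, hk, et⟩ := h2.recursion
  simp only [hk, Prod.forall] at et
  suffices h3 : ∀ y, InO y → ord x ≤ ord y → ∀ n i,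
      jump (H X y) (t (x, y, n, i)) = true ↔ H X x n = i from
    ((Sig.jmp (f := fun z : ℕ × Bool => t (x, y, z.1, z.2)) (by fun_prop)).sigIn _).congr
      fun z => h3 y hy h z.1 z.2
  refine hx.ind (P := fun x => ∀ y, InO y → ord x ≤ ord y → ∀ n i,
    jump (H X y) (t (x, y, n, i)) = true ↔ H X x n = i) (fun y hy _ n i => ?_)
    (fun x hx ih y hy h n i => ?_) fun e f hf ih y hy h n i => ?_
  · rw [et, ← up_iff hy hy.one_le]
    refine ⟨?_, fun h => Or.inl ⟨rfl, h⟩⟩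
    rintro (⟨-, h⟩ | ⟨x, y, h, h0, -⟩ | ⟨d, x, v, h, -⟩)
    · exact h
    · exact absurd (pow_inj (a := 0) h).symm h0
    · exact absurd h (one_ne_lim _)
  · have h4 : ∀ y', KLt y' y → ord x ≤ ord y' → ((∃ m, Up (2 ^ y') (s (n, k, x, y')) y m ∧
        H X y m = i) ↔ H X (2 ^ x) n = i) := fun y' a1 a2 => by
      rw [up_iff hy a1.succ_le, H_succ _ a1.left, H_succ _ hx]
      refine Eq.congr_left (Bool.eq_iff_iff.2 ?_)
      rw [es]
      refine eR n (k, x, y') _ _ fun j i => ?_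
      simp only [hk, exists_eq_left]
      exact ih y' a1.left a2 j i
    rw [ord_succ hx] at h
    rw [et]
    constructor
    · rintro (⟨h5, -⟩ | ⟨x', y', h5, -, h6, h7 | ⟨h7, h8⟩, h9⟩ | ⟨d, x, v, h5, -⟩)
      · exact absurd h5.symm hx.one_ne
      · obtain rfl := pow_inj h5
        subst h7
        rw [ord_succ (hy.pred h6), Order.add_one_le_iff, Order.lt_add_one_iff] at h
        exact (h4 _ (hy.pred h6).lt_succ h).1 h9
      · obtain rfl := pow_inj h5
        rw [le_iff hy] at h7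
        have h10 := ((h7.left hy).pred (by positivity)).pred h6
        rw [eL _ _ _ _ hy h7, eC X _ h10 _ hx] at h8
        exact (h4 _ (h10.lt_ss.trans_le h7) h8).1 h9
      · exact absurd h5 (pow_ne_lim _ _)
    · intro h5
      refine Or.inr (Or.inl ?_)
      rcases hy.cases with rfl | ⟨y, rfl, h6⟩ | ⟨e, f, rfl, hf⟩
      · simp [ord_one] at h
      · rw [ord_succ h6, Order.add_one_le_iff, Order.lt_add_one_iff] at h
        exact ⟨x, y, rfl, hx.pos, h6.pos, Or.inl rfl, (h4 _ h6.lt_succ h).2 h5⟩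
      · rw [ord_lim hf, Order.add_one_le_iff, Ordinal.lt_iSup_iff] at h
        obtain ⟨j, hj⟩ := h
        have h7 := (hf.lt j).succ_lt_lim.succ_lt_lim.le
        exact ⟨x, f j, rfl, hx.pos, (hf.inO j).pos, Or.inr ⟨(le_iff hy).2 h7,
          (eL _ _ _ _ hy h7).2 ((eC X _ (hf.inO j) _ hx).2 hj.le)⟩, (h4 _ (hf.lt j) hj.le).2 h5⟩
  · rw [et, H_lim _ hf, ← ih _ y hy ((hf.lt _).ord_lt.le.trans h)]
    refine ⟨?_, fun h => Or.inr (Or.inr ⟨e, _, _, rfl, hf.1 _, rfl, h⟩)⟩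
    rintro (⟨h5, -⟩ | ⟨x, y, h5, -⟩ | ⟨d, x, v, h5, h6, rfl, h7⟩)
    · exact absurd h5.symm (one_ne_lim _)
    · exact absurd h5.symm (pow_ne_lim _ _)
    · obtain rfl := lim_inj h5
      obtain rfl := hf.eq.1 h6
      exact h7

theorem degree_H (X : ℕ → Bool) {x y : ℕ} (hx : InO x) (hy : InO y) (h : ord x = ord y) :
    degree (H X x) = degree (H X y) :=
  le_antisymm (degree_le.2 (spector X hx hy h.le)) (degree_le.2 (spector X hy hx h.ge))

theorem jumpSp_eq (G : Type) [AddCommGroup G] {x y : ℕ} (hx : InO x) (hy : InO y)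
    (h : ord x = ord y) : JumpSp G x = JumpSp G y := Set.ext fun d => by
  simp only [mem_jumpSp hx, mem_jumpSp hy, degree_H _ hx hy h]

theorem four_lt {a : ℕ} (ha : InO a) (h : 2 < ord a) : KLt 4 a := by
  have h2 : ord 2 = 1 := (ord_succ (Or.inl rfl)).trans (by simp [ord_one])
  have h4 : ord 4 = 2 := (ord_succ inO_two).trans (by rw [h2]; exact one_add_one_eq_two)
  have h1 : KLt 1 a := ha.one_le.resolve_left fun e => by simp [← e, ord_one] at h
  have h3 : KLt 2 a := h1.succ_le.resolve_left fun e => by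
    rw [← e, pow_one, h2] at h
    exact h.not_gt one_lt_two
  exact h3.succ_le.resolve_left fun e => by
    rw [← e] at h
    exact h.ne' h4

end Pool.Agent.Lib.MP_5290c5_lc
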