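import Pool.Agent.Lib.MP_5290c5_lc.Group
import Pool.Agent.Lib.MP_5290c5_lc.Levels

/-!
Homogeneous labelled trees, their groups, and the algebraic description of ranks.
-/

namespace Pool.Agent.Lib.MP_5290c5_lc

open Finsupp

/-- Entries of nodes. -/
abbrev En := ℕ × ℕ × (ℕ × ℕ) × ℕ

/-- Types of nodes. -/
inductive Ty
  | top : Ty
  | root (n : ℕ) (F : Set ℕ) : Ty
  | node (m : ℕ) (v : ℕ × ℕ) : Ty

/-- The label of a type. -/
def Ty.lab : Ty → ℕ
  | .top => 0
  | .root n _ => n
  | .node m _ => m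

/-- The types of children. -/
inductive Ch (V : ℕ → Set ℕ) (β : ℕ → ℕ → ℕ) : Ty → Ty → Prop
  | root {n : ℕ} {F : Set ℕ} : F.Finite → ¬ F ⊆ V n → Ch V β .top (.root n F)
  | low {n m : ℕ} {F : Set ℕ} {v : ℕ × ℕ} : WLt v (β n m, 0) → Ch V β (.root n F) (.node m v)
  | high {n m : ℕ} {F : Set ℕ} : m ∉ F → Ch V β (.root n F) (.node m (β n m, 0))
  | node {m m' : ℕ} {v v' : ℕ × ℕ} : WLt v' v → Ch V β (.node m v) (.node m' v')

/-- Homogeneous trees. -/
structure Hom (V : ℕ → Set ℕ) (β : ℕ → ℕ → ℕ) (real : List En → Prop) (ty : List En → Ty) :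
    Prop where
  nil : real []
  top : ty [] = .top
  tail : ∀ {x s}, real (x :: s) → real s
  child : ∀ {x s}, real (x :: s) → Ch V β (ty s) (ty (x :: s))
  lab : ∀ {x s}, real (x :: s) → (ty (x :: s)).lab = x.1
  inf : ∀ {s τ}, real s → Ch V β (ty s) τ → {x | real (x :: s) ∧ ty (x :: s) = τ}.Infinite
  junk : {s | ¬ real s}.Infinite

/-- The colour of a node. -/
def col (s : List En) : ℕ := Nat.pair s.length (s.headD (0, 0, (0, 0), 0)).1

/-- The group of a tree. -/
noncomputable def TG (real : List En → Prop) : AddSubgroup (List En →₀ ℚ) :=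
  Grp List.tail col (ok0 real fun s => s = [])

theorem exists_bijOn {α : Type} [Countable α] {S T : Set α} (hS : S.Infinite) (hT : T.Infinite) :
    ∃ f : α → α, Set.BijOn f S T := by
  classical
  have := hS.to_subtype
  have := hT.to_subtype
  obtain ⟨e⟩ := nonempty_equiv_of_countable (α := S) (β := T)
  refine ⟨fun x => if h : x ∈ S then e ⟨x, h⟩ else x, fun x hx => by simp [hx], fun x hx y hy h => ?_,
    fun y hy => ⟨e.symm ⟨y, hy⟩, (e.symm ⟨y, hy⟩).2, by simp⟩⟩
  simp only [hx, hy, dif_pos] at h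
  exact congrArg Subtype.val (e.injective (Subtype.ext h))

variable {V : ℕ → Set ℕ} {β : ℕ → ℕ → ℕ} {real real' : List En → Prop} {ty ty' : List En → Ty}

theorem Hom.iso (h : Hom V β real ty) (h' : Hom V β real' ty') :
    Nonempty (TG real ≃+ TG real') := by
  classical
  have h1 : ∀ s s' τ, ∃ φ : En → En, {x | real (x :: s) ∧ ty (x :: s) = τ}.Infinite →
      {x | real' (x :: s') ∧ ty' (x :: s') = τ}.Infinite →
      Set.BijOn φ {x | real (x :: s) ∧ ty (x :: s) = τ} {x | real' (x :: s') ∧ ty' (x :: s') = τ} := by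
    intro s s' τ
    by_cases h2 : {x | real (x :: s) ∧ ty (x :: s) = τ}.Infinite ∧
      {x | real' (x :: s') ∧ ty' (x :: s') = τ}.Infinite
    · exact (exists_bijOn h2.1 h2.2).imp fun φ h _ _ => h
    · exact ⟨id, fun h3 h4 => absurd ⟨h3, h4⟩ h2⟩
  choose φ hφ using h1
  let f : List En → List En := fun s => List.rec [] (fun x s r => φ s r (ty (x :: s)) x :: r) s
  have hf : ∀ x s, f (x :: s) = φ s (f s) (ty (x :: s)) x :: f s := fun _ _ => rfl
  have h2 : ∀ s, real s → real' (f s) ∧ ty' (f s) = ty s ∧ (f s).length = s.length := by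
    intro s
    induction s with
    | nil => exact fun _ => ⟨h'.nil, h'.top.trans h.top.symm, rfl⟩
    | cons x s ih =>
      intro hs
      obtain ⟨a1, a2, a3⟩ := ih (h.tail hs)
      have := (hφ s (f s) _ (h.inf (h.tail hs) (h.child hs))
        (h'.inf a1 (a2 ▸ h.child hs))).mapsTo ⟨hs, rfl⟩
      exact ⟨this.1, this.2, by simp [hf, a3]⟩
  have hb : ∀ s τ, real s → Ch V β (ty s) τ → Set.BijOn (φ s (f s) τ)
      {x | real (x :: s) ∧ ty (x :: s) = τ} {x | real' (x :: f s) ∧ ty' (x :: f s) = τ} :=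
    fun s τ hs hτ => hφ s (f s) τ (h.inf hs hτ) (h'.inf (h2 s hs).1 ((h2 s hs).2.1 ▸ hτ))
  have h3 : Set.BijOn f {s | real s} {s | real' s} := by
    refine ⟨fun s hs => (h2 s hs).1, fun s hs t ht e => ?_, fun s' hs' => ?_⟩
    · induction s generalizing t with
      | nil => cases t with
        | nil => rfl
        | cons y t => exact absurd e (by simp [hf, f])
      | cons x s ih => cases t with
        | nil => exact absurd e (by simp [hf, f])
        | cons y t =>
          have e1 : ty (x :: s) = ty (y :: t) := by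
            rw [← (h2 _ hs).2.1, ← (h2 _ ht).2.1, e]
          rw [hf, hf, List.cons.injEq] at e
          obtain rfl := ih (h.tail hs) t (h.tail ht) e.2
          rw [← e1] at e
          rw [(hb s _ (h.tail hs) (h.child hs)).injOn ⟨hs, rfl⟩ ⟨ht, e1.symm⟩ e.1]
    · induction s' with
      | nil => exact ⟨[], h.nil, rfl⟩
      | cons x' s' ih =>
        obtain ⟨s, hs, rfl⟩ := ih (h'.tail hs')
        obtain ⟨x, hx, e⟩ := (hb s _ hs ((h2 s hs).2.1 ▸ h'.child hs')).surjOn ⟨hs', rfl⟩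
        exact ⟨x :: s, hx.1, by rw [hf, hx.2, e]⟩
  obtain ⟨g, hg⟩ := exists_bijOn h.junk h'.junk
  let e : List En ≃ List En := Equiv.subtypeCongr (p := real) (q := real') (h3.equiv f) (hg.equiv g)
  have e1 : ∀ s, real s → e s = f s := fun s hs => by
    simp [e, Equiv.subtypeCongr, Equiv.sumCompl_symm_apply_of_pos hs, Set.BijOn.equiv]
  have e2 : ∀ s, ¬ real s → e s = g s := fun s hs => by
    simp [e, Equiv.subtypeCongr, Equiv.sumCompl_symm_apply_of_neg hs, Set.BijOn.equiv]
  have e3 : ∀ s, real s → (e s = [] ↔ s = []) := fun s hs => by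
    rw [e1 s hs, ← List.length_eq_zero_iff, (h2 s hs).2.2, List.length_eq_zero_iff]
  refine grp_transport e (fun x => ?_) fun x hx => ?_
  · by_cases hx : real x.1
    · have : real' (e x.1) := e1 _ hx ▸ (h2 _ hx).1
      simp [ok0, hx, this, e3 _ hx]
    · have : ¬ real' (e x.1) := e2 _ hx ▸ hg.mapsTo hx
      simp [ok0, hx, this]
  · rcases hx with ⟨hx, h4⟩ | ⟨h4, h5⟩
    · obtain ⟨s, b, k⟩ := x
      cases s with
      | nil => exact ⟨Or.inr (by rw [e1 _ hx]), fun hb => absurd rfl (h4 hb)⟩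
      | cons x s =>
        refine ⟨Or.inr ?_, fun _ => ?_⟩
        · have h5 := h2 _ hx
          have h6 := h'.lab (hf x s ▸ h5.1)
          rw [← hf, h5.2.1, h.lab hx] at h6
          simp only [col, e1 _ hx, h5.2.2]
          rw [hf]
          exact congrArg _ h6.symm
        · simp only [e1 _ hx, List.tail_cons, e1 _ (h.tail hx), hf]
    · exact ⟨Or.inl h5, fun h => by simp_all⟩

theorem Dv.supp {c : ℕ} {g : List En →₀ ℚ} (h : Dv (TG real) (fp false c) g) {s : List En}
    (hs : g s ≠ 0) : real s ∧ col s = c := by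
  classical
  by_contra hn
  have h1 := h.vanish (fun ν => if real ν ∧ col ν = c then 0 else single ν 1) (fun ν σ => ?_)
    fun x hx h1 h2 => ?_
  · have h2 := DFunLike.congr_fun h1 s
    rw [linearCombination_apply, Finsupp.sum, finsetSum_apply,
      Finset.sum_eq_single_of_mem s (mem_support_iff.2 hs)] at h2
    · simp [hn, hs] at h2
    · intro ν _ hν
      split_ifs <;> simp [hν]
  · split_ifs
    · exact ⟨0, by simp⟩
    · by_cases h : ν = σ
      · exact ⟨1, by simp [h]⟩
      · exact ⟨0, by simp [h]⟩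
  · rcases hx with hx | hx
    · exact Or.inr (by simp [vec, hx.1, h2])
    · exact Or.inl hx.2

theorem Dv.link {c N : ℕ} {g g' : List En →₀ ℚ} (h : Dv (TG real) (fp true c) (N • g + g'))
    (hN : N ≠ 0) (hg : ∀ s, g s ≠ 0 → col s ≠ c) {s : List En} (hs : g s ≠ 0) :
    ∃ t, g' t ≠ 0 ∧ (t = s ∨ t.tail = s) := by
  classical
  by_contra hn
  push Not at hn
  have h1 := h.vanish (fun ν => if col ν = c then - single ν.tail 1 else single ν 1)
    (fun ν σ => ?_) fun x hx h1 h2 => ?_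
  · have h2 := DFunLike.congr_fun h1 s
    rw [map_add, map_nsmul, Finsupp.add_apply, Finsupp.smul_apply, linearCombination_apply,
      linearCombination_apply, Finsupp.sum, Finsupp.sum, finsetSum_apply, finsetSum_apply,
      Finset.sum_eq_single_of_mem s (mem_support_iff.2 hs), Finset.sum_eq_zero] at h2
    · simp [hg s hs, hs, hN] at h2
    · intro ν hν
      obtain ⟨h3, h4⟩ := hn ν (mem_support_iff.1 hν)
      split_ifs <;> simp [h3, h4]
    · intro ν h3 hν
      simp [hg ν (mem_support_iff.1 h3), hν]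
  · split_ifs
    · by_cases h : ν.tail = σ
      · exact ⟨-1, by simp [h]⟩
      · exact ⟨0, by simp [h]⟩
    · by_cases h : ν = σ
      · exact ⟨1, by simp [h]⟩
      · exact ⟨0, by simp [h]⟩
  · rcases hx with hx | hx
    · have h3 : col x.1.tail ≠ c := by
        obtain ⟨s, b, k⟩ := x
        cases s with
        | nil => exact absurd rfl (hx.2 h1)
        | cons y s =>
          intro h3
          have := (Nat.pair_eq_pair.1 (h3.trans h2.symm)).1
          simp at this
      exact Or.inr (by simp [vec, h2, h3])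
    · simp_all

theorem exists_int (g : List En →₀ ℚ) :
    ∃ (N : ℕ) (z : List En → ℤ), N ≠ 0 ∧ ∀ s, (N : ℚ) * g s = z s := by
  classical
  refine ⟨∏ s ∈ g.support, (g s).den, fun s => ((∏ s ∈ g.support, (g s).den : ℕ) * g s).num,
    Finset.prod_ne_zero_iff.2 fun s _ => (g s).den_ne_zero, fun s => ?_⟩
  by_cases hs : s ∈ g.support
  · obtain ⟨c, hc⟩ := Finset.dvd_prod_of_mem (fun s => (g s).den) hs
    have : ((∏ s ∈ g.support, (g s).den : ℕ) : ℚ) * g s = ((c * (g s).num : ℤ) : ℚ) := by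
      rw [hc]
      push_cast
      rw [mul_comm _ (c : ℚ), mul_assoc, Rat.den_mul_eq_num]
    beta_reduce
    rw [this, Rat.num_intCast]
  · simp [notMem_support_iff.1 hs]

/-- The link between an element and an element supported on children. -/
theorem step {d m : ℕ} {g : List En →₀ ℚ} (hg : ∀ s, g s ≠ 0 → s.length = d) (R : List En → Prop) :
    (∃ N g', N ≠ 0 ∧ Dv (TG real) (fp false (Nat.pair (d + 1) m)) g' ∧ (∀ t, g' t ≠ 0 → R t) ∧
      Dv (TG real) (fp true (Nat.pair (d + 1) m)) (N • g + g')) ↔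
    ∀ s, g s ≠ 0 → ∃ x, real (x :: s) ∧ x.1 = m ∧ R (x :: s) := by
  classical
  constructor
  · rintro ⟨N, g', hN, h1, h2, h3⟩ s hs
    obtain ⟨t, h4, h5⟩ := h3.link hN (fun s hs e => by
      have := (Nat.pair_eq_pair.1 e).1
      rw [hg s hs] at this
      omega) hs
    obtain ⟨h6, h7⟩ := h1.supp h4
    obtain ⟨h8, h9⟩ := Nat.pair_eq_pair.1 h7
    have := hg s hs
    rcases h5 with rfl | rfl
    · omega
    · cases t with
      | nil => simp at h8
      | cons x t => exact ⟨x, h6, h9, h2 _ h4⟩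
  · intro h
    choose! x x1 x2 x3 using h
    obtain ⟨N, z, hN, hz⟩ := exists_int g
    have hc : ∀ s ∈ g.support, col (x s :: s) = Nat.pair (d + 1) m := fun s hs => by
      simp [col, hg s (mem_support_iff.1 hs), x2 s (mem_support_iff.1 hs)]
    have hv : ∀ b, ∀ s ∈ g.support,
        Dv (TG real) (fp b (Nat.pair (d + 1) m)) (vec List.tail (x s :: s) b) := fun b s hs =>
      hc s hs ▸ dv_vec fun k => Or.inl ⟨x1 s (mem_support_iff.1 hs), fun _ => by simp⟩
    refine ⟨N, _, hN, dv_sum g.support z _ (hv false), fun t ht => ?_, ?_⟩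
    · rw [finsetSum_apply] at ht
      obtain ⟨s, hs, h1⟩ := Finset.exists_ne_zero_of_sum_ne_zero ht
      have : x s :: s = t := by
        by_contra hne
        simp [vec, hne] at h1
      exact this ▸ x3 s (mem_support_iff.1 hs)
    · convert dv_sum g.support z _ (hv true) using 1
      have : N • g = ∑ s ∈ g.support, z s • single s (1 : ℚ) := by
        conv_lhs => rw [← g.sum_single, Finsupp.sum, Finset.smul_sum]
        refine Finset.sum_congr rfl fun s _ => ?_
        rw [smul_single, smul_single, nsmul_eq_mul, hz]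
        simp
      rw [this, ← Finset.sum_add_distrib]
      refine Finset.sum_congr rfl fun s _ => ?_
      simp only [vec, cond_true, cond_false, add_zero, List.tail_cons, smul_add]
      exact add_comm _ _

/-- Elements supported on nodes of colour `(d, m)` and rank at least `u`. -/
def PR (real : List En → Prop) (ty : List En → Ty) (u : ℕ × ℕ) (d m : ℕ) (g : List En →₀ ℚ) :
    Prop :=
  Dv (TG real) (fp false (Nat.pair d m)) g ∧ ∀ s, g s ≠ 0 → ∃ m v, ty s = .node m v ∧ WLe u v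

variable {a : ℕ}

theorem Hom.shape (h : Hom V β real ty) (hβ : ∀ n m, IsB (β n m) ∧ KLe (β n m) a) {s : List En}
    (hs : real s) : (s = [] ∨ ∃ n F, s.length = 1 ∧ ty s = .root n F ∧ F.Finite ∧ ¬ F ⊆ V n) ∨
      ∃ m v, 2 ≤ s.length ∧ ty s = .node m v ∧ IsB v.1 ∧ KLe v.1 a := by
  induction s with
  | nil => exact Or.inl (Or.inl rfl)
  | cons x s ih =>
    have h1 := h.child hs
    generalize ty (x :: s) = τ at h1
    rcases ih (h.tail hs) with (rfl | ⟨n, F, h2, h3, -⟩) | ⟨m, v, h2, h3, h4, h5⟩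
    · rw [h.top] at h1
      cases h1 with
      | root h1 h2 => exact Or.inl (Or.inr ⟨_, _, rfl, rfl, h1, h2⟩)
    · rw [h3] at h1
      cases h1 with
      | low h1 => exact Or.inr ⟨_, _, by simp [h2], rfl, h1.isB (hβ _ _).1, h1.kle.trans (hβ _ _).2⟩
      | high h1 => exact Or.inr ⟨_, _, by simp [h2], rfl, hβ _ _⟩
    · rw [h3] at h1
      cases h1 with
      | node h1 => exact Or.inr ⟨_, _, by simp; omega, rfl, h1.isB h4, h1.kle.trans h5⟩

theorem Hom.exists_child (h : Hom V β real ty) {s : List En} {τ : Ty} (hs : real s)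
    (hτ : Ch V β (ty s) τ) : ∃ x, real (x :: s) ∧ x.1 = τ.lab ∧ ty (x :: s) = τ := by
  obtain ⟨x, h1, h2⟩ := (h.inf hs hτ).nonempty
  exact ⟨x, h1, h2 ▸ (h.lab h1).symm, h2⟩

theorem Dv.length {d m : ℕ} {g : List En →₀ ℚ} (h : Dv (TG real) (fp false (Nat.pair d m)) g)
    (s : List En) (hs : g s ≠ 0) : s.length = d := (Nat.pair_eq_pair.1 (h.supp hs).2).1

theorem Hom.pr_succ (h : Hom V β real ty) (hβ : ∀ n m, IsB (β n m) ∧ KLe (β n m) a) {c j d m : ℕ}
    (hd : 2 ≤ d) {g : List En →₀ ℚ} :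
    PR real ty (c, j + 1) d m g ↔ Dv (TG real) (fp false (Nat.pair d m)) g ∧
      ∃ N g', N ≠ 0 ∧ PR real ty (c, j) (d + 1) 0 g' ∧
        Dv (TG real) (fp true (Nat.pair (d + 1) 0)) (N • g + g') := by
  refine and_congr_right fun h1 => ?_
  simp only [PR, and_assoc]
  rw [step h1.length]
  refine forall_congr' fun s => imp_congr_right fun hs => ?_
  have h2 := (h1.supp hs).1
  have h3 := h1.length s hs
  rcases h.shape hβ h2 with (rfl | ⟨n, F, h4, -⟩) | ⟨m, v, -, h4, h5, h6⟩
  · simp at h3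
    omega
  · omega
  constructor
  · rintro ⟨m', v', h7, h8⟩
    obtain ⟨x, a1, a2, a3⟩ := h.exists_child h2
      (h7 ▸ Ch.node (m' := 0) ((wlt_succ (c, j)).trans_le h8))
    exact ⟨x, a1, a2, _, _, a3, Or.inl rfl⟩
  · rintro ⟨x, a1, -, m', v', a3, a4⟩
    have h7 := h.child a1
    rw [h4, a3] at h7
    cases h7 with
    | node h7 => exact ⟨_, _, h4, (a4.trans_lt h7).succ_le⟩

theorem Hom.pr_zero (h : Hom V β real ty) (hβ : ∀ n m, IsB (β n m) ∧ KLe (β n m) a) {b d m : ℕ}
    (hb : IsB b) (hb' : KLe b a) (hd : 2 ≤ d) {g : List En →₀ ℚ} :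
    PR real ty (b, 0) d m g ↔ Dv (TG real) (fp false (Nat.pair d m)) g ∧
      ∀ c j, IsB c → KLt c b → PR real ty (c, j) d m g := by
  refine ⟨fun h1 => ⟨h1.1, fun c j hc hc' => ⟨h1.1, fun s hs => ?_⟩⟩, fun h1 => ⟨h1.1, fun s hs => ?_⟩⟩
  · obtain ⟨m, v, h2, h3⟩ := h1.2 s hs
    exact ⟨m, v, h2, WLe.trans (Or.inr (Or.inl ⟨hc, hc'⟩)) h3⟩
  · have h3 := h1.1.length s hs
    rcases h.shape hβ (h1.1.supp hs).1 with (rfl | ⟨n, F, h4, -⟩) | ⟨m, v, -, h4, h5, h6⟩
    · simp at h3
      omega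
    · omega
    refine ⟨m, v, h4, (wle_total (v := (b, 0)) hb' h6 hb h5).resolve_right fun h7 => ?_⟩
    obtain ⟨m', v', h8, h9⟩ := (h1.2 v.1 (v.2 + 1) h5 (h7.resolve_right (by simp)).2).2 s hs
    rw [h4] at h8
    cases h8
    exact WLt.irrefl ((wlt_succ v).trans_le h9)

theorem Hom.exists_root (h : Hom V β real ty) {n w : ℕ} (hw : w ∉ V n) :
    ∃ g, g ≠ 0 ∧ Dv (TG real) (fp false (Nat.pair 1 n)) g := by
  obtain ⟨x, h1, h2, -⟩ := h.exists_child (τ := .root n {w}) h.nil
    (h.top ▸ Ch.root (Set.finite_singleton w) (by simpa using hw))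
  refine ⟨vec List.tail [x] false, by simp [vec], ?_⟩
  have : col [x] = Nat.pair 1 n := by simp [col, h2, Ty.lab]
  exact this ▸ dv_vec fun k => Or.inl ⟨h1, by simp⟩

theorem Hom.decode (h : Hom V β real ty) (hβ : ∀ n m, IsB (β n m) ∧ KLe (β n m) a) {n : ℕ}
    {g : List En →₀ ℚ} (h0 : g ≠ 0) (hg : Dv (TG real) (fp false (Nat.pair 1 n)) g) :
    ∃ U : Set ℕ, U.Finite ∧ ¬ U ⊆ V n ∧ ∀ m, m ∉ U ↔ ∃ N g', N ≠ 0 ∧
      PR real ty (β n m, 0) 2 m g' ∧ Dv (TG real) (fp true (Nat.pair 2 m)) (N • g + g') := by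
  have h1 : ∀ s, g s ≠ 0 → ∃ F, ty s = .root n F ∧ F.Finite ∧ ¬ F ⊆ V n := by
    intro s hs
    obtain ⟨h2, h3⟩ := hg.supp hs
    obtain ⟨h4, h5⟩ := Nat.pair_eq_pair.1 h3
    rcases h.shape hβ h2 with (rfl | ⟨n', F, -, h6, h7⟩) | ⟨m, v, h6, -⟩
    · simp at h4
    · cases s with
      | nil => simp at h4
      | cons x s =>
        have h8 := h.lab h2
        rw [h6] at h8
        obtain rfl : n' = n := h8.trans h5
        exact ⟨F, h6, h7⟩
    · omega
  choose! F F1 F2 F3 using h1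
  refine ⟨⋃ s ∈ g.support, F s, g.support.finite_toSet.biUnion fun s hs =>
    F2 s (mem_support_iff.1 hs), fun h2 => ?_, fun m => ?_⟩
  · obtain ⟨s, hs⟩ := support_nonempty_iff.2 h0
    exact F3 s (mem_support_iff.1 hs) ((Set.subset_biUnion_of_mem (u := F) hs).trans h2)
  · simp only [PR, and_assoc]
    rw [step hg.length]
    simp only [Set.mem_iUnion, mem_support_iff, not_exists]
    refine forall_congr' fun s => imp_congr_right fun hs => ?_
    constructor
    · intro h2
      obtain ⟨x, a1, a2, a3⟩ := h.exists_child (hg.supp hs).1 (F1 s hs ▸ Ch.high h2)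
      exact ⟨x, a1, a2, _, _, a3, Or.inl rfl⟩
    · rintro ⟨x, a1, rfl, m', v', a3, a4⟩
      have h7 := h.child a1
      have h8 := h.lab a1
      rw [F1 s hs, a3] at h7
      rw [a3] at h8
      obtain rfl : m' = x.1 := h8
      cases h7 with
      | low h7 => exact absurd (a4.trans_lt h7) WLt.irrefl
      | high h7 => exact h7

end Pool.Agent.Lib.MP_5290c5_lc
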